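import Pool.Agent.U411.Queens.Four

set_option autoImplicit false

namespace Pool.Agent.U411.Queens

open Finset

section
variable {g : ℕ} {d c r : ℤ} {A B U V : Finset ℤ} {Q : Finset (ℤ × ℤ)}

theorem Dat.caseST (h : Dat g d c r A B U V Q) (hodd : ∃ a ∈ A, Odd a) :
    ∃ t : ℤ, Odd t ∧ 0 < t ∧ (∀ a ∈ A, Odd a → t ≤ a ∧ a ≤ d - t) ∧
      (∀ a ∈ B, Odd a → t ≤ a ∧ a ≤ d - t) ∧
      (RingEq (A.filter (fun x => Odd x)) (B.filter (fun x => Odd x))
        (U.filter (fun x => Even x)) (V.filter (fun x => Even x)) t (d - t) t (d - t) ∨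
      (RingEq (A.filter (fun x => Even x)) (B.filter (fun x => Odd x))
        (U.filter (fun x => Odd x)) (V.filter (fun x => Odd x)) 0 d t (d - t) ∧
       RingEq (A.filter (fun x => Odd x)) (B.filter (fun x => Even x))
        (U.filter (fun x => Odd x)) (V.filter (fun x => Odd x)) t (d - t) 0 d)) := by
  classical
  have hd := h.even_d
  obtain ⟨c1, c2, c3, c4, c5, c6, c7, c8, c9⟩ := h.classes
  obtain ⟨z1, z2, z3, z4⟩ := h.cards
  have e1 := card_even_add_odd A
  have e3 := card_even_add_odd U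
  have f1 := h.cardA
  have f3 := h.cardU
  set A0 := A.filter (fun x => Even x) with hA0
  set A1 := A.filter (fun x => Odd x) with hA1
  set B0 := B.filter (fun x => Even x) with hB0
  set B1 := B.filter (fun x => Odd x) with hB1
  set U0 := U.filter (fun x => Even x) with hU0
  set U1 := U.filter (fun x => Odd x) with hU1
  set V0 := V.filter (fun x => Even x) with hV0
  set V1 := V.filter (fun x => Odd x) with hV1
  have nA1 : A1.Nonempty := by
    obtain ⟨a, ha, ho⟩ := hodd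
    exact ⟨a, mem_filter.2 ⟨ha, ho⟩⟩
  have pA1 : 0 < A1.card := card_pos.2 nA1
  have nB1 : B1.Nonempty := card_pos.1 (by omega)
  -- the covers
  have covOO : ∀ a ∈ A1, ∀ b ∈ B1, b - a ∈ U0 ∨ a + b ∈ V0 := by
    intro a ha b hb
    rw [hA1, mem_filter] at ha
    rw [hB1, mem_filter] at hb
    rcases h.cov a ha.1 b hb.1 with h1 | h1
    · exact Or.inl (mem_filter.2 ⟨h1, hb.2.sub_odd ha.2⟩)
    · exact Or.inr (mem_filter.2 ⟨h1, ha.2.add_odd hb.2⟩)
  have covEO : ∀ a ∈ A0, ∀ b ∈ B1, b - a ∈ U1 ∨ a + b ∈ V1 := by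
    intro a ha b hb
    rw [hA0, mem_filter] at ha
    rw [hB1, mem_filter] at hb
    rcases h.cov a ha.1 b hb.1 with h1 | h1
    · exact Or.inl (mem_filter.2 ⟨h1, hb.2.sub_even ha.2⟩)
    · exact Or.inr (mem_filter.2 ⟨h1, ha.2.add_odd hb.2⟩)
  have covOE : ∀ a ∈ A1, ∀ b ∈ B0, b - a ∈ U1 ∨ a + b ∈ V1 := by
    intro a ha b hb
    rw [hA1, mem_filter] at ha
    rw [hB0, mem_filter] at hb
    rcases h.cov a ha.1 b hb.1 with h1 | h1
    · exact Or.inl (mem_filter.2 ⟨h1, hb.2.sub_odd ha.2⟩)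
    · exact Or.inr (mem_filter.2 ⟨h1, ha.2.add_even hb.2⟩)
  set a0 := A1.min' nA1 with ha0
  set a1 := A1.max' nA1 with ha1
  set b0 := B1.min' nB1 with hb0
  set b1 := B1.max' nB1 with hb1
  have bA : ∀ a ∈ A1, a0 ≤ a ∧ a ≤ a1 := fun a ha => ⟨min'_le _ _ ha, le_max' _ _ ha⟩
  have bB : ∀ a ∈ B1, b0 ≤ a ∧ a ≤ b1 := fun a ha => ⟨min'_le _ _ ha, le_max' _ _ ha⟩
  have m1 : a0 ∈ A1 := min'_mem _ _
  have m2 : a1 ∈ A1 := max'_mem _ _
  have m3 : b0 ∈ B1 := min'_mem _ _
  have m4 : b1 ∈ B1 := max'_mem _ _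
  have n1 : (0 : ℤ) ∈ A0 := mem_filter.2 ⟨h.A0, by simp⟩
  have n2 : d ∈ A0 := mem_filter.2 ⟨h.Ad, hd⟩
  have n3 : (0 : ℤ) ∈ B0 := mem_filter.2 ⟨h.B0, by simp⟩
  have n4 : d ∈ B0 := mem_filter.2 ⟨h.Bd, hd⟩
  have bA0 : ∀ a ∈ A0, 0 ≤ a ∧ a ≤ d := fun a ha => h.hA a (mem_filter.1 ha).1
  have bB0 : ∀ a ∈ B0, 0 ≤ a ∧ a ≤ d := fun a ha => h.hB a (mem_filter.1 ha).1
  have I1 := ring_ineq bA m1 m2 bB m3 m4 covOO
  have I2 := ring_ineq bA0 n1 n2 bB m3 m4 covEO
  -- all odd elements of A, B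
  have oA : ∀ a ∈ A, Odd a → a0 ≤ a ∧ a ≤ a1 := fun a ha ho => bA a (mem_filter.2 ⟨ha, ho⟩)
  have oB : ∀ a ∈ B, Odd a → b0 ≤ a ∧ a ≤ b1 := fun a ha ho => bB a (mem_filter.2 ⟨ha, ho⟩)
  have posa0 : 0 < a0 := by
    have h1 := mem_filter.1 m1
    have h2 := h.hA _ h1.1
    rcases eq_or_lt_of_le h2.1 with h3 | h3
    · have h4 := h1.2
      rw [← h3] at h4
      simp at h4
    · exact h3
  rcases Nat.lt_or_ge A0.card (A1.card + 1) with hc | hc
  · -- Case S
    have hS : A0.card = A1.card := by omega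
    have R := ring_eq bA m1 m2 bB m3 m4 covOO (by omega)
    have sq := ring_square bA m1 m2 bB m3 m4 covOO (by omega) (by omega)
    have s1 := R.sb (fun _ => 1)
    have s2 := R.st (fun _ => 1)
    have s3 := R.sl (fun _ => 1)
    have s4 := R.sr (fun _ => 1)
    simp only [sum_one] at s1 s2 s3 s4
    have q1 : b1 - a1 = b0 - a0 := by omega
    have q2 : a1 + b0 = a0 + b1 := by omega
    rw [q2] at s1 s4
    rw [q1] at s2 s4
    have cAB : A1.card = B1.card := by omega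
    have u0 : b0 - a0 = 0 := by
      apply median_unique R.hU0 (mem_filter.2 ⟨h.U0, by simp⟩)
      · omega
      · exact c7
    have v0 : a0 + b1 = d := by
      apply median_unique R.hV1 (mem_filter.2 ⟨h.Vd, hd⟩)
      · omega
      · exact c8
    refine ⟨a0, (mem_filter.1 m1).2, posa0, ?_, ?_, Or.inl ?_⟩
    · intro a ha ho
      have := oA a ha ho
      omega
    · intro a ha ho
      have := oB a ha ho
      omega
    · have k1 : a1 = d - a0 := by omega
      have k2 : b0 = a0 := by omega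
      have k3 : b1 = d - a0 := by omega
      rw [k1, k2, k3] at R
      exact R
  · -- Case T
    have hT : A0.card = A1.card + 2 := by omega
    have R1 := ring_eq bA0 n1 n2 bB m3 m4 covEO (by omega)
    have R2 := ring_eq bA m1 m2 bB0 n3 n4 covOE (by omega)
    have M := h.ring
    have w1 := R1.hU0
    have w2 := R1.hU1
    have w3 := R1.hV0
    have w4 := R1.hV1
    have x1 := R2.hU0
    have x2 := R2.hU1
    have x3 := R2.hV0
    have x4 := R2.hV1
    simp only [sub_zero, zero_sub, zero_add, add_zero] at w1 w2 w3 w4 x1 x2 x3 x4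
    have w1' := mem_filter.1 w1
    have w2' := mem_filter.1 w2
    have w3' := mem_filter.1 w3
    have w4' := mem_filter.1 w4
    have x1' := mem_filter.1 x1
    have x2' := mem_filter.1 x2
    have x3' := mem_filter.1 x3
    have x4' := mem_filter.1 x4
    have g1 := mem_filter.1 m1
    have g2 := mem_filter.1 m2
    have g3 := mem_filter.1 m3
    have g4 := mem_filter.1 m4
    have b1A := h.hA _ g2.1
    have b1B := h.hB _ g4.1
    have a0A := h.hA _ g1.1
    have b0B := h.hB _ g3.1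
    -- b1 ∈ V gives b1 ∈ A
    have y1 : b1 ∈ A := (M.bot b1).2 (Or.inr ⟨b1B.2, by simpa using w4'.1⟩)
    have y2 : a1 ∈ B := (M.left a1).2 (Or.inr ⟨b1A.2, by simpa using x3'.1⟩)
    have y3 := oA b1 y1 w4'.2
    have y4 := oB a1 y2 x3'.2
    -- δ − b0 ∈ A
    have y5 : d - b0 ∈ A := (M.top (d - b0)).2 (Or.inl ⟨by omega, by simpa using w1'.1⟩)
    have o1 : Odd (d - b0) := hd.sub_odd g3.2
    have y6 := oA _ y5 o1
    -- δ − a0 ∈ B
    have y7 : d - a0 ∈ B := (M.right (d - a0)).2 (Or.inl ⟨by omega, by simpa using x1'.1⟩)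
    have o2 : Odd (d - a0) := hd.sub_odd g1.2
    have y8 := oB _ y7 o2
    -- b0 ∈ A
    have y9 : b0 ∈ A := (M.top b0).2 (Or.inr ⟨b0B.1, by rw [add_comm]; simpa using w3'.1⟩)
    have y10 := oA _ y9 g3.2
    have y11 : a0 ∈ B := (M.right a0).2 (Or.inr ⟨a0A.1, by rw [add_comm]; simpa using x4'.1⟩)
    have y12 := oB _ y11 g1.2
    -- δ − b1 ∈ A
    have y13 : d - b1 ∈ A := (M.bot (d - b1)).2 (Or.inl ⟨by omega, by simpa using w2'.1⟩)
    have o3 : Odd (d - b1) := hd.sub_odd g4.2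
    have y14 := oA _ y13 o3
    refine ⟨a0, g1.2, posa0, ?_, ?_, Or.inr ?_⟩
    · intro a ha ho
      have := oA a ha ho
      omega
    · intro a ha ho
      have := oB a ha ho
      omega
    · have k1 : a1 = d - a0 := by omega
      have k2 : b0 = a0 := by omega
      have k3 : b1 = d - a0 := by omega
      rw [k2, k3] at R1
      rw [k1] at R2
      exact ⟨R1, R2⟩

end

end Pool.Agent.U411.Queens
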