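import Pool.Agent.U411.Queens.ClassT

set_option autoImplicit false

namespace Pool.Agent.U411.Queens

open Finset

section
variable {d t : ℤ} {A P R : Finset ℤ}

/-- Case S with `t` and `2t` present. -/
theorem classSa (H : Sym d A P R) (todd : Odd t) (tp : 0 < t)
    (ob : ∀ a ∈ A, Odd a → t ≤ a ∧ a ≤ d - t) (hS : CaseS d t A P R)
    (tP : t ∈ P) (tR : t ∈ R) (A2t : 2 * t ∈ A) :
    P = R ∧ Shape d P := by
  obtain ⟨hev, hod, hexc⟩ := hS
  have hd := H.hd
  have tA : t ∈ A := H.PA t tP
  have dt : d - t ∉ P := H.A2' t tR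
  have excl : ∀ x ∈ P, Even x → d - 2 * t - x ∉ P := by
    intro x hx he
    have h1 := hexc (x + t) (he.add_odd todd) (by rw [add_sub_cancel_right]; exact hx)
    have e : d - t - (x + t) = d - 2 * t - x := by ring
    rw [e] at h1
    exact h1
  have ptA : ∀ x ∈ P, Even x → x + t ∈ A := by
    intro x hx he
    exact (hod _ (he.add_odd todd)).2 (Or.inl (by rw [add_sub_cancel_right]; exact hx))
  have bnd : ∀ x ∈ P, Even x → x ≤ d - 2 * t := by
    intro x hx he
    have h1 := ob _ (ptA x hx he) (he.add_odd todd)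
    linarith
  have ex0 : d - 2 * t ∉ P := by
    have := excl 0 H.P0 (by simp)
    rwa [sub_zero] at this
  have e2t : Even (2 * t) := even_two_mul t
  have P2t : 2 * t ∈ P := by
    rcases (H.A1 _).1 A2t with h | h
    · exact h
    · exact (ex0 ((hev _ (hd.sub e2t)).2 h)).elim
  have clo : ∀ x ∈ P, Even x → |x - 2 * t| ∈ P := by
    intro x hx he
    rcases H.cov (2 * t) A2t x (H.PA x hx) with h2 | h2
    · exact h2
    · exfalso
      have h3 := bnd x hx he
      rw [abs_of_nonpos (by linarith)] at h2
      have h4 := (hev _ ((e2t.add he).sub hd).neg).2 h2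
      have e : -(2 * t + x - d) = d - 2 * t - x := by ring
      rw [e] at h4
      exact excl x hx he h4
  -- least positive even element
  have hne : (P.filter (fun x => Even x ∧ 0 < x)).Nonempty :=
    ⟨2 * t, mem_filter.2 ⟨P2t, e2t, by linarith⟩⟩
  obtain ⟨s, hs1, hs2⟩ : ∃ s, s ∈ P.filter (fun x => Even x ∧ 0 < x) ∧
      ∀ x ∈ P.filter (fun x => Even x ∧ 0 < x), s ≤ x :=
    ⟨_, min'_mem _ hne, fun x hx => min'_le _ _ hx⟩
  rw [mem_filter] at hs1
  obtain ⟨sP, se, spos⟩ := hs1
  have smin : ∀ x ∈ P, Even x → 0 < x → s ≤ x :=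
    fun x hx he h0 => hs2 x (mem_filter.2 ⟨hx, he, h0⟩)
  have sle : s ≤ 2 * t := smin _ P2t e2t (by linarith)
  have sA : s ∈ A := H.PA s sP
  have seq : s = 2 * t := by
    by_contra hsne
    have slt : s < 2 * t := lt_of_le_of_ne sle hsne
    have stepx : ∀ x ∈ P, Even x → 0 < x → x < 2 * t → x - s ∈ P := by
      intro x hx he h0 h1
      have h2 := clo x hx he
      rw [abs_of_nonpos (by linarith), neg_sub] at h2
      have h3 := smin _ h2 (e2t.sub he) (by linarith)
      rcases H.cov s sA x (H.PA x hx) with h4 | h4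
      · rw [abs_of_nonneg (by linarith [smin x hx he h0])] at h4
        exact h4
      · exfalso
        have h5 := bnd _ P2t e2t
        rw [abs_of_nonpos (by linarith)] at h4
        have h6 := (hev _ ((se.add he).sub hd).neg).2 h4
        have h7 := bnd _ h6 ((se.add he).sub hd).neg
        have h8 : s + x = 2 * t := by linarith
        have e : -(s + x - d) = d - 2 * t := by linarith
        rw [e] at h6
        exact ex0 h6
    have p1 : 2 * t - s ∈ P := by
      have h2 := clo s sP se
      rw [abs_of_nonpos (by linarith), neg_sub] at h2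
      exact h2
    have sge : s ≤ 2 * t - s := smin _ p1 (e2t.sub se) (by linarith)
    have snet : s ≠ t := fun h => (Int.not_even_iff_odd.2 todd) (h ▸ se)
    have slt2 : s < 2 * t - s := lt_of_le_of_ne sge (fun h => snet (by linarith))
    have p2 : 2 * t - 2 * s ∈ P := by
      have h2 := stepx _ p1 (e2t.sub se) (by linarith) (by linarith)
      have e : 2 * t - s - s = 2 * t - 2 * s := by ring
      rwa [e] at h2
    have p3 : 2 * s ∈ P := by
      have h2 := clo _ p2 (e2t.sub (even_two_mul s))
      have e : 2 * t - 2 * s - 2 * t = -(2 * s) := by ring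
      rw [e, abs_neg, abs_of_nonneg (by linarith)] at h2
      exact h2
    have q : ∀ x ∈ P, Even x → 0 < x → x < 2 * t → t + x ∈ A ∧ t + x ∉ P := by
      intro x hx he h0 h1
      have h2 := ptA x hx he
      have h3 := ob _ h2 (he.add_odd todd)
      rw [add_comm] at h2
      refine ⟨h2, ?_⟩
      rcases H.cov t tA x (H.PA x hx) with h4 | h4
      · exfalso
        have ho : Odd |x - t| := by
          rcases abs_choice (x - t) with h5 | h5
          · rw [h5]; exact he.sub_odd todd
          · rw [h5]; exact (he.sub_odd todd).neg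
        have h5 := (ob _ (H.PA _ h4) ho).1
        have h6 : |x - t| < t := abs_lt.2 ⟨by linarith, by linarith⟩
        linarith
      · rw [abs_of_nonpos (by linarith)] at h4
        intro h5
        have e : -(t + x - d) = d - (t + x) := by ring
        rw [e] at h4
        exact H.A1' _ h5 h4
    have chain : ∀ i : ℕ, (t + ((i : ℤ) + 1) * s ∈ A ∧ t + ((i : ℤ) + 1) * s ∉ P) ∧
        (t + ((i : ℤ) + 2) * s ∈ A ∧ t + ((i : ℤ) + 2) * s ∉ P) := by
      intro i
      induction i with
      | zero =>
        have h1 := q s sP se spos slt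
        have h2 := q (2 * s) p3 (even_two_mul s) (by linarith) (by linarith)
        simp only [Nat.cast_zero, zero_add, one_mul]
        exact ⟨h1, h2⟩
      | succ i ih =>
        have e1 : ((i + 1 : ℕ) : ℤ) + 1 = (i : ℤ) + 2 := by push_cast; ring
        rw [e1]
        refine ⟨ih.2, ?_⟩
        have hy := ih.2.1
        have hyo : Odd (t + ((i : ℤ) + 2) * s) := todd.add_even (se.mul_left _)
        have h3 := ob _ hy hyo
        rcases H.cov s sA _ hy with h4 | h4
        · exfalso
          have e2 : t + ((i : ℤ) + 2) * s - s = t + ((i : ℤ) + 1) * s := by ring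
          have h5 : (0 : ℤ) ≤ t + ((i : ℤ) + 1) * s := by positivity
          rw [e2, abs_of_nonneg h5] at h4
          exact ih.1.2 h4
        · rw [abs_of_nonpos (by linarith)] at h4
          have e2 : -(s + (t + ((i : ℤ) + 2) * s) - d) = d - (t + ((i : ℤ) + 3) * s) := by ring
          rw [e2] at h4
          have e3 : ((i + 1 : ℕ) : ℤ) + 2 = (i : ℤ) + 3 := by push_cast; ring
          rw [e3]
          exact ⟨(H.A1 _).2 (Or.inr h4), fun h5 => H.A1' _ h5 h4⟩
    have hc := (chain d.toNat).1.1
    have h1 := (H.hA _ hc).2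
    have h0 : 0 ≤ d := by linarith [(ob t tA todd).2]
    rw [Int.toNat_of_nonneg h0] at h1
    nlinarith
  -- the even part of `P`
  obtain ⟨L, hL, hPs⟩ := ap_of_closed (S := P.filter (fun x => Even x)) (b := 0) (μ := 2 * t)
    (by linarith) (mem_filter.2 ⟨H.P0, by simp⟩)
    (fun x hx => (H.hA x (H.PA x (mem_filter.1 hx).1)).1)
    (fun x hx hne => by
      have h1 := mem_filter.1 hx
      have h2 := (H.hA x (H.PA x h1.1)).1
      have h3 := smin x h1.1 h1.2 (lt_of_le_of_ne h2 (Ne.symm hne))
      have h4 := clo x h1.1 h1.2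
      rw [abs_of_nonneg (by linarith)] at h4
      exact mem_filter.2 ⟨h4, h1.2.sub e2t⟩)
  have hP0 : ∀ x, Even x → (x ∈ P ↔ ∃ j : ℕ, j < L ∧ x = j * (2 * t)) := by
    intro x hx
    have := hPs x
    rw [mem_filter] at this
    simp only [zero_add] at this
    rw [← this]
    tauto
  have hL2 : 2 ≤ L := by
    obtain ⟨j, hj, e⟩ := (hP0 _ e2t).1 P2t
    by_contra h
    have : j = 0 := by omega
    subst this
    simp at e
    linarith
  have evmul : ∀ j : ℕ, j % 2 = 0 → Even ((j : ℤ) * t) := by
    intro j hj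
    obtain ⟨i, hi⟩ : ∃ i, j = 2 * i := ⟨j / 2, by omega⟩
    rw [hi]
    exact ⟨i * t, by push_cast; ring⟩
  have oddmul : ∀ j : ℕ, j % 2 = 1 → Odd ((j : ℤ) * t) := by
    intro j hj
    apply Odd.mul _ todd
    obtain ⟨i, hi⟩ : ∃ i, j = 2 * i + 1 := ⟨j / 2, by omega⟩
    exact ⟨i, by rw [hi]; push_cast; ring⟩
  have emul : ∀ j : ℕ, j ≤ 2 * L - 1 → j % 2 = 0 → (j : ℤ) * t ∈ P := by
    intro j hj hj2
    obtain ⟨i, hi⟩ : ∃ i, j = 2 * i := ⟨j / 2, by omega⟩
    apply (hP0 _ (evmul j hj2)).2
    refine ⟨i, by omega, ?_⟩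
    rw [hi]
    push_cast
    ring
  have hA : ∀ a, a ∈ A ↔ ∃ j : ℕ, j ≤ 2 * L - 1 ∧ (a = j * t ∨ a = d - j * t) := by
    have back : ∀ j : ℕ, j ≤ 2 * L - 1 → (j : ℤ) * t ∈ A := by
      intro j hj
      rcases Nat.mod_two_eq_zero_or_one j with h2 | h2
      · exact H.PA _ (emul j hj h2)
      · apply (hod _ (oddmul j h2)).2
        left
        have e : (j : ℤ) * t - t = ((j - 1 : ℕ) : ℤ) * t := by
          rw [Nat.cast_sub (by omega)]
          push_cast
          ring
        rw [e]
        exact emul (j - 1) (by omega) (by omega)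
    intro a
    constructor
    · intro ha
      rcases Int.even_or_odd a with he | ho
      · rcases (H.A1 a).1 ha with h2 | h2
        · obtain ⟨j, hj, e⟩ := (hP0 _ he).1 h2
          refine ⟨2 * j, by omega, Or.inl ?_⟩
          push_cast
          linarith
        · obtain ⟨j, hj, e⟩ := (hP0 _ (hd.sub he)).1 ((hev _ (hd.sub he)).2 h2)
          refine ⟨2 * j, by omega, Or.inr ?_⟩
          push_cast
          linarith
      · rcases (hod a ho).1 ha with h2 | h2
        · obtain ⟨j, hj, e⟩ := (hP0 _ (ho.sub_odd todd)).1 h2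
          refine ⟨2 * j + 1, by omega, Or.inl ?_⟩
          push_cast
          linarith
        · obtain ⟨j, hj, e⟩ := (hP0 _ ((hd.sub_odd todd).sub_odd ho)).1 h2
          refine ⟨2 * j + 1, by omega, Or.inr ?_⟩
          push_cast
          linarith
    · rintro ⟨j, hj, rfl | rfl⟩
      · exact back j hj
      · exact H.symmA _ (back j hj)
  have disj : ∀ i j : ℕ, i ≤ 2 * L - 1 → j ≤ 2 * L - 1 → (i : ℤ) * t ≠ d - j * t := by
    intro i j hi hj h
    rcases Nat.mod_two_eq_zero_or_one i with h1 | h1
    · rcases Nat.mod_two_eq_zero_or_one j with h2 | h2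
      · have h3 := emul i hi h1
        have h4 := (hev _ (evmul j h2)).1 (emul j hj h2)
        rw [h] at h3
        exact H.A2' _ h4 h3
      · have h3 := evmul i h1
        rw [h] at h3
        exact (Int.not_even_iff_odd.2 (hd.sub_odd (oddmul j h2))) h3
    · rcases Nat.mod_two_eq_zero_or_one j with h2 | h2
      · have h3 := oddmul i h1
        rw [h] at h3
        exact (Int.not_even_iff_odd.2 h3) (hd.sub (evmul j h2))
      · have e1 : (i : ℤ) * t - t = ((i - 1 : ℕ) : ℤ) * t := by
          rw [Nat.cast_sub (by omega)]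
          push_cast
          ring
        have e2 : d - t - (i : ℤ) * t = ((j - 1 : ℕ) : ℤ) * t := by
          rw [h, Nat.cast_sub (by omega)]
          push_cast
          ring
        have h3 := hexc _ (oddmul i h1) (by
          rw [e1]
          exact emul (i - 1) (by omega) (by omega))
        rw [e2] at h3
        exact h3 (emul (j - 1) (by omega) (by omega))
  have full : ∀ j : ℕ, j ≤ 2 * L - 1 → (j + (2 * L - 1)) % 2 = 1 →
      (j : ℤ) * t ∈ P ∧ (j : ℤ) * t ∈ R := by
    intro j hj h2
    have h3 := emul j hj (by omega)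
    exact ⟨h3, (hev _ (evmul j (by omega))).1 h3⟩
  exact twoAP H todd tp (by omega) hA disj tP full

end

end Pool.Agent.U411.Queens
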