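import Pool.Agent.U411.Queens.ClassSa

set_option autoImplicit false

namespace Pool.Agent.U411.Queens

open Finset

theorem card_split {S X Y : Finset ℤ} {f g : ℤ → ℤ} (hf : Function.Injective f)
    (hg : Function.Injective g) (h : ∀ a, a ∈ S ↔ (∃ x ∈ X, f x = a) ∨ (∃ y ∈ Y, g y = a))
    (hd : ∀ x ∈ X, ∀ y ∈ Y, f x ≠ g y) :
    S.card = X.card + Y.card ∧
      ∀ w : ℤ → ℤ, ∑ a ∈ S, w a = ∑ x ∈ X, w (f x) + ∑ y ∈ Y, w (g y) := by
  have e : S = X.image f ∪ Y.image g := by
    ext a
    rw [h a, mem_union, mem_image, mem_image]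
  have dis : Disjoint (X.image f) (Y.image g) := by
    rw [disjoint_left]
    intro a h1 h2
    obtain ⟨x, hx, rfl⟩ := mem_image.1 h1
    obtain ⟨y, hy, h3⟩ := mem_image.1 h2
    exact hd x hx y hy h3.symm
  refine ⟨?_, fun w => ?_⟩
  · rw [e, card_union_of_disjoint dis, card_image_of_injective _ hf, card_image_of_injective _ hg]
  · rw [e, sum_union dis, sum_image (fun a _ b _ hab => hf hab),
      sum_image (fun a _ b _ hab => hg hab)]

theorem inj_sub_left (c : ℤ) : Function.Injective (fun u : ℤ => c - u) :=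
  fun x y hxy => by simpa using hxy

theorem inj_add_right (c : ℤ) : Function.Injective (fun u : ℤ => u + c) :=
  fun x y hxy => by simpa using hxy

section
variable {d t : ℤ} {A P R : Finset ℤ}

theorem CaseS.swap (H : Sym d A P R) (hS : CaseS d t A P R) (todd : Odd t) :
    CaseS d t A R P := by
  obtain ⟨hev, hod, hexc⟩ := hS
  have hd := H.hd
  refine ⟨fun x hx => (hev x hx).symm, ?_, ?_⟩
  · intro a ha
    rw [hod a ha, hev _ (ha.sub_odd todd), hev _ ((hd.sub_odd todd).sub_odd ha)]
  · intro a ha h1 h2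
    rw [← hev _ (ha.sub_odd todd)] at h1
    rw [← hev _ ((hd.sub_odd todd).sub_odd ha)] at h2
    exact hexc a ha h1 h2

/-- Counting and sums in Case S. -/
theorem countS (H : Sym d A P R) (todd : Odd t) (tp : 0 < t)
    (ob : ∀ a ∈ A, Odd a → t ≤ a ∧ a ≤ d - t) (hS : CaseS d t A P R) (tA : t ∈ A) :
    (P.filter (fun x => Odd x)).card = (P.filter (fun x => Even x)).card ∧
    (R.filter (fun x => Odd x)).card = (P.filter (fun x => Even x)).card ∧
    (A.filter (fun x => Even x ∧ x ≠ 0 ∧ x ≠ d)).card + 2 =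
      2 * (P.filter (fun x => Even x)).card ∧
    ∑ x ∈ P.filter (fun x => Odd x), x = ∑ x ∈ R.filter (fun x => Odd x), x ∧
    2 * ∑ x ∈ A.filter (fun x => Even x ∧ x ≠ 0 ∧ x ≠ d), x =
      ((A.filter (fun x => Even x ∧ x ≠ 0 ∧ x ≠ d)).card : ℤ) * d := by
  obtain ⟨hev, hod, hexc⟩ := hS
  have hd := H.hd
  obtain ⟨ke1, ke2, ke3⟩ := even_facts hd
  obtain ⟨ko1, ko2, ko3⟩ := odd_facts hd
  have hdt : 2 * t ≤ d := by linarith [(ob t tA todd).2]
  have A0 : (0 : ℤ) ∈ A := H.PA 0 H.P0
  have Ad : d ∈ A := by have := H.symmA 0 A0; rwa [sub_zero] at this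
  have hRP : R.filter (fun x => Even x) = P.filter (fun x => Even x) := by
    ext x
    rw [mem_filter, mem_filter]
    constructor
    · rintro ⟨h1, h2⟩
      exact ⟨(hev x h2).2 h1, h2⟩
    · rintro ⟨h1, h2⟩
      exact ⟨(hev x h2).1 h1, h2⟩
  -- (a)
  have ca := card_split (S := A.filter (fun x => Even x)) (X := P.filter (fun x => Even x))
    (Y := R.filter (fun x => Even x)) (f := fun x => x) (g := fun x => d - x)
    (fun x y h => h) (inj_sub_left d)
    (by
      intro a
      rw [mem_filter, H.A1 a]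
      constructor
      · rintro ⟨h1 | h1, h2⟩
        · exact Or.inl ⟨a, mem_filter.2 ⟨h1, h2⟩, rfl⟩
        · exact Or.inr ⟨d - a, mem_filter.2 ⟨h1, (ke2 a).2 h2⟩, by ring⟩
      · rintro (⟨x, hx, rfl⟩ | ⟨x, hx, rfl⟩)
        · have := mem_filter.1 hx
          exact ⟨Or.inl this.1, this.2⟩
        · have := mem_filter.1 hx
          refine ⟨Or.inr (by rw [sub_sub_cancel]; exact this.1), (ke2 x).2 this.2⟩)
    (by
      intro x hx y hy h
      have hx' := mem_filter.1 hx
      have hy' := mem_filter.1 hy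
      rw [h] at hx'
      exact H.A2' _ hy'.1 hx'.1)
  -- (b)
  have cb := card_split (S := A.filter (fun x => Odd x)) (X := P.filter (fun x => Even x))
    (Y := P.filter (fun x => Even x)) (f := fun x => x + t) (g := fun x => (d - t) - x)
    (inj_add_right t) (inj_sub_left (d - t))
    (by
      intro a
      rw [mem_filter]
      constructor
      · rintro ⟨h1, h2⟩
        rcases (hod a h2).1 h1 with h3 | h3
        · exact Or.inl ⟨a - t, mem_filter.2 ⟨h3, h2.sub_odd todd⟩, by ring⟩
        · exact Or.inr ⟨d - t - a, mem_filter.2 ⟨h3, (hd.sub_odd todd).sub_odd h2⟩, by ring⟩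
      · rintro (⟨x, hx, rfl⟩ | ⟨x, hx, rfl⟩)
        · have := mem_filter.1 hx
          have ho : Odd (x + t) := this.2.add_odd todd
          exact ⟨(hod _ ho).2 (Or.inl (by rw [add_sub_cancel_right]; exact this.1)), ho⟩
        · have := mem_filter.1 hx
          have ho : Odd (d - t - x) := (hd.sub_odd todd).sub_even this.2
          exact ⟨(hod _ ho).2 (Or.inr (by rw [sub_sub_cancel]; exact this.1)), ho⟩)
    (by
      intro x hx y hy h
      have hx' := mem_filter.1 hx
      have hy' := mem_filter.1 hy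
      have ho : Odd (x + t) := hx'.2.add_odd todd
      refine hexc (x + t) ho (by rw [add_sub_cancel_right]; exact hx'.1) ?_
      have e : d - t - (x + t) = y := by linarith
      rw [e]
      exact hy'.1)
  -- (c)
  have cc := card_split (S := A.filter (fun x => Odd x)) (X := P.filter (fun x => Odd x))
    (Y := R.filter (fun x => Odd x)) (f := fun x => x) (g := fun x => d - x)
    (fun x y h => h) (inj_sub_left d)
    (by
      intro a
      rw [mem_filter, H.A1 a]
      constructor
      · rintro ⟨h1 | h1, h2⟩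
        · exact Or.inl ⟨a, mem_filter.2 ⟨h1, h2⟩, rfl⟩
        · exact Or.inr ⟨d - a, mem_filter.2 ⟨h1, (ko2 a).2 h2⟩, by ring⟩
      · rintro (⟨x, hx, rfl⟩ | ⟨x, hx, rfl⟩)
        · have := mem_filter.1 hx
          exact ⟨Or.inl this.1, this.2⟩
        · have := mem_filter.1 hx
          refine ⟨Or.inr (by rw [sub_sub_cancel]; exact this.1), (ko2 x).2 this.2⟩)
    (by
      intro x hx y hy h
      have hx' := mem_filter.1 hx
      have hy' := mem_filter.1 hy
      rw [h] at hx'
      exact H.A2' _ hy'.1 hx'.1)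
  have cP := card_even_add_odd P
  have cR := card_even_add_odd R
  have hc := H.card
  rw [hRP] at ca cR
  -- symmetry sums
  have symo : 2 * ∑ x ∈ A.filter (fun x => Odd x), x =
      ((A.filter (fun x => Odd x)).card : ℤ) * d := by
    have h1 : ∑ x ∈ A.filter (fun x => Odd x), x = ∑ x ∈ A.filter (fun x => Odd x), (d - x) := by
      apply sum_nbij' (fun x => d - x) (fun x => d - x)
      · intro x hx
        have := mem_filter.1 hx
        exact mem_filter.2 ⟨H.symmA x this.1, (ko2 x).2 this.2⟩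
      · intro x hx
        have := mem_filter.1 hx
        exact mem_filter.2 ⟨H.symmA x this.1, (ko2 x).2 this.2⟩
      · intro x _; ring
      · intro x _; ring
      · intro x _; ring
    rw [sum_sub_distrib, sum_const, nsmul_eq_mul] at h1
    linarith
  have syme : 2 * ∑ x ∈ A.filter (fun x => Even x ∧ x ≠ 0 ∧ x ≠ d), x =
      ((A.filter (fun x => Even x ∧ x ≠ 0 ∧ x ≠ d)).card : ℤ) * d := by
    have h1 : ∑ x ∈ A.filter (fun x => Even x ∧ x ≠ 0 ∧ x ≠ d), x =
        ∑ x ∈ A.filter (fun x => Even x ∧ x ≠ 0 ∧ x ≠ d), (d - x) := by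
      have hm : ∀ x ∈ A.filter (fun x => Even x ∧ x ≠ 0 ∧ x ≠ d),
          d - x ∈ A.filter (fun x => Even x ∧ x ≠ 0 ∧ x ≠ d) := by
        intro x hx
        obtain ⟨h1, h2, h3, h4⟩ := mem_filter.1 hx
        refine mem_filter.2 ⟨H.symmA x h1, (ke2 x).2 h2, ?_, ?_⟩
        · intro h5
          apply h4
          linarith
        · intro h5
          apply h3
          linarith
      apply sum_nbij' (fun x => d - x) (fun x => d - x) hm hm
      · intro x _; ring
      · intro x _; ring
      · intro x _; ring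
    rw [sum_sub_distrib, sum_const, nsmul_eq_mul] at h1
    linarith
  have c0 : (A.filter (fun x => Even x ∧ x ≠ 0 ∧ x ≠ d)).card + 2 =
      (A.filter (fun x => Even x)).card := by
    have e : A.filter (fun x => Even x ∧ x ≠ 0 ∧ x ≠ d) =
        ((A.filter (fun x => Even x)).erase 0).erase d := by
      ext x
      simp only [mem_filter, mem_erase]
      tauto
    have m0 : (0 : ℤ) ∈ A.filter (fun x => Even x) := mem_filter.2 ⟨A0, by simp⟩
    have md : d ∈ (A.filter (fun x => Even x)).erase 0 :=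
      mem_erase.2 ⟨by linarith, mem_filter.2 ⟨Ad, hd⟩⟩
    have h1 := card_erase_add_one md
    have h2 := card_erase_add_one m0
    rw [e]
    omega
  have sc := cc.2 (fun x => x)
  rw [sum_sub_distrib, sum_const, nsmul_eq_mul] at sc
  refine ⟨by omega, by omega, by omega, ?_, syme⟩
  have h1 : (A.filter (fun x => Odd x)).card = 2 * (R.filter (fun x => Odd x)).card := by omega
  rw [h1] at symo
  push_cast at symo
  linarith

/-- The row `t` in Case S. -/
theorem rowt (H : Sym d A P R) (todd : Odd t) (tp : 0 < t)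
    (ob : ∀ a ∈ A, Odd a → t ≤ a ∧ a ≤ d - t) (tA : t ∈ A)
    (a : ℤ) (ha : a ∈ A) (he : Even a) (h0 : a ≠ 0) (h1 : a ≠ d) :
    a - t ∈ P ∨ d - t - a ∈ R := by
  have hd := H.hd
  have hb := H.hA a ha
  rcases H.cov t tA a ha with h2 | h2
  · left
    rcases le_or_gt t a with h3 | h3
    · rwa [abs_of_nonneg (by linarith)] at h2
    · exfalso
      rw [abs_of_nonpos (by linarith), neg_sub] at h2
      have := (ob _ (H.PA _ h2) (todd.sub_even he)).1
      omega
  · right
    rcases le_or_gt (t + a) d with h3 | h3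
    · rw [abs_of_nonpos (by linarith)] at h2
      have e : -(t + a - d) = d - t - a := by ring
      rwa [e] at h2
    · exfalso
      rw [abs_of_nonneg (by linarith)] at h2
      have := (ob _ (H.RA _ h2) ((todd.add_even he).sub_even hd)).1
      omega

/-- `t ∈ P`, `t ∉ R` is impossible. -/
theorem sum_trick (H : Sym d A P R) (todd : Odd t) (tp : 0 < t)
    (ob : ∀ a ∈ A, Odd a → t ≤ a ∧ a ≤ d - t) (hS : CaseS d t A P R)
    (tP : t ∈ P) (tR : t ∉ R) : False := by
  have tA : t ∈ A := H.PA t tP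
  have hd := H.hd
  obtain ⟨c1, c2, c3, c4, c5⟩ := countS H todd tp ob hS tA
  have dP : d - t ∈ P := ((H.A2 t).1 tA).resolve_left tR
  have dR : d - t ∉ R := H.A1' t tP
  have odt : Odd (d - t) := hd.sub_odd todd
  set E := A.filter (fun x => Even x ∧ x ≠ 0 ∧ x ≠ d) with hE
  set PO := P.filter (fun x => Odd x) with hPO
  set RO := R.filter (fun x => Odd x) with hRO
  set Y1 := (PO.erase (d - t)).image (fun x => x + t) with hY1
  set Y2 := RO.image (fun x => (d - t) - x) with hY2
  have dPO : d - t ∈ PO := mem_filter.2 ⟨dP, odt⟩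
  have hsub : E ⊆ Y1 ∪ Y2 := by
    intro a ha
    obtain ⟨h1, h2, h3, h4⟩ := mem_filter.1 ha
    rcases rowt H todd tp ob tA a h1 h2 h3 h4 with h5 | h5
    · apply mem_union_left
      refine mem_image.2 ⟨a - t, mem_erase.2 ⟨?_, mem_filter.2 ⟨h5, h2.sub_odd todd⟩⟩, by ring⟩
      intro h6
      apply h4
      linarith
    · apply mem_union_right
      exact mem_image.2 ⟨d - t - a, mem_filter.2 ⟨h5, odt.sub_even h2⟩, by ring⟩
  have k1 : Y1.card + 1 = PO.card := by
    rw [hY1, card_image_of_injective _ (inj_add_right t), card_erase_add_one dPO]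
  have k2 : Y2.card = RO.card := by
    rw [hY2, card_image_of_injective _ (inj_sub_left (d - t))]
  have s1 : ∑ x ∈ Y1, x = ∑ x ∈ PO, x - (d - t) + ((PO.card : ℤ) - 1) * t := by
    rw [hY1, sum_image (fun a _ b _ hab => inj_add_right t hab), sum_add_distrib, sum_const,
      nsmul_eq_mul]
    have h1 := add_sum_erase PO (fun x => x) dPO
    have h2 : (((PO.erase (d - t)).card : ℕ) : ℤ) = (PO.card : ℤ) - 1 := by
      have := card_erase_add_one dPO
      omega
    rw [h2]
    linarith
  have s2 : ∑ x ∈ Y2, x = (RO.card : ℤ) * (d - t) - ∑ x ∈ RO, x := by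
    rw [hY2, sum_image (fun a _ b _ hab => inj_sub_left (d - t) hab), sum_sub_distrib, sum_const,
      nsmul_eq_mul]
  have pos1 : ∀ x ∈ Y1, 0 < x := by
    intro x hx
    obtain ⟨y, hy, rfl⟩ := mem_image.1 hx
    have h1 := (H.hA y (H.PA y (mem_filter.1 (mem_erase.1 hy).2).1)).1
    linarith
  have pos2 : ∀ x ∈ Y2, 0 < x := by
    intro x hx
    obtain ⟨y, hy, rfl⟩ := mem_image.1 hx
    have h1 := mem_filter.1 hy
    have h2 := ob y (H.RA y h1.1) h1.2
    have h3 : y ≠ d - t := by
      rintro rfl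
      exact dR h1.1
    omega
  have h1 := sum_union_inter (s₁ := Y1) (s₂ := Y2) (f := fun x : ℤ => x)
  have h2 := card_union_add_card_inter Y1 Y2
  have h3 : ∑ x ∈ (Y1 ∪ Y2) \ E, x + ∑ x ∈ E, x = ∑ x ∈ Y1 ∪ Y2, x := sum_sdiff hsub
  have h4 : ((Y1 ∪ Y2) \ E).card + E.card = (Y1 ∪ Y2).card := by
    rw [card_sdiff_add_card_eq_card hsub]
  have h5 : (((Y1 ∪ Y2) \ E).card : ℤ) ≤ ∑ x ∈ (Y1 ∪ Y2) \ E, x := by
    have := card_nsmul_le_sum ((Y1 ∪ Y2) \ E) (fun x : ℤ => x) 1 (by
      intro x hx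
      have hx' := (mem_sdiff.1 hx).1
      rcases mem_union.1 hx' with h | h
      · exact pos1 x h
      · exact pos2 x h)
    simpa using this
  have h6 : ((Y1 ∩ Y2).card : ℤ) ≤ ∑ x ∈ Y1 ∩ Y2, x := by
    have := card_nsmul_le_sum (Y1 ∩ Y2) (fun x : ℤ => x) 1 (by
      intro x hx
      exact pos1 x (mem_inter.1 hx).1)
    simpa using this
  have h7 : (E.card : ℤ) = 2 * (PO.card : ℤ) - 2 := by omega
  have h8 : (RO.card : ℤ) = PO.card := by omega
  rw [h7] at c5
  rw [h8] at s2
  have h9 : ((Y1 ∪ Y2) \ E).card + (Y1 ∩ Y2).card = 1 := by omega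
  have h10 : (((Y1 ∪ Y2) \ E).card : ℤ) + ((Y1 ∩ Y2).card : ℤ) = 1 := by exact_mod_cast h9
  have h11 : ∑ x ∈ Y1, x + ∑ x ∈ Y2, x = ((PO.card : ℤ) - 1) * d := by
    rw [s1, s2, c4]
    ring
  have h12 : ∑ x ∈ E, x = ((PO.card : ℤ) - 1) * d := by linarith
  linarith

/-- The mirror property: `P = R`, and `P ∖ {0, τ}` is symmetric about `(d − t)/2`. -/
theorem mirror (H : Sym d A P R) (todd : Odd t) (tp : 0 < t)
    (ob : ∀ a ∈ A, Odd a → t ≤ a ∧ a ≤ d - t) (hS : CaseS d t A P R) (tA : t ∈ A)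
    {τ : ℤ} (hτ : τ = d - t ∨ (τ = t ∧ 2 * t ∉ A)) (τP : τ ∈ P) (τR : τ ∈ R) :
    P = R ∧ ∀ x ∈ P, x ≠ 0 → x ≠ τ → d - t - x ∈ P ∧ d - t - x ≠ 0 ∧ d - t - x ≠ τ := by
  have hd := H.hd
  have hS' := hS
  obtain ⟨hev, hod, hexc⟩ := hS'
  have τo : Odd τ := by
    rcases hτ with rfl | ⟨rfl, -⟩
    · exact hd.sub_odd todd
    · exact todd
  have odt : Odd (d - t) := hd.sub_odd todd
  have excl : ∀ x ∈ P, Even x → d - 2 * t - x ∉ P := by
    intro x hx he
    have h1 := hexc (x + t) (he.add_odd todd) (by rw [add_sub_cancel_right]; exact hx)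
    have e : d - t - (x + t) = d - 2 * t - x := by ring
    rw [e] at h1
    exact h1
  have ex0 : d - 2 * t ∉ P := by
    have := excl 0 H.P0 (by simp)
    rwa [sub_zero] at this
  -- symmetric statements for a pair (P', R')
  -- exactness
  have exact1 : ∀ {P R : Finset ℤ}, Sym d A P R → CaseS d t A P R → τ ∈ P → τ ∈ R →
      (∀ a, ((a - t ∈ P ∧ Odd (a - t) ∧ a - t ≠ τ) ∨
        (d - t - a ∈ R ∧ Odd (d - t - a) ∧ d - t - a ≠ τ)) ↔
        (a ∈ A ∧ Even a ∧ a ≠ 0 ∧ a ≠ d)) ∧
      (∀ a, (a - t ∈ P ∧ Odd (a - t) ∧ a - t ≠ τ) →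
        ¬ (d - t - a ∈ R ∧ Odd (d - t - a) ∧ d - t - a ≠ τ)) := by
    intro P R H hS τP τR
    obtain ⟨c1, c2, c3, c4, c5⟩ := countS H todd tp ob hS tA
    set E := A.filter (fun x => Even x ∧ x ≠ 0 ∧ x ≠ d) with hE
    set PO := P.filter (fun x => Odd x) with hPO
    set RO := R.filter (fun x => Odd x) with hRO
    have τPO : τ ∈ PO := mem_filter.2 ⟨τP, τo⟩
    have τRO : τ ∈ RO := mem_filter.2 ⟨τR, τo⟩
    have hsub : E ⊆ (PO.erase τ).image (fun x => x + t) ∪
        (RO.erase τ).image (fun x => (d - t) - x) := by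
      intro a ha
      obtain ⟨h1, h2, h3, h4⟩ := mem_filter.1 ha
      rcases rowt H todd tp ob tA a h1 h2 h3 h4 with h5 | h5
      · apply mem_union_left
        refine mem_image.2 ⟨a - t, mem_erase.2 ⟨?_, mem_filter.2 ⟨h5, h2.sub_odd todd⟩⟩, by ring⟩
        rcases hτ with rfl | ⟨rfl, h2t⟩
        · intro h6
          apply h4
          linarith
        · intro h6
          apply h2t
          have : 2 * τ = a := by linarith
          rw [this]
          exact h1
      · apply mem_union_right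
        refine mem_image.2 ⟨d - t - a, mem_erase.2 ⟨?_, mem_filter.2 ⟨h5, odt.sub_even h2⟩⟩,
          by ring⟩
        rcases hτ with rfl | ⟨rfl, h2t⟩
        · intro h6
          apply h3
          linarith
        · intro h6
          apply h2t
          have h7 := H.symmA a h1
          have : 2 * τ = d - a := by linarith
          rw [this]
          exact h7
    have k1 := card_erase_add_one τPO
    have k2 := card_erase_add_one τRO
    have hc : ((PO.erase τ).image (fun x => x + t)).card +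
        ((RO.erase τ).image (fun x => (d - t) - x)).card ≤ E.card := by
      rw [card_image_of_injective _ (inj_add_right t),
        card_image_of_injective _ (inj_sub_left (d - t))]
      omega
    obtain ⟨e1, e2⟩ := eq_union_of_card hsub hc
    have m1 : ∀ a, a ∈ (PO.erase τ).image (fun x => x + t) ↔
        (a - t ∈ P ∧ Odd (a - t) ∧ a - t ≠ τ) := by
      intro a
      rw [mem_image]
      constructor
      · rintro ⟨x, hx, rfl⟩
        have h1 := mem_erase.1 hx
        have h2 := mem_filter.1 h1.2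
        simp only [add_sub_cancel_right]
        exact ⟨h2.1, h2.2, h1.1⟩
      · rintro ⟨h1, h2, h3⟩
        exact ⟨a - t, mem_erase.2 ⟨h3, mem_filter.2 ⟨h1, h2⟩⟩, by ring⟩
    have m2 : ∀ a, a ∈ (RO.erase τ).image (fun x => (d - t) - x) ↔
        (d - t - a ∈ R ∧ Odd (d - t - a) ∧ d - t - a ≠ τ) := by
      intro a
      rw [mem_image]
      constructor
      · rintro ⟨x, hx, rfl⟩
        have h1 := mem_erase.1 hx
        have h2 := mem_filter.1 h1.2
        simp only [sub_sub_cancel]
        exact ⟨h2.1, h2.2, h1.1⟩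
      · rintro ⟨h1, h2, h3⟩
        exact ⟨d - t - a, mem_erase.2 ⟨h3, mem_filter.2 ⟨h1, h2⟩⟩, by ring⟩
    constructor
    · intro a
      rw [← m1, ← m2, ← mem_union, ← e1, hE, mem_filter]
    · intro a h1 h2
      rw [← m1] at h1
      rw [← m2] at h2
      exact disjoint_left.1 e2 h1 h2
  obtain ⟨X1, X1'⟩ := exact1 H hS τP τR
  have hSs := CaseS.swap H hS todd
  obtain ⟨X2, X2'⟩ := exact1 H.swap hSs τR τP
  -- odd parts agree
  have half : ∀ {P R : Finset ℤ}, Sym d A P R → τ ∈ P → τ ∈ R →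
      (∀ a, ((a - t ∈ P ∧ Odd (a - t) ∧ a - t ≠ τ) ∨
        (d - t - a ∈ R ∧ Odd (d - t - a) ∧ d - t - a ≠ τ)) ↔
        (a ∈ A ∧ Even a ∧ a ≠ 0 ∧ a ≠ d)) →
      (∀ a, (a - t ∈ P ∧ Odd (a - t) ∧ a - t ≠ τ) →
        ¬ (d - t - a ∈ R ∧ Odd (d - t - a) ∧ d - t - a ≠ τ)) →
      (∀ a, ((a - t ∈ R ∧ Odd (a - t) ∧ a - t ≠ τ) ∨
        (d - t - a ∈ P ∧ Odd (d - t - a) ∧ d - t - a ≠ τ)) ↔
        (a ∈ A ∧ Even a ∧ a ≠ 0 ∧ a ≠ d)) →
      ∀ x, (x ∈ P ∧ Odd x ∧ x ≠ τ) → (x ∈ R ∧ Odd x ∧ x ≠ τ) := by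
    intro P R H τP τR X1 X1' X2
    apply shift_lemma (X := fun x => x ∈ P ∧ Odd x ∧ x ≠ τ)
      (Y := fun x => d - x ∈ R ∧ Odd (d - x) ∧ d - x ≠ τ)
      (X' := fun x => x ∈ R ∧ Odd x ∧ x ≠ τ)
      (Y' := fun x => d - x ∈ P ∧ Odd (d - x) ∧ d - x ≠ τ) (D := d) tp
    · intro x hx
      exact (H.hA x (H.PA x hx.1)).2
    · intro x hx hn
      have h1 := (X1 (x + t)).1 (Or.inl (by rw [add_sub_cancel_right]; exact hx))
      have h2 := (X2 (x + t)).2 h1
      rw [add_sub_cancel_right] at h2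
      have h3 := h2.resolve_left hn
      have e : d - t - (x + t) = d - (x + 2 * t) := by ring
      rw [e] at h3
      exact h3
    · intro x hx
      have h1 : x ∈ A := (H.A2 x).2 (Or.inr hx.1)
      have ho : Odd x := by
        have := hd.sub_odd hx.2.1
        rwa [sub_sub_cancel] at this
      rcases (H.A1 x).1 h1 with h2 | h2
      · left
        refine ⟨h2, ho, ?_⟩
        rintro rfl
        exact H.A2' _ τR hx.1
      · right
        exact ⟨h2, hx.2⟩
    · intro x hx hy
      have h1 := X1' (x + t) (by rw [add_sub_cancel_right]; exact hx)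
      have e : d - t - (x + t) = d - (x + 2 * t) := by ring
      rw [e] at h1
      exact h1 hy
    · intro x hx hy
      exact H.A2' x hx.1 hy.1
  have hPR1 := half H τP τR X1 X1' X2
  have hPR2 := half H.swap τR τP X2 X2' X1
  have hPR : P = R := by
    ext x
    rcases Int.even_or_odd x with he | ho
    · exact hev x he
    · by_cases h1 : x = τ
      · subst h1
        exact ⟨fun _ => τR, fun _ => τP⟩
      · exact ⟨fun h => (hPR1 x ⟨h, ho, h1⟩).1, fun h => (hPR2 x ⟨h, ho, h1⟩).1⟩
  subst hPR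
  refine ⟨rfl, ?_⟩
  have evp : ∀ x, (x ∈ P ∧ Even x ∧ x ≠ 0) → (d - t - x ∈ P ∧ Odd (d - t - x) ∧ d - t - x ≠ τ) := by
    apply shift_lemma (X := fun x => x ∈ P ∧ Even x ∧ x ≠ 0)
      (Y := fun x => d - x ∈ P ∧ Even (d - x) ∧ d - x ≠ 0)
      (X' := fun x => d - t - x ∈ P ∧ Odd (d - t - x) ∧ d - t - x ≠ τ)
      (Y' := fun x => x - t ∈ P ∧ Odd (x - t) ∧ x - t ≠ τ) (D := d) tp
    · intro x hx
      exact (H.hA x (H.PA x hx.1)).2
    · intro x hx hn
      obtain ⟨h1, h2, h3⟩ := hx
      have ho : Odd (x + t) := h2.add_odd todd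
      have h4 : x + t ∈ A := (hod _ ho).2 (Or.inl (by rw [add_sub_cancel_right]; exact h1))
      have e : x + 2 * t - t = x + t := by ring
      rw [e]
      rcases (H.A1 _).1 h4 with h5 | h5
      · refine ⟨h5, ho, ?_⟩
        intro h6
        rcases hτ with h7 | ⟨h7, -⟩
        · apply ex0
          have e2 : d - 2 * t = x := by linarith
          rw [e2]
          exact h1
        · apply h3
          linarith
      · exfalso
        apply hn
        have e2 : d - (x + t) = d - t - x := by ring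
        rw [e2] at h5
        refine ⟨h5, odt.sub_even h2, ?_⟩
        intro h6
        rcases hτ with h7 | ⟨h7, -⟩
        · apply h3
          linarith
        · apply ex0
          have e3 : d - 2 * t = x := by linarith
          rw [e3]
          exact h1
    · intro x hx
      have h1 := (X1 x).1 (Or.inl hx)
      obtain ⟨h2, h3, h4, h5⟩ := h1
      rcases (H.A1 x).1 h2 with h6 | h6
      · left
        exact ⟨h6, h3, h4⟩
      · right
        refine ⟨h6, hd.sub h3, ?_⟩
        intro h7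
        apply h5
        linarith
    · intro x hx hy
      have h1 := excl x hx.1 hx.2.1
      have e : d - (x + 2 * t) = d - 2 * t - x := by ring
      rw [e] at hy
      exact h1 hy.1
    · intro x hx hy
      exact X1' x hy hx
  intro x hx h0 h1
  rcases Int.even_or_odd x with he | ho
  · obtain ⟨h2, h3, h4⟩ := evp x ⟨hx, he, h0⟩
    refine ⟨h2, ?_, h4⟩
    intro h5
    rw [h5] at h3
    simp at h3
  · have h2 := (X1 (x + t)).1 (Or.inl (by rw [add_sub_cancel_right]; exact ⟨hx, ho, h1⟩))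
    obtain ⟨h3, h4, h5, h6⟩ := h2
    have key : d - (x + t) ∈ P := by
      rcases (H.A1 _).1 h3 with h7 | h7
      · exfalso
        have h8 := evp _ ⟨h7, h4, h5⟩
        exact X1' (x + t) (by rw [add_sub_cancel_right]; exact ⟨hx, ho, h1⟩) h8
      · exact h7
    have e : d - (x + t) = d - t - x := by ring
    rw [e] at key
    refine ⟨key, ?_, ?_⟩
    · intro h7
      apply h6
      linarith
    · intro h7
      have h8 : Even (d - t - x) := odt.sub_odd ho
      rw [h7] at h8
      exact (Int.not_even_iff_odd.2 τo) h8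

end

end Pool.Agent.U411.Queens
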