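import Pool.Agent.U411.Queens.ClassSb

set_option autoImplicit false

namespace Pool.Agent.U411.Queens

open Finset

theorem shape_of_closed {d : ℤ} {P : Finset ℤ} {μ : ℤ} (hμ : 0 < μ) (h0 : (0 : ℤ) ∈ P)
    (hμP : μ ∈ P) (hnn : ∀ x ∈ P, 0 ≤ x) (hcl : ∀ x ∈ P, x ≠ 0 → x - μ ∈ P) : Shape d P := by
  obtain ⟨n, hn, h⟩ := ap_of_closed hμ h0 hnn hcl
  left
  have hn2 : 2 ≤ n := by
    obtain ⟨j, hj, e⟩ := (h μ).1 hμP
    by_contra hlt
    have : j = 0 := by omega
    subst this
    simp at e
    linarith
  refine ⟨μ, n - 1, hμ, by omega, ?_⟩
  have e : n - 1 + 1 = n := by omega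
  rw [e]
  ext x
  rw [h x, mem_AP]
  simp only [zero_add]

section
variable {d t : ℤ} {A P : Finset ℤ}

/-- Case S with `d − t ∈ P`. -/
theorem classSI (H : Sym d A P P) (todd : Odd t) (tp : 0 < t)
    (ob : ∀ a ∈ A, Odd a → t ≤ a ∧ a ≤ d - t) (dtP : d - t ∈ P)
    (mir : ∀ x ∈ P, d - t - x ∈ P) : Shape d P := by
  have hd := H.hd
  have odt : Odd (d - t) := hd.sub_odd todd
  have nosh : ∀ x ∈ P, x + t ∉ P := by
    intro x hx h
    have h1 := H.A2' _ (mir x hx)
    have e : d - (d - t - x) = x + t := by ring
    rw [e] at h1
    exact h1 h
  have nosh' : ∀ x ∈ P, x - t ∉ P := by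
    intro x hx h
    have h1 := nosh _ h
    rw [sub_add_cancel] at h1
    exact h1 hx
  have nn : ∀ x ∈ P, 0 ≤ x := fun x hx => (H.hA x (H.PA x hx)).1
  have bnd : ∀ x ∈ P, x ≤ d - t := by
    intro x hx
    have := nn _ (mir x hx)
    linarith
  have hne : (P.erase 0).Nonempty := by
    refine ⟨d - t, mem_erase.2 ⟨?_, dtP⟩⟩
    intro h
    rw [h] at odt
    simp at odt
  obtain ⟨μ, hμ1, hμ2⟩ : ∃ μ, μ ∈ P.erase 0 ∧ ∀ x ∈ P.erase 0, μ ≤ x :=
    ⟨_, min'_mem _ hne, fun x hx => min'_le _ _ hx⟩
  obtain ⟨hμ0, hμP⟩ := mem_erase.1 hμ1
  have μpos : 0 < μ := lt_of_le_of_ne (nn μ hμP) (Ne.symm hμ0)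
  have μmin : ∀ x ∈ P, x ≠ 0 → μ ≤ x := fun x hx h => hμ2 x (mem_erase.2 ⟨h, hx⟩)
  have star : ∀ x ∈ P, x ≠ 0 → x - μ ∈ P ∨ x + μ - t ∈ P := by
    intro x hx h0
    rcases H.cov μ (H.PA _ hμP) x (H.PA _ hx) with h1 | h1
    · left
      rwa [abs_of_nonneg (by linarith [μmin x hx h0])] at h1
    · rcases le_or_gt (μ + x) d with h2 | h2
      · right
        rw [abs_of_nonpos (by linarith)] at h1
        have h3 := mir _ h1
        have e : d - t - -(μ + x - d) = x + μ - t := by ring
        rwa [e] at h3
      · exfalso
        rw [abs_of_nonneg (by linarith)] at h1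
        have h3 := μmin _ h1 (by linarith)
        have h4 := bnd x hx
        linarith
  have μt : μ ≠ t := by
    rintro rfl
    have := nosh 0 H.P0
    rw [zero_add] at this
    exact this hμP
  rcases lt_or_gt_of_ne μt with hlt | hgt
  · exfalso
    have μe : Even μ := by
      rcases Int.even_or_odd μ with h | h
      · exact h
      · have := (ob μ (H.PA _ hμP) h).1
        omega
    have hne2 : (P.filter (fun x => Odd x)).Nonempty := ⟨d - t, mem_filter.2 ⟨dtP, odt⟩⟩
    obtain ⟨x, hx1, hx2⟩ : ∃ x, x ∈ P.filter (fun x => Odd x) ∧
        ∀ y ∈ P.filter (fun x => Odd x), x ≤ y :=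
      ⟨_, min'_mem _ hne2, fun x hx => min'_le _ _ hx⟩
    obtain ⟨xP, xo⟩ := mem_filter.1 hx1
    have xt := (ob x (H.PA _ xP) xo).1
    rcases star x xP (by linarith) with h | h
    · have h1 := hx2 _ (mem_filter.2 ⟨h, xo.sub_even μe⟩)
      linarith
    · have h2 : x + μ - t ≠ 0 := by linarith
      rcases star _ h h2 with h3 | h3
      · have e : x + μ - t - μ = x - t := by ring
        rw [e] at h3
        exact nosh' x xP h3
      · have ho : Odd (x + μ - t + μ - t) :=
          (((xo.add_even μe).sub_odd todd).add μe).sub_odd todd
        have h1 := hx2 _ (mem_filter.2 ⟨h3, ho⟩)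
        linarith
  · have clo : ∀ n : ℕ, ∀ x ∈ P, x ≠ 0 → d - x ≤ n → x - μ ∈ P := by
      intro n
      induction n with
      | zero =>
        intro x hx h0 h1
        have := bnd x hx
        push_cast at h1
        linarith
      | succ n ih =>
        intro x hx h0 h1
        by_contra hcon
        have h2 := (star x hx h0).resolve_left hcon
        have h3 := ih _ h2 (by
          have := nn x hx
          intro h
          linarith) (by push_cast at h1; linarith)
        have e : x + μ - t - μ = x - t := by ring
        rw [e] at h3
        exact nosh' x hx h3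
    apply shape_of_closed μpos H.P0 hμP nn
    intro x hx h0
    apply clo (d - x).toNat x hx h0
    rw [Int.toNat_of_nonneg (by linarith [bnd x hx])]

/-- Case S with `t ∈ P` and `2t ∉ A`. -/
theorem classSII (H : Sym d A P P) (todd : Odd t) (tp : 0 < t)
    (ob : ∀ a ∈ A, Odd a → t ≤ a ∧ a ≤ d - t) (tP : t ∈ P) (A2t : 2 * t ∉ A)
    (mir : ∀ x ∈ P, x ≠ 0 → x ≠ t → d - t - x ∈ P ∧ d - t - x ≠ 0 ∧ d - t - x ≠ t) :
    Shape d P := by
  classical
  have hd := H.hd
  have odt : Odd (d - t) := hd.sub_odd todd
  have nn : ∀ x ∈ P, 0 ≤ x := fun x hx => (H.hA x (H.PA x hx)).1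
  set W := (P.erase 0).erase t with hW
  have mW : ∀ x, x ∈ W ↔ x ∈ P ∧ x ≠ 0 ∧ x ≠ t := by
    intro x
    rw [hW, mem_erase, mem_erase]
    tauto
  have mirW : ∀ x ∈ W, d - t - x ∈ W := by
    intro x hx
    obtain ⟨h1, h2, h3⟩ := (mW x).1 hx
    exact (mW _).2 (mir x h1 h2 h3)
  have nosh : ∀ x ∈ W, x + t ∉ P := by
    intro x hx h
    have h1 := H.A2' _ ((mW _).1 (mirW x hx)).1
    have e : d - (d - t - x) = x + t := by ring
    rw [e] at h1
    exact h1 h
  have nosh' : ∀ x ∈ W, x - t ∉ W := by
    intro x hx h
    have h1 := nosh _ h
    rw [sub_add_cancel] at h1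
    exact h1 ((mW x).1 hx).1
  have hPW : P = insert 0 (insert t W) := by
    ext x
    rw [mem_insert, mem_insert, mW]
    constructor
    · intro hx
      by_cases h0 : x = 0
      · exact Or.inl h0
      · by_cases h1 : x = t
        · exact Or.inr (Or.inl h1)
        · exact Or.inr (Or.inr ⟨hx, h0, h1⟩)
    · rintro (rfl | rfl | h)
      · exact H.P0
      · exact tP
      · exact h.1
  rcases W.eq_empty_or_nonempty with hWe | hWn
  · -- P = {0, t}
    apply shape_of_closed tp H.P0 tP nn
    intro x hx h0
    rw [hPW, hWe] at hx
    simp only [mem_insert, notMem_empty, or_false] at hx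
    rcases hx with h | h
    · exact (h0 h).elim
    · rw [h, sub_self]
      exact H.P0
  · obtain ⟨μ, hμW, hμmin⟩ : ∃ μ, μ ∈ W ∧ ∀ x ∈ W, μ ≤ x :=
      ⟨_, min'_mem _ hWn, fun x hx => min'_le _ _ hx⟩
    set M := d - t - μ with hM
    have MW : M ∈ W := mirW μ hμW
    have Mmax : ∀ x ∈ W, x ≤ M := by
      intro x hx
      have := hμmin _ (mirW x hx)
      linarith
    have μP : μ ∈ P := ((mW μ).1 hμW).1
    have μ0 : μ ≠ 0 := ((mW μ).1 hμW).2.1
    have μt : μ ≠ t := ((mW μ).1 hμW).2.2
    have μpos : 0 < μ := lt_of_le_of_ne (nn μ μP) (Ne.symm μ0)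
    have star : ∀ x ∈ W, x ≠ μ → x ≠ M → x - μ ∈ W ∨ x + μ - t ∈ W := by
      intro x hx h1 h2
      have xP := ((mW x).1 hx).1
      have hlo := hμmin x hx
      have hhi := Mmax x hx
      have hlt : μ < x := lt_of_le_of_ne hlo (Ne.symm h1)
      have hlt2 : x < M := lt_of_le_of_ne hhi h2
      rcases H.cov μ (H.PA _ μP) x (H.PA _ xP) with h3 | h3
      · left
        rw [abs_of_nonneg (by linarith)] at h3
        refine (mW _).2 ⟨h3, by linarith, ?_⟩
        intro h4
        have h5 : μ + t = x := by linarith
        have h6 := nosh μ hμW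
        rw [h5] at h6
        exact h6 xP
      · right
        rw [abs_of_nonpos (by linarith)] at h3
        have h4 : -(μ + x - d) ∈ W := (mW _).2 ⟨h3, by linarith, by linarith⟩
        have h5 := mirW _ h4
        have e : d - t - -(μ + x - d) = x + μ - t := by ring
        rwa [e] at h5
    have two : (∀ x ∈ W, x = μ ∨ x = M) → Shape d P := by
      intro hall
      have hne : μ ≠ M := by
        intro h
        have h1 : d - t = μ + μ := by linarith
        rw [h1] at odt
        exact (Int.not_even_iff_odd.2 odt) ⟨μ, rfl⟩
      have hWe : W = {μ, M} := by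
        ext x
        rw [mem_insert, mem_singleton]
        constructor
        · exact hall x
        · rintro (rfl | rfl)
          · exact hμW
          · exact MW
      have M0 : M ≠ 0 := ((mW M).1 MW).2.1
      have Mt : M ≠ t := ((mW M).1 MW).2.2
      right; right
      rw [hPW, hWe]
      constructor
      · rw [card_insert_of_notMem, card_insert_of_notMem, card_insert_of_notMem, card_singleton]
        · simpa using hne
        · simp only [mem_insert, mem_singleton, not_or]
          exact ⟨Ne.symm μt, Ne.symm Mt⟩
        · simp only [mem_insert, mem_singleton, not_or]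
          exact ⟨tp.ne, Ne.symm μ0, Ne.symm M0⟩
      · rw [sum_insert, sum_insert, sum_insert, sum_singleton]
        · rw [hM]; ring
        · simpa using hne
        · simp only [mem_insert, mem_singleton, not_or]
          exact ⟨Ne.symm μt, Ne.symm Mt⟩
        · simp only [mem_insert, mem_singleton, not_or]
          exact ⟨tp.ne, Ne.symm μ0, Ne.symm M0⟩
    rcases lt_or_gt_of_ne μt with hlt | hgt
    · -- μ < t
      have μe : Even μ := by
        rcases Int.even_or_odd μ with h | h
        · exact h
        · have := (ob μ (H.PA _ μP) h).1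
          omega
      have Mo : Odd M := odt.sub_even μe
      have hne2 : (W.filter (fun x => Odd x)).Nonempty := ⟨M, mem_filter.2 ⟨MW, Mo⟩⟩
      obtain ⟨x, hx1, hx2⟩ : ∃ x, x ∈ W.filter (fun x => Odd x) ∧
          ∀ y ∈ W.filter (fun x => Odd x), x ≤ y :=
        ⟨_, min'_mem _ hne2, fun x hx => min'_le _ _ hx⟩
      obtain ⟨xW, xo⟩ := mem_filter.1 hx1
      have xM : x = M := by
        by_contra hxM
        have xμ : x ≠ μ := by
          rintro rfl
          exact (Int.not_even_iff_odd.2 xo) μe
        rcases star x xW xμ hxM with h | h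
        · have h1 := hx2 _ (mem_filter.2 ⟨h, xo.sub_even μe⟩)
          linarith
        · have h2 : x + μ - t ≠ μ := by
            intro h3
            have h4 : x = t := by linarith
            exact ((mW x).1 xW).2.2 h4
          have h3 : x + μ - t ≠ M := by
            have := Mmax x xW
            intro h4
            linarith
          rcases star _ h h2 h3 with h4 | h4
          · have e : x + μ - t - μ = x - t := by ring
            rw [e] at h4
            exact nosh' x xW h4
          · have ho : Odd (x + μ - t + μ - t) :=
              (((xo.add_even μe).sub_odd todd).add μe).sub_odd todd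
            have h1 := hx2 _ (mem_filter.2 ⟨h4, ho⟩)
            linarith
      apply two
      intro y hy
      have oddM : ∀ z ∈ W, Odd z → z = M := by
        intro z hz ho
        have h1 := hx2 z (mem_filter.2 ⟨hz, ho⟩)
        have h2 := Mmax z hz
        rw [xM] at h1
        linarith
      rcases Int.even_or_odd y with he | ho
      · left
        have h1 := oddM _ (mirW y hy) (odt.sub_even he)
        linarith
      · right
        exact oddM y hy ho
    · -- t < μ
      by_cases hup : ∃ w ∈ W, w ≠ μ ∧ w ≠ M ∧ w + μ - t ∈ W
      · exfalso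
        obtain ⟨w, hw, w1, w2, w3⟩ := hup
        set ν := μ - t with hν
        have νpos : 0 < ν := by linarith
        have U : ∀ n : ℕ, ∀ x ∈ W, x + ν ∈ W → M - x ≤ n →
            ∃ k : ℕ, 1 ≤ k ∧ x + k * ν = M ∧ ∀ i : ℕ, i ≤ k → x + i * ν ∈ W := by
          intro n
          induction n with
          | zero =>
            intro x hx h1 h2
            have := Mmax _ h1
            push_cast at h2
            linarith
          | succ n ih =>
            intro x hx h1 h2
            by_cases h3 : x + ν = M
            · refine ⟨1, le_refl _, by push_cast; linarith, ?_⟩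
              intro i hi
              have : i = 0 ∨ i = 1 := by omega
              rcases this with rfl | rfl
              · simpa using hx
              · simpa using h1
            · have h4 : x + ν + μ - t ∈ W := by
                rcases star _ h1 (by linarith [hμmin x hx]) h3 with h5 | h5
                · exfalso
                  have e : x + ν - μ = x - t := by rw [hν]; ring
                  rw [e] at h5
                  exact nosh' x hx h5
                · exact h5
              have e : x + ν + μ - t = x + ν + ν := by rw [hν]; ring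
              rw [e] at h4
              obtain ⟨k, k1, k2, k3⟩ := ih (x + ν) h1 h4 (by push_cast at h2; linarith)
              refine ⟨k + 1, by omega, by push_cast; linarith, ?_⟩
              intro i hi
              rcases Nat.eq_zero_or_pos i with rfl | hi0
              · simpa using hx
              · have h5 := k3 (i - 1) (by omega)
                rw [Nat.cast_sub hi0] at h5
                have e : x + ν + ((i : ℤ) - (1 : ℕ)) * ν = x + i * ν := by push_cast; ring
                rw [e] at h5
                exact h5
        have U' : ∀ x ∈ W, x + ν ∈ W →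
            ∃ k : ℕ, 1 ≤ k ∧ x + k * ν = M ∧ ∀ i : ℕ, i ≤ k → x + i * ν ∈ W := by
          intro x hx h1
          apply U (M - x).toNat x hx h1
          rw [Int.toNat_of_nonneg (by linarith [Mmax x hx])]
        have w3' : w + ν ∈ W := by
          have e : w + μ - t = w + ν := by rw [hν]; ring
          rwa [e] at w3
        obtain ⟨k1, k1a, k1b, k1c⟩ := U' w hw w3'
        have h1 : M - ν ∈ W := by
          have h2 := k1c (k1 - 1) (by omega)
          rw [Nat.cast_sub k1a] at h2
          have e : w + ((k1 : ℤ) - (1 : ℕ)) * ν = M - ν := by push_cast; linarith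
          rwa [e] at h2
        have h2 : μ + ν ∈ W := by
          have h3 := mirW _ h1
          have e : d - t - (M - ν) = μ + ν := by rw [hM]; ring
          rwa [e] at h3
        obtain ⟨k0, k0a, k0b, k0c⟩ := U' μ hμW h2
        -- parities
        have hdt : d - t = μ + M := by linarith
        have sumo : Odd (μ + M) := hdt ▸ odt
        have hk0ν : Odd ((k0 : ℤ) * ν) := by
          have e : (k0 : ℤ) * ν = μ + M - (μ + μ) := by linarith
          rw [e]
          exact sumo.sub_even ⟨μ, rfl⟩
        obtain ⟨hk0, hνo⟩ := Int.odd_mul.1 hk0ν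
        have hk02 : 1 < k0 := by
          by_contra hle
          have hk01 : k0 = 1 := by omega
          rw [hk01] at k0b
          push_cast at k0b
          have h4 := Mmax _ w3'
          have h5 := hμmin w hw
          have h6 : μ < w := lt_of_le_of_ne h5 (Ne.symm w1)
          linarith
        obtain ⟨j, hj⟩ : ∃ j : ℕ, k0 = 2 * j + 1 := by
          have h3 : Odd k0 := by exact_mod_cast hk0
          obtain ⟨j, hj⟩ := h3
          exact ⟨j, hj⟩
        have hj1 : 1 ≤ j := by omega
        have x1 := k0c (j + 1) (by omega)
        have x2 := k0c (j + 2) (by omega)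
        have hνP : ν ∉ P := by
          intro h3
          have h4 : ν ∈ W := by
            refine (mW ν).2 ⟨h3, by linarith, ?_⟩
            intro h5
            apply A2t
            have : 2 * t = μ := by linarith
            rw [this]
            exact H.PA _ μP
          have := hμmin ν h4
          linarith
        have h2ν : |2 * ν - t| ∈ P := by
          rcases H.cov _ (H.PA _ ((mW _).1 x1).1) _ (H.PA _ ((mW _).1 x2).1) with h3 | h3
          · exfalso
            have e : μ + ((j + 2 : ℕ) : ℤ) * ν - (μ + ((j + 1 : ℕ) : ℤ) * ν) = ν := by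
              push_cast; ring
            rw [e, abs_of_pos νpos] at h3
            exact hνP h3
          · have hk : (k0 : ℤ) = 2 * j + 1 := by rw [hj]; push_cast; ring
            have hd' : d = t + 2 * μ + k0 * ν := by linarith
            have e : μ + ((j + 1 : ℕ) : ℤ) * ν + (μ + ((j + 2 : ℕ) : ℤ) * ν) - d =
                2 * ν - t := by
              rw [hd', hk]
              push_cast
              ring
            rw [e] at h3
            exact h3
        have ho : Odd (2 * ν - t) := (even_two_mul ν).sub_odd todd
        have hbig : t ≤ 2 * ν - t ∧ 2 * ν - t ∈ P := by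
          rcases le_or_gt 0 (2 * ν - t) with h3 | h3
          · rw [abs_of_nonneg h3] at h2ν
            exact ⟨(ob _ (H.PA _ h2ν) ho).1, h2ν⟩
          · exfalso
            rw [abs_of_neg h3] at h2ν
            have := (ob _ (H.PA _ h2ν) ho.neg).1
            linarith
        obtain ⟨hb1, hb2⟩ := hbig
        have hxW : 2 * ν - t ∈ W := by
          refine (mW _).2 ⟨hb2, ?_, ?_⟩
          · intro h
            rw [h] at ho
            simp at ho
          · intro h
            apply A2t
            have : 2 * t = μ := by linarith
            rw [this]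
            exact H.PA _ μP
        have h3 := hμmin _ hxW
        have hν2 : 2 * t ≤ ν := by linarith
        have hν3 : ν ≠ 2 * t := by
          intro h
          rw [h] at hνo
          exact (Int.not_even_iff_odd.2 hνo) (even_two_mul t)
        have hν4 : 2 * t < ν := lt_of_le_of_ne hν2 (Ne.symm hν3)
        by_cases hxM : 2 * ν - t = M
        · have h5 : μ + k0 * ν = 2 * ν - t := by linarith
          have h6 : (k0 : ℤ) ≥ 2 := by omega
          nlinarith
        · have hxμ : 2 * ν - t ≠ μ := by
            intro h
            apply hν3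
            linarith
          rcases star _ hxW hxμ hxM with h5 | h5
          · have := hμmin _ h5
            linarith
          · have e : 2 * ν - t + μ - t = 2 * ν - t + ν := by rw [hν]; ring
            rw [e] at h5
            obtain ⟨k, ka, kb, kc⟩ := U' _ hxW h5
            -- 2ν − t + kν = μ + k0 ν = t + ν + k0 ν
            have h6 : ((k : ℤ) + 1 - k0) * ν = 2 * t := by linarith
            have h7 : 0 < (k : ℤ) + 1 - k0 := by
              by_contra hle
              have : ((k : ℤ) + 1 - k0) * ν ≤ 0 :=
                mul_nonpos_of_nonpos_of_nonneg (by linarith) νpos.le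
              linarith
            have h8 : ν ≤ ((k : ℤ) + 1 - k0) * ν := by nlinarith
            linarith
      · push Not at hup
        have down : ∀ w ∈ W, w ≠ μ → w ≠ M → w - μ ∈ W := by
          intro w hw h1 h2
          exact (star w hw h1 h2).resolve_right (hup w hw h1 h2)
        by_cases hall : ∀ x ∈ W, x = μ ∨ x = M
        · exact two hall
        · push Not at hall
          obtain ⟨w, hw, w1, w2⟩ := hall
          have hne : (W.erase M).Nonempty := ⟨w, mem_erase.2 ⟨w2, hw⟩⟩
          obtain ⟨x, hx1, hx2⟩ : ∃ x, x ∈ W.erase M ∧ ∀ y ∈ W.erase M, y ≤ x :=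
            ⟨_, max'_mem _ hne, fun x hx => le_max' _ _ hx⟩
          obtain ⟨xM, xW⟩ := mem_erase.1 hx1
          have xw := hx2 w (mem_erase.2 ⟨w2, hw⟩)
          have hμw : μ < w := lt_of_le_of_ne (hμmin w hw) (Ne.symm w1)
          have x'W := mirW x xW
          have h1 : d - t - x ≠ μ := by
            intro h
            apply xM
            linarith
          have h2 : d - t - x ≠ M := by
            intro h
            have : x = μ := by linarith
            linarith
          have h3 := mirW _ (down _ x'W h1 h2)
          have e : d - t - (d - t - x - μ) = x + μ := by ring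
          rw [e] at h3
          have h4 : x + μ = M := by
            by_contra hne2
            have := hx2 _ (mem_erase.2 ⟨hne2, h3⟩)
            linarith
          have down' : ∀ w ∈ W, w ≠ μ → w - μ ∈ W := by
            intro w hw h1
            by_cases h2 : w = M
            · rw [h2, ← h4, add_sub_cancel_right]
              exact xW
            · exact down w hw h1 h2
          obtain ⟨n, hn, hWn⟩ := ap_of_closed μpos hμW hμmin down'
          -- M = nμ
          have hn' : (0 : ℤ) < n := by exact_mod_cast hn
          have hMn : M = n * μ := by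
            obtain ⟨k, hk, e⟩ := (hWn M).1 MW
            have h5 : μ + ((n - 1 : ℕ) : ℤ) * μ ∈ W := (hWn _).2 ⟨n - 1, by omega, rfl⟩
            rw [Nat.cast_sub hn] at h5
            have h6 := Mmax _ h5
            have h7 : (k : ℤ) + 1 ≤ n := by omega
            push_cast at h6
            nlinarith
          have hdn : d - ((n : ℤ) + 1) * μ = t := by linarith
          right; left
          refine ⟨μ, n, μpos, hn, ?_, ?_⟩
          · rw [hdn, mem_AP]
            rintro ⟨j, hj, e⟩
            rcases Nat.eq_zero_or_pos j with rfl | hj0
            · simp at e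
              linarith
            · have h5 : t ∈ W := (hWn t).2 ⟨j - 1, by omega, by
                rw [Nat.cast_sub hj0]
                push_cast
                linarith⟩
              exact ((mW t).1 h5).2.2 rfl
          · rw [hdn]
            ext x
            rw [hPW, mem_insert, mem_insert, mem_insert, mem_AP, hWn]
            constructor
            · rintro (rfl | rfl | ⟨j, hj, rfl⟩)
              · right
                exact ⟨0, by omega, by simp⟩
              · left
                rfl
              · right
                exact ⟨j + 1, by omega, by push_cast; ring⟩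
            · rintro (rfl | ⟨j, hj, rfl⟩)
              · exact Or.inr (Or.inl rfl)
              · rcases Nat.eq_zero_or_pos j with rfl | hj0
                · left
                  simp
                · right; right
                  exact ⟨j - 1, by omega, by
                    rw [Nat.cast_sub hj0]
                    push_cast
                    ring⟩

end

/-- Classification in Case S. -/
theorem classS {d t : ℤ} {A P R : Finset ℤ} (H : Sym d A P R) (todd : Odd t) (tp : 0 < t)
    (ob : ∀ a ∈ A, Odd a → t ≤ a ∧ a ≤ d - t) (hS : CaseS d t A P R) :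
    P = R ∧ Shape d P := by
  have tA : t ∈ A := by
    apply (hS.2.1 t todd).2
    left
    rw [sub_self]
    exact H.P0
  by_cases tP : t ∈ P
  · by_cases tR : t ∈ R
    · by_cases A2t : 2 * t ∈ A
      · exact classSa H todd tp ob hS tP tR A2t
      · obtain ⟨rfl, mir⟩ := mirror H todd tp ob hS tA (τ := t) (Or.inr ⟨rfl, A2t⟩) tP tR
        exact ⟨rfl, classSII H todd tp ob tP A2t mir⟩
    · exact (sum_trick H todd tp ob hS tP tR).elim
  · by_cases tR : t ∈ R
    · exact (sum_trick H.swap todd tp ob (CaseS.swap H hS todd) tR tP).elim
    · have h1 : d - t ∈ R := ((H.A1 t).1 tA).resolve_left tP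
      have h2 : d - t ∈ P := ((H.A2 t).1 tA).resolve_left tR
      obtain ⟨rfl, mir⟩ := mirror H todd tp ob hS tA (τ := d - t) (Or.inl rfl) h2 h1
      refine ⟨rfl, classSI H todd tp ob h2 ?_⟩
      intro x hx
      by_cases h0 : x = 0
      · rw [h0, sub_zero]
        exact h2
      · by_cases h3 : x = d - t
        · rw [h3, sub_self]
          exact H.P0
        · exact (mir x hx h0 h3).1

end Pool.Agent.U411.Queens
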