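import Pool.Agent.U411.Queens.TwoAP

set_option autoImplicit false

namespace Pool.Agent.U411.Queens

open Finset

section
variable {d t : ℤ} {A P R : Finset ℤ}

theorem classT (H : Sym d A P R) (todd : Odd t) (tp : 0 < t)
    (ob : ∀ a ∈ A, Odd a → t ≤ a ∧ a ≤ d - t) (hT : CaseT d t A P R) :
    P = R ∧ Shape d P := by
  obtain ⟨tP, hodd, hev, hexc⟩ := hT
  have hd := H.hd
  have tR : t ∈ R := (hodd t todd).1 tP
  have tA : t ∈ A := H.PA t tP
  have dt : d - t ∉ P := H.A2' t tR
  have ne : 2 * t ≠ d := by
    intro h
    apply dt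
    have : d - t = t := by linarith
    rw [this]
    exact tP
  have A2t : 2 * t ∈ A := (hev (2 * t) (even_two_mul t) (by linarith) ne).2
    (Or.inl (by have : 2 * t - t = t := by ring
                rw [this]; exact tP))
  have excl : ∀ x ∈ P, Odd x → d - 2 * t - x ∉ P := by
    intro x hx ho
    have h1 := hexc (x + t) (ho.add_odd todd) (by rw [add_sub_cancel_right]; exact hx)
    have e : d - t - (x + t) = d - 2 * t - x := by ring
    rw [e] at h1
    exact h1
  have clo : ∀ x ∈ P, Odd x → x ≠ t → x - 2 * t ∈ P := by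
    intro x hx ho hne
    have h1 := ob x (H.PA x hx) ho
    have hxd : x ≠ d - t := fun h => dt (h ▸ hx)
    rcases H.cov (2 * t) A2t x (H.PA x hx) with h2 | h2
    · rcases le_or_gt (2 * t) x with h3 | h3
      · rw [abs_of_nonneg (by linarith)] at h2
        exact h2
      · exfalso
        rw [abs_of_nonpos (by linarith)] at h2
        have h4 := ob _ (H.PA _ h2) (by
          rw [neg_sub]
          exact (even_two_mul t).sub_odd ho)
        omega
    · exfalso
      have ho2 : Odd (2 * t + x - d) := ((even_two_mul t).add_odd ho).sub_even hd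
      rcases le_or_gt (2 * t + x) d with h3 | h3
      · rw [abs_of_nonpos (by linarith)] at h2
        have h4 := (hodd _ ho2.neg).2 h2
        have e : -(2 * t + x - d) = d - 2 * t - x := by ring
        rw [e] at h4
        exact excl x hx ho h4
      · rw [abs_of_nonneg (by linarith)] at h2
        have h4 := (hodd _ ho2).2 h2
        have h5 := ob _ (H.PA _ h4) ho2
        omega
  obtain ⟨L, hL, hS⟩ := ap_of_closed (S := P.filter (fun x => Odd x)) (b := t) (μ := 2 * t)
    (by linarith) (mem_filter.2 ⟨tP, todd⟩)
    (fun x hx => (ob x (H.PA x (mem_filter.1 hx).1) (mem_filter.1 hx).2).1)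
    (fun x hx hne => mem_filter.2 ⟨clo x (mem_filter.1 hx).1 (mem_filter.1 hx).2 hne,
      (mem_filter.1 hx).2.sub_even (even_two_mul t)⟩)
  have hP1 : ∀ x, Odd x → (x ∈ P ↔ ∃ j : ℕ, j < L ∧ x = t + j * (2 * t)) := by
    intro x hx
    rw [← hS x, mem_filter]
    tauto
  -- odd multiples
  have omul : ∀ i : ℕ, i < L → ((2 * i + 1 : ℕ) : ℤ) * t ∈ P := by
    intro i hi
    have ho : Odd (((2 * i + 1 : ℕ) : ℤ) * t) := by
      apply Odd.mul _ todd
      exact ⟨i, by push_cast; ring⟩
    exact (hP1 _ ho).2 ⟨i, hi, by push_cast; ring⟩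
  have omul' : ∀ j : ℕ, j ≤ 2 * L → j % 2 = 1 → (j : ℤ) * t ∈ P := by
    intro j hj hj2
    obtain ⟨i, hi⟩ : ∃ i, j = 2 * i + 1 := ⟨j / 2, by omega⟩
    rw [hi]
    exact omul i (by omega)
  have evmul : ∀ j : ℕ, j % 2 = 0 → Even ((j : ℤ) * t) := by
    intro j hj
    obtain ⟨i, hi⟩ : ∃ i, j = 2 * i := ⟨j / 2, by omega⟩
    rw [hi]
    exact ⟨i * t, by push_cast; ring⟩
  have oddmul : ∀ j : ℕ, j % 2 = 1 → Odd ((j : ℤ) * t) := by
    intro j hj
    apply Odd.mul _ todd
    obtain ⟨i, hi⟩ : ∃ i, j = 2 * i + 1 := ⟨j / 2, by omega⟩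
    exact ⟨i, by rw [hi]; push_cast; ring⟩
  have nedt : ∀ j : ℕ, j ≤ 2 * L → (j : ℤ) * t ≠ d := by
    intro j hj h
    have h0 : (0 : ℤ) < d := by
      have h1 := ob t tA todd
      linarith
    have hj0 : j ≠ 0 := by
      rintro rfl
      simp at h
      linarith
    rcases Nat.mod_two_eq_zero_or_one j with h2 | h2
    · apply dt
      have e : d - t = ((j - 1 : ℕ) : ℤ) * t := by
        rw [Nat.cast_sub (by omega), ← h]
        push_cast
        ring
      rw [e]
      exact omul' (j - 1) (by omega) (by omega)
    · have h3 := oddmul j h2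
      rw [h] at h3
      exact (Int.not_even_iff_odd.2 h3) hd
  have hA : ∀ a, a ∈ A ↔ ∃ j : ℕ, j ≤ 2 * L ∧ (a = j * t ∨ a = d - j * t) := by
    have back : ∀ j : ℕ, j ≤ 2 * L → (j : ℤ) * t ∈ A := by
      intro j hj
      rcases Nat.mod_two_eq_zero_or_one j with h2 | h2
      · by_cases h0 : j = 0
        · subst h0
          simpa using H.PA 0 H.P0
        · apply (hev _ (evmul j h2) ?_ (nedt j hj)).2
          · left
            have e : (j : ℤ) * t - t = ((j - 1 : ℕ) : ℤ) * t := by
              rw [Nat.cast_sub (by omega)]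
              push_cast
              ring
            rw [e]
            exact omul' (j - 1) (by omega) (by omega)
          · have : (0 : ℤ) < j := by omega
            positivity
      · exact H.PA _ (omul' j hj h2)
    intro a
    constructor
    · intro ha
      rcases Int.even_or_odd a with he | ho
      · by_cases h0 : a = 0
        · exact ⟨0, by omega, Or.inl (by rw [h0]; simp)⟩
        · by_cases h1 : a = d
          · exact ⟨0, by omega, Or.inr (by rw [h1]; simp)⟩
          · rcases (hev a he h0 h1).1 ha with h2 | h2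
            · obtain ⟨j, hj, e⟩ := (hP1 _ (he.sub_odd todd)).1 h2
              refine ⟨2 * j + 2, by omega, Or.inl ?_⟩
              push_cast
              linarith
            · obtain ⟨j, hj, e⟩ := (hP1 _ ((hd.sub_odd todd).sub_even he)).1 h2
              refine ⟨2 * j + 2, by omega, Or.inr ?_⟩
              push_cast
              linarith
      · rcases (H.A1 a).1 ha with h2 | h2
        · obtain ⟨j, hj, e⟩ := (hP1 _ ho).1 h2
          refine ⟨2 * j + 1, by omega, Or.inl ?_⟩
          push_cast
          linarith
        · obtain ⟨j, hj, e⟩ := (hP1 _ (hd.sub_odd ho)).1 ((hodd _ (hd.sub_odd ho)).2 h2)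
          refine ⟨2 * j + 1, by omega, Or.inr ?_⟩
          push_cast
          linarith
    · rintro ⟨j, hj, rfl | rfl⟩
      · exact back j hj
      · exact H.symmA _ (back j hj)
  have disj : ∀ i j : ℕ, i ≤ 2 * L → j ≤ 2 * L → (i : ℤ) * t ≠ d - j * t := by
    intro i j hi hj h
    rcases Nat.mod_two_eq_zero_or_one i with h1 | h1
    · rcases Nat.mod_two_eq_zero_or_one j with h2 | h2
      · by_cases i0 : i = 0
        · subst i0
          apply nedt j hj
          simp at h
          linarith
        · by_cases j0 : j = 0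
          · subst j0
            apply nedt i hi
            simp at h
            linarith
          · have e1 : (i : ℤ) * t - t = ((i - 1 : ℕ) : ℤ) * t := by
              rw [Nat.cast_sub (by omega)]
              push_cast
              ring
            have e2 : d - t - (i : ℤ) * t = ((j - 1 : ℕ) : ℤ) * t := by
              rw [h, Nat.cast_sub (by omega)]
              push_cast
              ring
            have h3 := hexc _ (evmul i h1) (by
              rw [e1]
              exact omul' (i - 1) (by omega) (by omega))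
            rw [e2] at h3
            exact h3 (omul' (j - 1) (by omega) (by omega))
      · have h3 := evmul i h1
        rw [h] at h3
        exact (Int.not_even_iff_odd.2 (hd.sub_odd (oddmul j h2))) h3
    · rcases Nat.mod_two_eq_zero_or_one j with h2 | h2
      · have h3 := oddmul i h1
        rw [h] at h3
        exact (Int.not_even_iff_odd.2 h3) (hd.sub (evmul j h2))
      · have h3 := omul' i hi h1
        have h4 := (hodd _ (oddmul j h2)).1 (omul' j hj h2)
        rw [h] at h3
        exact H.A2' _ h4 h3
  have full : ∀ j : ℕ, j ≤ 2 * L → (j + 2 * L) % 2 = 1 → (j : ℤ) * t ∈ P ∧ (j : ℤ) * t ∈ R := by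
    intro j hj h2
    have h3 := omul' j hj (by omega)
    exact ⟨h3, (hodd _ (oddmul j (by omega))).1 h3⟩
  exact twoAP H todd tp (by omega) hA disj tP full

end

end Pool.Agent.U411.Queens
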