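import Pool.Agent.U411.Queens.SP

set_option autoImplicit false

namespace Pool.Agent.U411.Queens

open Finset

theorem abs_id (u v : ℤ) : |v - u| + |u + v| = |u| + |v| + |(|u| - |v|)| := by
  rcases abs_cases (v - u) with h1 | h1 <;> rcases abs_cases (u + v) with h2 | h2 <;>
  rcases abs_cases u with h3 | h3 <;> rcases abs_cases v with h4 | h4 <;>
  rcases abs_cases (|u| - |v|) with h5 | h5 <;> omega

/-- The median argument. -/
theorem core {ι : Type} (Q : Finset ι) (u v : ι → ℤ) (r m : ℕ)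
    (hu : ∀ F : ℤ → ℤ, ∑ q ∈ Q, F (u q) =
      ∑ x ∈ SP (2 * r + 1), F x + ∑ x ∈ SP (2 * m), F x)
    (hv : ∀ F : ℤ → ℤ, ∑ q ∈ Q, F (v q) =
      ∑ x ∈ SP (2 * r + 1), F x + ∑ x ∈ SP (2 * m), F x)
    (hx : ∀ F : ℤ → ℤ, ∑ q ∈ Q, F (v q - u q) = ∑ x ∈ SP (2 * (r + m) + 1), F x)
    (hy : ∀ F : ℤ → ℤ, ∑ q ∈ Q, F (u q + v q) = ∑ x ∈ SP (2 * (r + m) + 1), F x)
    (par : ∀ q ∈ Q, Even (u q) ↔ Even (v q))
    (iu : ∀ q ∈ Q, ∀ q' ∈ Q, u q = u q' → q = q')
    (iv : ∀ q ∈ Q, ∀ q' ∈ Q, v q = v q' → q = q')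
    {q1 q2 : ι} (h1 : q1 ∈ Q) (h1' : u q1 = v q1) (h2 : q2 ∈ Q) (h2' : u q2 = - v q2) :
    (2 * (r + m) + 1 = 1) ∨ (2 * (r + m) + 1 = 5) := by
  -- energy
  have eu := hu (fun x => x ^ 2)
  have ev := hv (fun x => x ^ 2)
  have ex := hx (fun x => x ^ 2)
  have ey := hy (fun x => x ^ 2)
  have s1 := SP_sq (2 * r + 1)
  have s2 := SP_sq (2 * m)
  have s3 := SP_sq (2 * (r + m) + 1)
  have e1 : ∑ q ∈ Q, (v q - u q) ^ 2 + ∑ q ∈ Q, (u q + v q) ^ 2 =
      2 * ∑ q ∈ Q, (u q) ^ 2 + 2 * ∑ q ∈ Q, (v q) ^ 2 := by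
    rw [mul_sum, mul_sum, ← sum_add_distrib, ← sum_add_distrib]
    apply sum_congr rfl
    intro q _
    ring
  have key0 : (2 * ((r : ℤ) + m) + 1) * (((r : ℤ) ^ 2 + r + m ^ 2) - (4 * m * r + 2 * m)) = 0 := by
    push_cast at s1 s2 s3
    have : 3 * (2 * ∑ x ∈ SP (2 * (r + m) + 1), x ^ 2) =
        3 * (4 * (∑ x ∈ SP (2 * r + 1), x ^ 2 + ∑ x ∈ SP (2 * m), x ^ 2)) := by
      rw [← ex] at *
      linarith
    have h4 : 2 * ((2 * ((r : ℤ) + m) + 1) * ((2 * ((r : ℤ) + m) + 1) ^ 2 - 1)) =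
        4 * ((2 * (r : ℤ) + 1) * ((2 * (r : ℤ) + 1) ^ 2 - 1) +
          (2 * (m : ℤ)) * ((2 * (m : ℤ)) ^ 2 - 1)) := by
      linarith
    nlinarith
  have key : (r : ℤ) ^ 2 + r + m ^ 2 = 4 * m * r + 2 * m := by
    have h3 : (2 * ((r : ℤ) + m) + 1) ≠ 0 := by positivity
    have := (mul_eq_zero.1 key0).resolve_left h3
    linarith
  -- absolute values
  have au := hu (fun x => |x|)
  have av := hv (fun x => |x|)
  have ax := hx (fun x => |x|)
  have ay := hy (fun x => |x|)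
  rw [SP_abs_odd, SP_abs_even] at au av
  rw [SP_abs_odd] at ax ay
  have a1 : ∑ q ∈ Q, |(|u q| - |v q|)| = 8 * r * m + 4 * m := by
    have a2 : ∑ q ∈ Q, |v q - u q| + ∑ q ∈ Q, |u q + v q| =
        ∑ q ∈ Q, |u q| + ∑ q ∈ Q, |v q| + ∑ q ∈ Q, |(|u q| - |v q|)| := by
      rw [← sum_add_distrib, ← sum_add_distrib, ← sum_add_distrib]
      apply sum_congr rfl
      intro q _
      exact abs_id _ _
    push_cast at ax ay
    nlinarith
  -- the medians
  obtain ⟨t, te, tdev, tr⟩ : ∃ t : ℤ, Even t ∧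
      ∑ x ∈ SP (2 * r + 1), |(|x| - t)| = (r : ℤ) ^ 2 + r ∧ (t = 0 → r = 0) := by
    rcases Nat.even_or_odd' r with ⟨s, rfl | rfl⟩
    · refine ⟨2 * (s : ℤ), even_two_mul _, ?_, ?_⟩
      · rw [SP_dev_odd1]
        push_cast
        ring
      · intro h
        omega
    · refine ⟨2 * (s : ℤ) + 2, ⟨(s : ℤ) + 1, by ring⟩, ?_, ?_⟩
      · rw [SP_dev_odd2]
        push_cast
        ring
      · intro h
        omega
  have mdev : ∑ x ∈ SP (2 * m), |(|x| - (m : ℤ))| ≤ (m : ℤ) ^ 2 ∧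
      (Odd m → ∑ x ∈ SP (2 * m), |(|x| - (m : ℤ))| < (m : ℤ) ^ 2) := by
    rw [SP_dev_even]
    rcases Nat.even_or_odd' m with ⟨s, rfl | rfl⟩
    · rw [SP_abs_even]
      refine ⟨by push_cast; nlinarith, fun h => ?_⟩
      exact absurd (even_two_mul s) (Nat.not_even_iff_odd.2 h)
    · rw [SP_abs_odd]
      refine ⟨by push_cast; nlinarith, fun _ => by push_cast; nlinarith⟩
  set φ : ℤ → ℤ := fun x => |(|x| - (if Even x then t else (m : ℤ)))| with hφ
  have po : ∀ x ∈ SP (2 * r + 1), Even x := by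
    intro x hx
    have := (mem_SP.1 hx).2
    have h3 : Even (((2 * r + 1 : ℕ) : ℤ) - 1) := ⟨r, by push_cast; ring⟩
    have h4 := this.add h3
    rwa [sub_add_cancel] at h4
  have pe : ∀ x ∈ SP (2 * m), ¬ Even x := by
    intro x hx h5
    have := (mem_SP.1 hx).2
    have h3 : Odd (((2 * m : ℕ) : ℤ) - 1) := ⟨(m : ℤ) - 1, by push_cast; ring⟩
    have h4 := h5.sub_odd h3
    exact (Int.not_even_iff_odd.2 h4) this
  have d1 : ∑ x ∈ SP (2 * r + 1), φ x = (r : ℤ) ^ 2 + r := by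
    rw [← tdev]
    apply sum_congr rfl
    intro x hx
    simp only [hφ, if_pos (po x hx)]
  have d2 : ∑ x ∈ SP (2 * m), φ x = ∑ x ∈ SP (2 * m), |(|x| - (m : ℤ))| := by
    apply sum_congr rfl
    intro x hx
    simp only [hφ, if_neg (pe x hx)]
  have hle : ∀ q ∈ Q, |(|u q| - |v q|)| ≤ φ (u q) + φ (v q) := by
    intro q hq
    have hp := par q hq
    simp only [hφ]
    by_cases h3 : Even (u q)
    · rw [if_pos h3, if_pos (hp.1 h3)]
      have := abs_sub_le (|u q|) t (|v q|)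
      rw [abs_sub_comm t] at this
      exact this
    · rw [if_neg h3, if_neg (fun h => h3 (hp.2 h))]
      have := abs_sub_le (|u q|) (m : ℤ) (|v q|)
      rw [abs_sub_comm (m : ℤ)] at this
      exact this
  have hsum : ∑ q ∈ Q, (φ (u q) + φ (v q)) =
      2 * ((r : ℤ) ^ 2 + r + ∑ x ∈ SP (2 * m), |(|x| - (m : ℤ))|) := by
    rw [sum_add_distrib, hu φ, hv φ, d1, d2]
    ring
  have hle2 := sum_le_sum hle
  rw [hsum, a1] at hle2
  have heq : ∑ q ∈ Q, |(|u q| - |v q|)| = ∑ q ∈ Q, (φ (u q) + φ (v q)) := by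
    rw [hsum, a1]
    have := mdev.1
    nlinarith
  have hme : Even m := by
    rw [← Nat.not_odd_iff_even]
    intro h3
    have := mdev.2 h3
    rw [hsum, a1] at heq
    nlinarith
  have heach := (sum_eq_sum_iff_of_le hle).1 heq
  -- general consequence for a queen with |u| = |v|
  have cons : ∀ q ∈ Q, |u q| = |v q| → |u q| = t ∧ |v q| = t := by
    intro q hq huv
    have h3 := heach q hq
    rw [huv, sub_self, abs_zero] at h3
    have h4 : 0 ≤ φ (u q) := abs_nonneg _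
    have h5 : 0 ≤ φ (v q) := abs_nonneg _
    have h6 : φ (v q) = 0 := by linarith
    have h7 : φ (u q) = 0 := by linarith
    simp only [hφ] at h6 h7
    by_cases h8 : Even (v q)
    · rw [if_pos h8, abs_eq_zero] at h6
      exact ⟨by rw [huv]; linarith, by linarith⟩
    · exfalso
      rw [if_neg h8, abs_eq_zero] at h6
      apply h8
      have h9 : |v q| = (m : ℤ) := by linarith
      have h10 : Even |v q| := by
        rw [h9]
        exact_mod_cast hme
      exact (even_abs).1 h10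
  have c1 := cons q1 h1 (by rw [h1'])
  have c2 := cons q2 h2 (by rw [h2', abs_neg])
  have ht : t = 0 := by
    by_contra hne
    have tn : 0 ≤ t := by rw [← c1.1]; exact abs_nonneg _
    have b1 := (abs_eq tn).1 c1.1
    have b2 := (abs_eq tn).1 c2.2
    by_cases h3 : u q1 = u q2
    · have h4 := iu q1 h1 q2 h2 h3
      subst h4
      omega
    · by_cases h4 : v q1 = v q2
      · have h5 := iv q1 h1 q2 h2 h4
        subst h5
        exact h3 rfl
      · omega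
  have hr := tr ht
  subst hr
  have hm : (m : ℤ) * (m - 2) = 0 := by
    push_cast at key
    linarith [key]
  rcases mul_eq_zero.1 hm with h3 | h3
  · left
    omega
  · right
    omega

end Pool.Agent.U411.Queens
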