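import Pool.Agent.U411.Queens.ClassSc

set_option autoImplicit false

namespace Pool.Agent.U411.Queens

open Finset

theorem sum_range_id_int (n : ℕ) : 2 * ∑ j ∈ range n, (j : ℤ) = n * (n - 1) := by
  induction n with
  | zero => simp
  | succ n ih =>
    rw [sum_range_succ, mul_add, ih]
    push_cast
    ring

theorem sum_range_sq_int (n : ℕ) : 6 * ∑ j ∈ range n, (j : ℤ) ^ 2 = n * (n - 1) * (2 * n - 1) := by
  induction n with
  | zero => simp
  | succ n ih =>
    rw [sum_range_succ, mul_add, ih]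
    push_cast
    ring

theorem sum_Icc_int (c : ℤ) (n : ℕ) (f : ℤ → ℤ) :
    ∑ x ∈ Icc c (c + n), f x = ∑ j ∈ range (n + 1), f (c + j) := by
  have e : Icc c (c + n) = (range (n + 1)).image (fun j : ℕ => c + (j : ℤ)) := by
    ext x
    rw [mem_Icc, mem_image]
    constructor
    · intro h
      refine ⟨(x - c).toNat, ?_, ?_⟩
      · rw [mem_range]
        omega
      · rw [Int.toNat_of_nonneg (by omega)]
        ring
    · rintro ⟨j, hj, rfl⟩
      rw [mem_range] at hj
      omega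
  rw [e, sum_image]
  intro a _ b _ h
  simpa using h

theorem sum_AP {μ : ℤ} (hμ : 0 < μ) (n : ℕ) (f : ℤ → ℤ) :
    ∑ x ∈ AP μ n, f x = ∑ j ∈ range n, f (j * μ) := by
  unfold AP
  rw [sum_image]
  intro a _ b _ h
  have := mul_right_cancel₀ hμ.ne' h
  exact_mod_cast this

theorem card_AP {μ : ℤ} (hμ : 0 < μ) (n : ℕ) : (AP μ n).card = n := by
  unfold AP
  rw [card_image_of_injective, card_range]
  intro a b h
  have := mul_right_cancel₀ hμ.ne' h
  exact_mod_cast this

/-- sums over a set symmetric about `z` -/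
theorem symsum {U P : Finset ℤ} {z : ℤ} (hU : ∀ u, u ∈ U ↔ |u - z| ∈ P)
    (hnn : ∀ x ∈ P, 0 ≤ x) (h0 : (0 : ℤ) ∈ P) (f : ℤ → ℤ) :
    ∑ u ∈ U, f (u - z) = ∑ x ∈ P, f x + ∑ x ∈ P, f (-x) - f 0 := by
  have hz : z ∈ U := (hU z).2 (by simpa using h0)
  have h1 := sum_le_ge hz (fun u => f (u - z))
  have e1 : ∑ x ∈ U.filter (· ≤ z), f (x - z) = ∑ x ∈ P, f (-x) := by
    apply sum_nbij' (fun u => z - u) (fun x => z - x)
    · intro u hu
      have h2 := mem_filter.1 hu
      have h3 := (hU u).1 h2.1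
      rw [abs_of_nonpos (by linarith [h2.2])] at h3
      simpa using h3
    · intro x hx
      have := hnn x hx
      refine mem_filter.2 ⟨(hU _).2 ?_, by linarith⟩
      rw [sub_sub_cancel_left, abs_neg, abs_of_nonneg this]
      exact hx
    · intro u _; ring
    · intro u _; ring
    · intro u _
      simp
  have e2 : ∑ x ∈ U.filter (z ≤ ·), f (x - z) = ∑ x ∈ P, f x := by
    apply sum_nbij' (fun u => u - z) (fun x => z + x)
    · intro u hu
      have h2 := mem_filter.1 hu
      have h3 := (hU u).1 h2.1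
      rwa [abs_of_nonneg (by linarith [h2.2])] at h3
    · intro x hx
      have := hnn x hx
      refine mem_filter.2 ⟨(hU _).2 ?_, by linarith⟩
      rw [add_sub_cancel_left, abs_of_nonneg this]
      exact hx
    · intro u _; ring
    · intro u _; ring
    · intro u _
      simp
  rw [e1, e2] at h1
  simp only [sub_self] at h1
  linarith

section
variable {g : ℕ} {d c r : ℤ} {A B U V : Finset ℤ} {Q : Finset (ℤ × ℤ)}

theorem Dat.d_le (h : Dat g d c r A B U V Q) : d ≤ 2 * g := by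
  have h1 := ((h.memA 0).1 h.A0).1
  have h2 := ((h.memA d).1 h.Ad).1
  linarith

/-- Energy identity and centring. -/
theorem Dat.energy (h : Dat g d c r A B U V Q) {P : Finset ℤ} (hAB : ∀ a, a ∈ A ↔ a ∈ B)
    (H : Sym d A P P) (hU : ∀ u, u ∈ U ↔ |u - 0| ∈ P) (hV : ∀ v, v ∈ V ↔ |v - d| ∈ P)
    {e : ℤ} (he : d = 2 * e) :
    c = e - g ∧ r = e - g ∧ g + 1 = 2 * P.card ∧
    3 * (∑ w ∈ P, w ^ 2 + 2 * ∑ w ∈ P, (w - e) ^ 2) = g * (g + 1) * (2 * g + 1) := by
  have hBA : B = A := by
    ext a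
    exact (hAB a).symm
  have hnn : ∀ x ∈ P, 0 ≤ x := fun x hx => (H.hA x (H.PA x hx)).1
  have sA := card_split (S := A) (X := P) (Y := P) (f := fun x => x) (g := fun x => d - x)
    (fun x y h => h) (inj_sub_left d)
    (by
      intro a
      rw [H.A1 a]
      constructor
      · rintro (h1 | h1)
        · exact Or.inl ⟨a, h1, rfl⟩
        · exact Or.inr ⟨d - a, h1, by ring⟩
      · rintro (⟨x, hx, rfl⟩ | ⟨x, hx, rfl⟩)
        · exact Or.inl hx
        · right
          rw [sub_sub_cancel]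
          exact hx)
    (by
      intro x hx y hy h
      apply H.A2' y hy
      have h2 : x = d - y := h
      rw [← h2]
      exact hx)
  have hcard : g + 1 = 2 * P.card := by
    have := sA.1
    have := h.cardA
    omega
  -- linear identities
  have lU := symsum hU hnn H.P0 (fun x => x)
  have lV := symsum hV hnn H.P0 (fun x => x)
  have qU := symsum hU hnn H.P0 (fun x => x ^ 2)
  have qV := symsum hV hnn H.P0 (fun x => x ^ 2)
  have nP : ∑ x ∈ P, -x = - ∑ x ∈ P, x := sum_neg_distrib (fun x : ℤ => x)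
  simp only [nP, add_neg_cancel, sub_zero] at lU
  simp only [nP, add_neg_cancel, sub_zero] at lV
  simp only [neg_sq, sub_zero, ne_eq, OfNat.ofNat_ne_zero, not_false_eq_true, zero_pow] at qU qV
  rw [h.sumU (fun u => u)] at lU
  rw [h.sumV (fun v => v - d)] at lV
  rw [h.sumU (fun u => u ^ 2)] at qU
  rw [h.sumV (fun v => (v - d) ^ 2)] at qV
  have sX := h.sumX (fun x => x - e)
  have sY := h.sumY (fun x => x - e)
  have sX2 := h.sumX (fun x => (x - e) ^ 2)
  have sY2 := h.sumY (fun x => (x - e) ^ 2)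
  rw [hBA] at sY sY2
  have a1 : ∑ a ∈ A, (a - e) = 0 := by
    rw [sA.2 (fun a => a - e), ← sum_add_distrib]
    apply sum_eq_zero_iff_of_nonneg _ |>.2 <;> intro x _ <;> simp only [he] <;> ring_nf <;> simp
  have a2 : ∑ a ∈ A, (a - e) ^ 2 = 2 * ∑ w ∈ P, (w - e) ^ 2 := by
    rw [sA.2 (fun a => (a - e) ^ 2), two_mul]
    congr 1
    apply sum_congr rfl
    intro x _
    rw [he]
    ring
  rw [a1, add_zero] at sX sY
  rw [a2] at sX2 sY2
  have b1 : ∀ c : ℤ, 2 * ∑ x ∈ Icc c (c + 2 * g), (x - e) = 2 * (2 * g + 1) * (c + g - e) := by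
    intro c
    have := sum_Icc_int c (2 * g) (fun x => x - e)
    push_cast at this
    rw [this]
    have h1 := sum_range_id_int (2 * g + 1)
    push_cast at h1
    have h2 : ∑ j ∈ range (2 * g + 1), (c + (j : ℤ) - e) =
        ∑ j ∈ range (2 * g + 1), (j : ℤ) + (2 * g + 1) * (c - e) := by
      have : ∀ j ∈ range (2 * g + 1), (c + (j : ℤ) - e) = (j : ℤ) + (c - e) := fun j _ => by ring
      rw [sum_congr rfl this, sum_add_distrib, sum_const, card_range, nsmul_eq_mul]
      push_cast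
      ring
    rw [h2]
    linarith
  have t1 : ∑ q ∈ Q, (q.1 - e) + ∑ q ∈ Q, (q.2 - e) = 0 := by
    rw [← sum_add_distrib, ← lV]
    apply sum_congr rfl
    intro q _
    rw [he]
    ring
  have t2 : ∑ q ∈ Q, (q.2 - e) - ∑ q ∈ Q, (q.1 - e) = 0 := by
    rw [← sum_sub_distrib, ← lU]
    apply sum_congr rfl
    intro q _
    ring
  have c1 := b1 c
  have c2 := b1 r
  have z1 : ∑ x ∈ Icc c (c + 2 * (g : ℤ)), (x - e) = 0 := by linarith
  have z2 : ∑ x ∈ Icc r (r + 2 * (g : ℤ)), (x - e) = 0 := by linarith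
  rw [z1] at c1
  rw [z2] at c2
  have hpos : (2 * (2 * (g : ℤ) + 1)) ≠ 0 := by positivity
  have hc : c + g - e = 0 := by
    have : 2 * (2 * (g : ℤ) + 1) * (c + g - e) = 0 := by linarith
    exact (mul_eq_zero.1 this).resolve_left hpos
  have hr : r + g - e = 0 := by
    have : 2 * (2 * (g : ℤ) + 1) * (r + g - e) = 0 := by linarith
    exact (mul_eq_zero.1 this).resolve_left hpos
  have b2 : ∀ c : ℤ, c + g - e = 0 →
      3 * ∑ x ∈ Icc c (c + 2 * g), (x - e) ^ 2 = g * (g + 1) * (2 * g + 1) := by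
    intro c hc
    have := sum_Icc_int c (2 * g) (fun x => (x - e) ^ 2)
    push_cast at this
    rw [this]
    have h1 := sum_range_id_int (2 * g + 1)
    have h3 := sum_range_sq_int (2 * g + 1)
    push_cast at h1 h3
    have h2 : ∑ j ∈ range (2 * g + 1), (c + (j : ℤ) - e) ^ 2 =
        ∑ j ∈ range (2 * g + 1), (j : ℤ) ^ 2 - 2 * g * ∑ j ∈ range (2 * g + 1), (j : ℤ)
          + (2 * g + 1) * g ^ 2 := by
      have : ∀ j ∈ range (2 * g + 1), (c + (j : ℤ) - e) ^ 2 =
          (j : ℤ) ^ 2 - 2 * g * (j : ℤ) + g ^ 2 := by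
        intro j _
        have : c = e - g := by linarith
        rw [this]
        ring
      rw [sum_congr rfl this, sum_add_distrib, sum_sub_distrib, sum_const, card_range,
        nsmul_eq_mul, ← mul_sum]
      push_cast
      ring
    rw [h2]
    nlinarith
  have d1 := b2 c hc
  have d2 := b2 r hr
  have t3 : ∑ q ∈ Q, (q.2 - q.1) ^ 2 + ∑ q ∈ Q, (q.1 + q.2 - d) ^ 2 =
      2 * ∑ q ∈ Q, (q.1 - e) ^ 2 + 2 * ∑ q ∈ Q, (q.2 - e) ^ 2 := by
    rw [mul_sum, mul_sum, ← sum_add_distrib, ← sum_add_distrib]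
    apply sum_congr rfl
    intro q _
    rw [he]
    ring
  refine ⟨by linarith, by linarith, hcard, ?_⟩
  linarith

end

end Pool.Agent.U411.Queens
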