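import Pool.Agent.U411.Queens.NoOdd

set_option autoImplicit false

namespace Pool.Agent.U411.Queens

open Finset

section
variable {g : ℕ} {d c r : ℤ} {A B U V : Finset ℤ} {Q : Finset (ℤ × ℤ)}

/-- There is no odd empty column (relative to the box). -/
theorem Dat.no_odd (h : Dat g d c r A B U V Q) (hodd : ∃ a ∈ A, Odd a) : False := by
  obtain ⟨t, todd, tp, oA, oB, hcase⟩ := h.caseST hodd
  have main : (∀ a, a ∈ A ↔ a ∈ B) ∧ (∀ a, a ∈ A → d - a ∈ A) ∧
      U.filter (0 ≤ ·) = (V.image (fun v => v - d)).filter (0 ≤ ·) ∧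
      Shape d (U.filter (0 ≤ ·)) := by
    rcases hcase with hS | ⟨hT1, hT2⟩
    · obtain ⟨hAB, hs, cs⟩ := h.symS todd tp hS
      obtain ⟨-, -, H, -, -⟩ := h.toSym hAB hs
      exact ⟨hAB, hs, classS H todd tp oA cs⟩
    · obtain ⟨hAB, hs, cs⟩ := h.symT todd tp oA oB hT1 hT2
      obtain ⟨-, -, H, -, -⟩ := h.toSym hAB hs
      exact ⟨hAB, hs, classT H todd tp oA cs⟩
  obtain ⟨hAB, hs, hPR, hshape⟩ := main
  obtain ⟨hU', hV', H, mP, mR⟩ := h.toSym hAB hs
  rw [← hPR] at H mR
  set P := U.filter (0 ≤ ·) with hPdef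
  have hU : ∀ u, u ∈ U ↔ |u - 0| ∈ P := by
    intro u
    rw [sub_zero, mP]
    rcases le_total 0 u with h1 | h1
    · rw [abs_of_nonneg h1]
      exact ⟨fun h2 => ⟨h1, h2⟩, fun h2 => h2.2⟩
    · rw [abs_of_nonpos h1, ← hU']
      unfold um
      rw [neg_neg]
      exact ⟨fun h2 => ⟨by linarith, h2⟩, fun h2 => h2.2⟩
  have hV : ∀ v, v ∈ V ↔ |v - d| ∈ P := by
    intro v
    rw [mR]
    rcases le_total 0 (v - d) with h1 | h1
    · rw [abs_of_nonneg h1]
      unfold vp
      rw [add_sub_cancel]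
      exact ⟨fun h2 => ⟨h1, h2⟩, fun h2 => h2.2⟩
    · rw [abs_of_nonpos h1, ← hV']
      unfold vm
      have e : d - -(v - d) = v := by ring
      rw [e]
      exact ⟨fun h2 => ⟨by linarith, h2⟩, fun h2 => h2.2⟩
  obtain ⟨e, he'⟩ := h.even_d
  have he : d = 2 * e := by linarith
  obtain ⟨hc, hr, hcard, hE⟩ := h.energy hAB H hU hV he
  rw [expand] at hE
  have hdle := h.d_le
  have dP : d ∉ P := by
    have := H.A2' 0 H.P0
    rwa [sub_zero] at this
  rcases hshape with ⟨μ, J, hμ, hJ, hP⟩ | ⟨μ, J, hμ, hJ, hnm, hP⟩ | ⟨h4, hsum⟩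
  · rw [hP, card_AP hμ] at hcard
    have hg : (g : ℤ) = 2 * J + 1 := by omega
    rw [hP, card_AP hμ, hg] at hE
    push_cast at hE
    apply kill1 hJ hμ (e := e) _ _ hE
    · have h1 : (J : ℤ) * μ ∈ P := by
        rw [hP, mem_AP]
        exact ⟨J, by omega, rfl⟩
      have h2 := (H.hA _ (H.PA _ h1)).2
      rw [← he]
      refine lt_of_le_of_ne h2 ?_
      intro h3
      rw [h3] at h1
      exact dP h1
    · rw [← he]
      linarith
  · set w0 := d - ((J : ℤ) + 1) * μ with hw0
    have w0P : w0 ∈ P := by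
      rw [hP]
      exact mem_insert_self _ _
    have w0n : 0 ≤ w0 := (H.hA _ (H.PA _ w0P)).1
    have w0ne : w0 ≠ 0 := by
      intro h1
      apply hnm
      rw [h1, mem_AP]
      exact ⟨0, by omega, by simp⟩
    have w0pos : 0 < w0 := lt_of_le_of_ne w0n (Ne.symm w0ne)
    have hcardP : P.card = J + 2 := by
      rw [hP, card_insert_of_notMem hnm, card_AP hμ]
    have hg : (g : ℤ) = 2 * J + 3 := by omega
    have hJ' : (1 : ℤ) ≤ J := by exact_mod_cast hJ
    -- μ is odd
    have μo : Odd μ := by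
      rw [← Int.not_even_iff_odd]
      intro μe
      have hPe : ∀ x ∈ P, Even x := by
        intro x hx
        rw [hP, mem_insert, mem_AP] at hx
        rcases hx with rfl | ⟨j, hj, rfl⟩
        · exact h.even_d.sub (μe.mul_left _)
        · exact μe.mul_left _
      obtain ⟨a, ha, ho⟩ := hodd
      rcases (H.A1 a).1 ha with h1 | h1
      · exact (Int.not_even_iff_odd.2 ho) (hPe a h1)
      · have h2 := h.even_d.sub (hPe _ h1)
        rw [sub_sub_cancel] at h2
        exact (Int.not_even_iff_odd.2 ho) h2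
    have hμ4 : μ ≤ 4 := by
      by_contra hlt
      have h5 : 5 ≤ μ := by omega
      have h6 : ((J : ℤ) + 1) * 5 ≤ ((J : ℤ) + 1) * μ := by
        apply mul_le_mul_of_nonneg_left h5
        linarith
      linarith
    have hμ13 : μ = 1 ∨ μ = 3 := by
      obtain ⟨k, hk⟩ := μo
      omega
    rcases hμ13 with rfl | rfl
    · exact kill3 h hAB H hU hV he hc hr hg hnm hP
    · rw [hcardP, hg] at hE
      rw [hP, sum_insert hnm, sum_insert hnm] at hE
      push_cast at hE
      apply kill2 hJ w0pos (e := e) _ _ (by linarith)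
      · linarith
      · linarith
  · have hg : (g : ℤ) = 7 := by omega
    rw [h4, hsum, hg, he] at hE
    push_cast at hE
    ring_nf at hE
    omega

end

end Pool.Agent.U411.Queens
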