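import Pool.Agent.U411.Queens.Te
import Pool.Agent.U411.Queens.NoOdd2

set_option autoImplicit false

namespace Pool.Agent.U411.Queens

open Finset

section
variable {g : ℕ} {d c r : ℤ} {A B U V : Finset ℤ} {Q : Finset (ℤ × ℤ)}

theorem evens_set {S : Finset ℤ} {g : ℕ} {d : ℤ} (hb : ∀ a ∈ S, 0 ≤ a ∧ a ≤ d)
    (he : ∀ a ∈ S, Even a) (hc : S.card = g + 1) (hd : d ≤ 2 * g) (dS : d ∈ S) :
    d = 2 * g ∧ ∀ a, a ∈ S ↔ (0 ≤ a ∧ a ≤ 2 * g) ∧ Even a := by
  obtain ⟨e, hde⟩ := he d dS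
  have hdn := (hb d dS).1
  have hsub : S ⊆ (range (e.toNat + 1)).image (fun j : ℕ => 2 * (j : ℤ)) := by
    intro a ha
    obtain ⟨k, hk⟩ := he a ha
    have := hb a ha
    refine mem_image.2 ⟨k.toNat, ?_, ?_⟩
    · rw [mem_range]
      omega
    · rw [Int.toNat_of_nonneg (by omega)]
      linarith
  have hinj : Function.Injective (fun j : ℕ => 2 * (j : ℤ)) := by
    intro a b h
    simp only at h
    omega
  have hcard := card_le_card hsub
  rw [card_image_of_injective _ hinj, card_range, hc] at hcard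
  have hg : e = g := by omega
  have hS : S = (range (e.toNat + 1)).image (fun j : ℕ => 2 * (j : ℤ)) := by
    apply eq_of_subset_of_card_le hsub
    rw [card_image_of_injective _ hinj, card_range, hc]
    omega
  refine ⟨by omega, ?_⟩
  intro a
  constructor
  · intro ha
    have := hb a ha
    exact ⟨⟨this.1, by linarith⟩, he a ha⟩
  · rintro ⟨⟨h1, h2⟩, k, hk⟩
    rw [hS]
    refine mem_image.2 ⟨k.toNat, ?_, ?_⟩
    · rw [mem_range]
      omega
    · rw [Int.toNat_of_nonneg (by omega)]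
      linarith

theorem Dat.evens (h : Dat g d c r A B U V Q) (hev : ∀ a ∈ A, Even a) : g = 1 ∨ g = 5 := by
  classical
  obtain ⟨c1, c2, c3, c4, c5, c6, -, -, -⟩ := h.classes
  have z1 : (A.filter (fun x => Odd x)).card = 0 := by
    rw [card_eq_zero, filter_eq_empty_iff]
    intro a ha ho
    exact (Int.not_even_iff_odd.2 ho) (hev a ha)
  have evB : ∀ a ∈ B, Even a := by
    have z : (B.filter (fun x => Odd x)).card = 0 := by omega
    rw [card_eq_zero, filter_eq_empty_iff] at z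
    intro a ha
    exact Int.not_odd_iff_even.1 (z ha)
  have evU : ∀ a ∈ U, Even a := by
    have z : (U.filter (fun x => Odd x)).card = 0 := by omega
    rw [card_eq_zero, filter_eq_empty_iff] at z
    intro a ha
    exact Int.not_odd_iff_even.1 (z ha)
  have evV : ∀ a ∈ V, Even a := by
    have z : (V.filter (fun x => Odd x)).card = 0 := by omega
    rw [card_eq_zero, filter_eq_empty_iff] at z
    intro a ha
    exact Int.not_odd_iff_even.1 (z ha)
  obtain ⟨hd, hA⟩ := evens_set h.hA hev h.cardA h.d_le h.Ad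
  obtain ⟨-, hB⟩ := evens_set h.hB evB h.cardB h.d_le h.Bd
  have hc : c = 0 := by
    have h1 := ((h.memA 0).1 h.A0).1
    have h2 := ((h.memA d).1 h.Ad).1
    linarith
  have hr : r = 0 := by
    have h1 := ((h.memB 0).1 h.B0).1
    have h2 := ((h.memB d).1 h.Bd).1
    linarith
  subst hc hr
  -- compressed diagonals
  set S := U.image (fun u => u / 2) with hS
  set T := V.image (fun v : ℤ => (v - 2 * (g : ℤ)) / 2) with hT
  have iS : Set.InjOn (fun u : ℤ => u / 2) U := by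
    intro a ha b hb hab
    obtain ⟨k, hk⟩ := evU a ha
    obtain ⟨l, hl⟩ := evU b hb
    simp only at hab
    omega
  have iT : Set.InjOn (fun v : ℤ => (v - 2 * (g : ℤ)) / 2) V := by
    intro a ha b hb hab
    obtain ⟨k, hk⟩ := evV a ha
    obtain ⟨l, hl⟩ := evV b hb
    simp only at hab
    omega
  have mS : ∀ x : ℤ, 2 * x ∈ U → x ∈ S := by
    intro x hx
    exact mem_image.2 ⟨_, hx, by omega⟩
  have mT : ∀ x : ℤ, 2 * x + 2 * (g : ℤ) ∈ V → x ∈ T := by
    intro x hx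
    exact mem_image.2 ⟨_, hx, by omega⟩
  have cS : S.card = g := by
    rw [hS, card_image_of_injOn iS, h.cardU]
  have cT : T.card = g := by
    rw [hT, card_image_of_injOn iT, h.cardV]
  obtain ⟨e, e1, e2, hg, dS, dT⟩ := te_structure (g := g) (S := S) (T := T)
    (mS 0 (by simpa using h.U0)) (mT 0 (by
      have := h.Vd
      rw [hd] at this
      simpa using this)) cS cT (by
      intro a b h1 h2 h3 h4
      rcases h.cov (2 * a) ((hA _).2 ⟨⟨by omega, by omega⟩, even_two_mul a⟩) (2 * b)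
        ((hB _).2 ⟨⟨by omega, by omega⟩, even_two_mul b⟩) with h5 | h5
      · left
        apply mS
        have e : 2 * (b - a) = 2 * b - 2 * a := by ring
        rwa [e]
      · right
        apply mT
        have e : 2 * (a + b - (g : ℤ)) + 2 * g = 2 * a + 2 * b := by ring
        rwa [e])
  -- columns and rows of queens
  have goddZ : ∃ j : ℤ, (g : ℤ) = 2 * j + 1 := ⟨((g / 2 : ℕ) : ℤ), by omega⟩
  obtain ⟨jg, hjg⟩ := goddZ
  have hcol : Q.image Prod.fst = (SP g).image (fun x : ℤ => x + (g : ℤ)) := by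
    rw [h.colcard.1]
    ext x
    rw [mem_sdiff, mem_Icc, hA, mem_image]
    constructor
    · rintro ⟨h1, h2⟩
      have ho : Odd x := by
        rw [← Int.not_even_iff_odd]
        intro h3
        exact h2 ⟨by omega, h3⟩
      obtain ⟨k, hk⟩ := ho
      refine ⟨x - g, mem_SP.2 ⟨abs_le.2 ⟨by omega, by omega⟩, ⟨k - jg - jg, by omega⟩⟩, by ring⟩
    · rintro ⟨y, hy, rfl⟩
      obtain ⟨h1, k, hk⟩ := mem_SP.1 hy
      rw [abs_le] at h1
      refine ⟨by omega, ?_⟩
      rintro ⟨-, l, hl⟩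
      omega
  have hrow : Q.image Prod.snd = (SP g).image (fun x : ℤ => x + (g : ℤ)) := by
    rw [h.rowcard.1]
    ext x
    rw [mem_sdiff, mem_Icc, hB, mem_image]
    constructor
    · rintro ⟨h1, h2⟩
      have ho : Odd x := by
        rw [← Int.not_even_iff_odd]
        intro h3
        exact h2 ⟨by omega, h3⟩
      obtain ⟨k, hk⟩ := ho
      refine ⟨x - g, mem_SP.2 ⟨abs_le.2 ⟨by omega, by omega⟩, ⟨k - jg - jg, by omega⟩⟩, by ring⟩
    · rintro ⟨y, hy, rfl⟩
      obtain ⟨h1, k, hk⟩ := mem_SP.1 hy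
      rw [abs_le] at h1
      refine ⟨by omega, ?_⟩
      rintro ⟨-, l, hl⟩
      omega
  have evq : ∀ q ∈ Q, (∃ k, q.2 - q.1 = 2 * k) ∧ (∃ k, q.1 + q.2 = 2 * k) := by
    intro q hq
    constructor
    · obtain ⟨k, hk⟩ := evU (q.2 - q.1) (by rw [h.hU]; exact mem_image.2 ⟨q, hq, rfl⟩)
      exact ⟨k, by linarith⟩
    · obtain ⟨k, hk⟩ := evV (q.1 + q.2) (by rw [h.hV]; exact mem_image.2 ⟨q, hq, rfl⟩)
      exact ⟨k, by linarith⟩
  have oddx : ∀ q ∈ Q, (∃ k, q.1 = 2 * k + 1) ∧ (∃ k, q.2 = 2 * k + 1) := by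
    intro q hq
    constructor
    · have h1 : q.1 ∈ Q.image Prod.fst := mem_image.2 ⟨q, hq, rfl⟩
      rw [hcol] at h1
      obtain ⟨y, hy, h2⟩ := mem_image.1 h1
      obtain ⟨-, k, hk⟩ := mem_SP.1 hy
      exact ⟨k + jg + jg, by omega⟩
    · have h1 : q.2 ∈ Q.image Prod.snd := mem_image.2 ⟨q, hq, rfl⟩
      rw [hrow] at h1
      obtain ⟨y, hy, h2⟩ := mem_image.1 h1
      obtain ⟨-, k, hk⟩ := mem_SP.1 hy
      exact ⟨k + jg + jg, by omega⟩
  set u : ℤ × ℤ → ℤ := fun q => (q.2 - q.1) / 2 with hu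
  set v : ℤ × ℤ → ℤ := fun q => (q.1 + q.2 - 2 * g) / 2 with hv
  have sumu : ∀ F : ℤ → ℤ, ∑ q ∈ Q, F (u q) = ∑ x ∈ SP (e - 1), F x + ∑ x ∈ SP (g - e + 1), F x := by
    intro F
    rw [← te_sum e1 e2 hg dS F, hS, sum_image iS, h.sumU (fun u => F (u / 2))]
  have sumv : ∀ F : ℤ → ℤ, ∑ q ∈ Q, F (v q) = ∑ x ∈ SP (e - 1), F x + ∑ x ∈ SP (g - e + 1), F x := by
    intro F
    rw [← te_sum e1 e2 hg dT F, hT, sum_image iT, h.sumV (fun v => F ((v - 2 * g) / 2))]
  have injg : Function.Injective (fun x : ℤ => x + (g : ℤ)) := fun x y hxy => by simpa using hxy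
  have sumx : ∀ F : ℤ → ℤ, ∑ q ∈ Q, F (v q - u q) = ∑ x ∈ SP g, F x := by
    intro F
    have e3 : ∑ q ∈ Q, F (v q - u q) = ∑ q ∈ Q, F (q.1 - g) := by
      apply sum_congr rfl
      intro q hq
      obtain ⟨⟨k, hk⟩, l, hl⟩ := evq q hq
      congr 1
      simp only [hu, hv]
      omega
    have e4 : ∑ q ∈ Q, F (q.1 - g) = ∑ x ∈ Q.image Prod.fst, F (x - g) := by
      rw [sum_image (fun a ha b hb e => h.injX a ha b hb e)]
    rw [e3, e4, hcol, sum_image (fun a _ b _ e => injg e)]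
    apply sum_congr rfl
    intro x _
    rw [add_sub_cancel_right]
  have sumy : ∀ F : ℤ → ℤ, ∑ q ∈ Q, F (u q + v q) = ∑ x ∈ SP g, F x := by
    intro F
    have e3 : ∑ q ∈ Q, F (u q + v q) = ∑ q ∈ Q, F (q.2 - g) := by
      apply sum_congr rfl
      intro q hq
      obtain ⟨⟨k, hk⟩, l, hl⟩ := evq q hq
      congr 1
      simp only [hu, hv]
      omega
    have e4 : ∑ q ∈ Q, F (q.2 - g) = ∑ x ∈ Q.image Prod.snd, F (x - g) := by
      rw [sum_image (fun a ha b hb e => h.injY a ha b hb e)]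
    rw [e3, e4, hrow, sum_image (fun a _ b _ e => injg e)]
    apply sum_congr rfl
    intro x _
    rw [add_sub_cancel_right]
  have par : ∀ q ∈ Q, Even (u q) ↔ Even (v q) := by
    intro q hq
    obtain ⟨⟨k, hk⟩, l, hl⟩ := evq q hq
    obtain ⟨⟨k1, hk1⟩, l1, hl1⟩ := oddx q hq
    simp only [hu, hv]
    rw [Int.even_iff, Int.even_iff]
    omega
  have iu : ∀ q ∈ Q, ∀ q' ∈ Q, u q = u q' → q = q' := by
    intro q hq q' hq' huu
    obtain ⟨⟨k, hk⟩, -⟩ := evq q hq
    obtain ⟨⟨l, hl⟩, -⟩ := evq q' hq'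
    apply h.injU q hq q' hq'
    simp only [hu] at huu
    omega
  have iv : ∀ q ∈ Q, ∀ q' ∈ Q, v q = v q' → q = q' := by
    intro q hq q' hq' hvv
    obtain ⟨-, k, hk⟩ := evq q hq
    obtain ⟨-, l, hl⟩ := evq q' hq'
    apply h.injV q hq q' hq'
    simp only [hv] at hvv
    omega
  have h0g : (0 : ℤ) ∈ SP g := mem_SP.2 ⟨by simp; omega, ⟨-jg, by omega⟩⟩
  obtain ⟨q1, hq1, hq1'⟩ : ∃ q ∈ Q, q.1 = g := by
    have h1 : (g : ℤ) ∈ Q.image Prod.fst := by
      rw [hcol]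
      exact mem_image.2 ⟨0, h0g, by simp⟩
    obtain ⟨q, hq, h2⟩ := mem_image.1 h1
    exact ⟨q, hq, h2⟩
  obtain ⟨q2, hq2, hq2'⟩ : ∃ q ∈ Q, q.2 = g := by
    have h1 : (g : ℤ) ∈ Q.image Prod.snd := by
      rw [hrow]
      exact mem_image.2 ⟨0, h0g, by simp⟩
    obtain ⟨q, hq, h2⟩ := mem_image.1 h1
    exact ⟨q, hq, h2⟩
  have hq1uv : u q1 = v q1 := by
    obtain ⟨⟨k, hk⟩, l, hl⟩ := evq q1 hq1
    simp only [hu, hv]
    omega
  have hq2uv : u q2 = - v q2 := by
    obtain ⟨⟨k, hk⟩, l, hl⟩ := evq q2 hq2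
    simp only [hu, hv]
    omega
  -- split by the parity of e
  rcases Nat.even_or_odd' (e - 1) with ⟨m, hm | hm⟩
  · -- e − 1 = 2 m, g − e + 1 odd
    obtain ⟨s, hs⟩ : ∃ s, g - e + 1 = 2 * s + 1 := ⟨(g - e) / 2, by omega⟩
    have hgs : g = 2 * (s + m) + 1 := by omega
    have := core Q u v s m
      (fun F => by rw [sumu F, hm, hs]; ring)
      (fun F => by rw [sumv F, hm, hs]; ring)
      (fun F => by rw [sumx F, ← hgs])
      (fun F => by rw [sumy F, ← hgs]) par iu iv hq1 hq1uv hq2 hq2uv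
    omega
  · obtain ⟨s, hs⟩ : ∃ s, g - e + 1 = 2 * s := ⟨(g - e + 1) / 2, by omega⟩
    have hgs : g = 2 * (m + s) + 1 := by omega
    have := core Q u v m s
      (fun F => by rw [sumu F, hm, hs])
      (fun F => by rw [sumv F, hm, hs])
      (fun F => by rw [sumx F, ← hgs])
      (fun F => by rw [sumy F, ← hgs]) par iu iv hq1 hq1uv hq2 hq2uv
    omega

/-- The main theorem in abstract form. -/
theorem Dom.final {g : ℕ} {Q : Finset (ℤ × ℤ)} (h : Dom g Q) : g = 1 ∨ g = 5 := by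
  obtain ⟨d, c, r, A, B, U, V, Q', hD⟩ := exists_dat h
  by_cases hodd : ∃ a ∈ A, Odd a
  · exact (hD.no_odd hodd).elim
  · push Not at hodd
    exact hD.evens (fun a ha => Int.not_odd_iff_even.1 (hodd a ha))

end

end Pool.Agent.U411.Queens
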