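import Pool.Agent.U411.Queens.Parity

set_option autoImplicit false

namespace Pool.Agent.U411.Queens

open Finset

/-- difference diagonals above the main one -/
def up (U : Finset ℤ) (x : ℤ) : Prop := 0 ≤ x ∧ x ∈ U
/-- difference diagonals below the main one -/
def um (U : Finset ℤ) (x : ℤ) : Prop := 0 ≤ x ∧ -x ∈ U
/-- sum diagonals above the main one -/
def vp (V : Finset ℤ) (d x : ℤ) : Prop := 0 ≤ x ∧ d + x ∈ V
/-- sum diagonals below the main one -/
def vm (V : Finset ℤ) (d x : ℤ) : Prop := 0 ≤ x ∧ d - x ∈ V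

/-- Four sets satisfying the plain and the shifted exact relations coincide. -/
theorem four_sets {p p' q q' : ℤ → Prop} {d t D : ℤ} (ht : 0 < t)
    (b1 : ∀ x, p x → x ≤ D) (b2 : ∀ x, p' x → x ≤ D) (b3 : ∀ x, q x → x ≤ D)
    (H1 : ∀ a, p' a ∨ q' (d - a) ↔ p (d - a) ∨ q a)
    (E1 : ∀ a, p' a → ¬ q' (d - a)) (E2 : ∀ a, q a → ¬ p (d - a))
    (H2 : ∀ a, p a ∨ q' (d - a) ↔ p' (d - a) ∨ q a)
    (E3 : ∀ a, p a → ¬ q' (d - a)) (E4 : ∀ a, q a → ¬ p' (d - a))
    (H3 : ∀ a, p' (a - t) ∨ q' (d - t - a) ↔ p (d - t - a) ∨ q (a - t))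
    (E5 : ∀ a, p' (a - t) → ¬ q' (d - t - a)) (E6 : ∀ a, q (a - t) → ¬ p (d - t - a))
    (H4 : ∀ a, p (a - t) ∨ q' (d - t - a) ↔ p' (d - t - a) ∨ q (a - t))
    (E7 : ∀ a, p (a - t) → ¬ q' (d - t - a)) (E8 : ∀ a, q (a - t) → ¬ p' (d - t - a)) :
    (∀ x, p x ↔ q x) ∧ (∀ x, p' x ↔ q x) ∧ (∀ x, q' x ↔ q x) := by
  have r1 : ∀ x : ℤ, x + t - t = x := fun x => by ring
  have r2 : ∀ x : ℤ, d - t - (x + t) = d - (x + 2 * t) := fun x => by ring
  have A1 : ∀ x, p' x → q x := by
    apply shift_lemma (X := p') (Y := fun a => q' (d - a)) (X' := q) (Y' := fun a => p (d - a))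
      ht b2
    · intro x hx hn
      have := (H3 (x + t)).1 (Or.inl (by rw [r1]; exact hx))
      rw [r1, r2] at this
      exact this.resolve_right hn
    · intro x hx
      exact (H1 x).2 (Or.inl hx)
    · intro x hx
      have := E5 (x + t) (by rw [r1]; exact hx)
      rw [r2] at this
      exact this
    · intro x hx
      exact E2 x hx
  have A2 : ∀ x, q x → p' x := by
    apply shift_lemma (X := q) (Y := fun a => p (d - a)) (X' := p') (Y' := fun a => q' (d - a))
      ht b3
    · intro x hx hn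
      have := (H3 (x + t)).2 (Or.inr (by rw [r1]; exact hx))
      rw [r1, r2] at this
      exact this.resolve_left hn
    · intro x hx
      exact ((H1 x).1 (Or.inr hx)).symm
    · intro x hx
      have := E6 (x + t) (by rw [r1]; exact hx)
      rw [r2] at this
      exact this
    · intro x hx
      exact E1 x hx
  have A3 : ∀ x, p x → q x := by
    apply shift_lemma (X := p) (Y := fun a => q' (d - a)) (X' := q) (Y' := fun a => p' (d - a))
      ht b1
    · intro x hx hn
      have := (H4 (x + t)).1 (Or.inl (by rw [r1]; exact hx))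
      rw [r1, r2] at this
      exact this.resolve_right hn
    · intro x hx
      exact (H2 x).2 (Or.inl hx)
    · intro x hx
      have := E7 (x + t) (by rw [r1]; exact hx)
      rw [r2] at this
      exact this
    · intro x hx
      exact E4 x hx
  have A4 : ∀ x, q x → p x := by
    apply shift_lemma (X := q) (Y := fun a => p' (d - a)) (X' := p) (Y' := fun a => q' (d - a))
      ht b3
    · intro x hx hn
      have := (H4 (x + t)).2 (Or.inr (by rw [r1]; exact hx))
      rw [r1, r2] at this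
      exact this.resolve_left hn
    · intro x hx
      exact ((H2 x).1 (Or.inr hx)).symm
    · intro x hx
      have := E8 (x + t) (by rw [r1]; exact hx)
      rw [r2] at this
      exact this
    · intro x hx
      exact E3 x hx
  refine ⟨fun x => ⟨A3 x, A4 x⟩, fun x => ⟨A1 x, A2 x⟩, fun x => ⟨fun hx => ?_, fun hx => ?_⟩⟩
  · have h1 := (H1 (d - x)).1 (Or.inr (by rw [sub_sub_cancel]; exact hx))
    rw [sub_sub_cancel] at h1
    rcases h1 with h1 | h1
    · exact A3 x h1
    · have h2 := E1 (d - x) (A2 _ h1)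
      rw [sub_sub_cancel] at h2
      exact (h2 hx).elim
  · have h1 := (H1 (d - x)).2 (Or.inl (by rw [sub_sub_cancel]; exact A4 x hx))
    rw [sub_sub_cancel] at h1
    rcases h1 with h1 | h1
    · have h2 := E2 (d - x) (A1 _ h1)
      rw [sub_sub_cancel] at h2
      exact (h2 (A4 x hx)).elim
    · exact h1

/-- The relations of a centred square ring in terms of the four predicates. -/
structure Rel (A B U V : Finset ℤ) (d t : ℤ) : Prop where
  bot : ∀ a, a ∈ A ↔ um U (a - t) ∨ vm V d (d - t - a)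
  bot' : ∀ a, um U (a - t) → ¬ vm V d (d - t - a)
  top : ∀ a, a ∈ A ↔ up U (d - t - a) ∨ vp V d (a - t)
  top' : ∀ a, vp V d (a - t) → ¬ up U (d - t - a)
  left : ∀ b, b ∈ B ↔ up U (b - t) ∨ vm V d (d - t - b)
  left' : ∀ b, up U (b - t) → ¬ vm V d (d - t - b)
  right : ∀ b, b ∈ B ↔ um U (d - t - b) ∨ vp V d (b - t)
  right' : ∀ b, vp V d (b - t) → ¬ um U (d - t - b)

theorem RingEq.rel {A B U V : Finset ℤ} {d t : ℤ} (h : RingEq A B U V t (d - t) t (d - t)) :
    Rel A B U V d t := by
  have e1 : ∀ a : ℤ, -(a - t) = t - a := fun a => by ring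
  have e2 : ∀ a : ℤ, d - (d - t - a) = a + t := fun a => by ring
  have e2' : ∀ a : ℤ, d - (d - t - a) = t + a := fun a => by ring
  have e3 : ∀ a : ℤ, d + (a - t) = a + (d - t) := fun a => by ring
  have e3' : ∀ a : ℤ, d + (a - t) = d - t + a := fun a => by ring
  have e4 : ∀ a : ℤ, -(d - t - a) = a - (d - t) := fun a => by ring
  constructor
  · intro a
    rw [h.bot a, um, vm, e1, e2, sub_nonneg, sub_nonneg]
  · intro a h1 h2
    rw [um, e1, sub_nonneg] at h1
    rw [vm, e2, sub_nonneg] at h2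
    exact h.bot' a h1.1 h1.2 h2.1 h2.2
  · intro a
    rw [h.top a, up, vp, e3, sub_nonneg, sub_nonneg]
  · intro a h2 h1
    rw [up, sub_nonneg] at h1
    rw [vp, e3, sub_nonneg] at h2
    exact h.top' a h1.1 h1.2 h2.1 h2.2
  · intro b
    rw [h.left b, up, vm, e2', sub_nonneg, sub_nonneg]
  · intro b h1 h2
    rw [up, sub_nonneg] at h1
    rw [vm, e2', sub_nonneg] at h2
    exact h.left' b h1.1 h1.2 h2.1 h2.2
  · intro b
    rw [h.right b, um, vp, e3', e4, sub_nonneg, sub_nonneg]
  · intro b h2 h1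
    rw [um, e4, sub_nonneg] at h1
    rw [vp, e3', sub_nonneg] at h2
    exact h.right' b h1.1 h1.2 h2.1 h2.2

/-- main relations -/
theorem Dat.rel {g : ℕ} {d c r : ℤ} {A B U V : Finset ℤ} {Q : Finset (ℤ × ℤ)}
    (h : Dat g d c r A B U V Q) : Rel A B U V d 0 := by
  apply RingEq.rel
  simpa using h.ring

end Pool.Agent.U411.Queens
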