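import Pool.Agent.U411.Queens.Energy

set_option autoImplicit false

namespace Pool.Agent.U411.Queens

open Finset

/-- sum over a progression of the energy weight -/
theorem ap_sums {μ : ℤ} (hμ : 0 < μ) (J : ℕ) :
    2 * ∑ x ∈ AP μ (J + 1), x = μ * (J * (J + 1)) ∧
    6 * ∑ x ∈ AP μ (J + 1), x ^ 2 = μ ^ 2 * (J * (J + 1) * (2 * J + 1)) := by
  rw [sum_AP hμ, sum_AP hμ (J + 1) (fun x => x ^ 2)]
  have h1 := sum_range_id_int (J + 1)
  have h2 := sum_range_sq_int (J + 1)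
  push_cast at h1 h2
  constructor
  · rw [← sum_mul]
    linear_combination μ * h1
  · have : ∀ j ∈ range (J + 1), ((j : ℤ) * μ) ^ 2 = (j : ℤ) ^ 2 * μ ^ 2 := fun j _ => by ring
    rw [sum_congr rfl this, ← sum_mul]
    linear_combination μ ^ 2 * h2

theorem expand (P : Finset ℤ) (e : ℤ) :
    ∑ w ∈ P, w ^ 2 + 2 * ∑ w ∈ P, (w - e) ^ 2 =
      3 * ∑ w ∈ P, w ^ 2 - 4 * e * ∑ w ∈ P, w + 2 * P.card * e ^ 2 := by
  have : ∀ w ∈ P, (w - e) ^ 2 = w ^ 2 - 2 * e * w + e ^ 2 := fun w _ => by ring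
  rw [sum_congr rfl this, sum_add_distrib, sum_sub_distrib, ← mul_sum, sum_const, nsmul_eq_mul]
  ring

/-- shape 1 contradicts the energy identity -/
theorem kill1 {J : ℕ} {μ e : ℤ} (hJ : 1 ≤ J) (hμ : 0 < μ) (h1 : (J : ℤ) * μ < 2 * e)
    (h2 : 2 * e ≤ 2 * (2 * J + 1))
    (hE : 3 * (3 * ∑ w ∈ AP μ (J + 1), w ^ 2 - 4 * e * ∑ w ∈ AP μ (J + 1), w
      + 2 * (J + 1) * e ^ 2) = (2 * J + 1) * ((2 * J + 1) + 1) * (2 * (2 * J + 1) + 1)) : False := by
  obtain ⟨s1, s2⟩ := ap_sums hμ J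
  have hJ' : (1 : ℤ) ≤ J := by exact_mod_cast hJ
  generalize (J : ℤ) = j at *
  have key : (j + 1) * (3 * ((2 * e - j * μ) ^ 2 + j * (j + 1) * μ ^ 2)) =
      (j + 1) * (4 * (2 * j + 1) * (4 * j + 3)) := by
    linear_combination 2 * hE - 3 * s2 + 12 * e * s1
  have key2 := mul_left_cancel₀ (by linarith : (j + 1 : ℤ) ≠ 0) key
  have hz : 0 < 2 * e - j * μ := by linarith
  have hz2 : 2 * e - j * μ ≤ 4 * j + 2 - j * μ := by linarith
  rcases le_or_gt 4 μ with h | h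
  · have h3 : 16 ≤ μ ^ 2 := by nlinarith
    have h4 : 16 * (j * (j + 1)) ≤ j * (j + 1) * μ ^ 2 := by
      have : 0 ≤ j * (j + 1) := by positivity
      nlinarith
    nlinarith [sq_nonneg (2 * e - j * μ)]
  · generalize 2 * e - j * μ = z at *
    have hsq : z ^ 2 ≤ (4 * j + 2 - j * μ) ^ 2 := by
      apply pow_le_pow_left₀ hz.le hz2
    interval_cases μ
    · nlinarith
    · nlinarith
    · nlinarith

/-- shape 2 with step 3 contradicts the energy identity -/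
theorem kill2 {J : ℕ} {e w0 : ℤ} (hJ : 1 ≤ J) (hw : 0 < w0) (h1 : 2 * e = (J + 1) * 3 + w0)
    (h2 : 2 * e ≤ 2 * (2 * J + 3))
    (hE : 3 * (3 * (∑ w ∈ AP 3 (J + 1), w ^ 2 + w0 ^ 2) - 4 * e * (∑ w ∈ AP 3 (J + 1), w + w0)
      + 2 * (J + 2) * e ^ 2) = (2 * J + 3) * ((2 * J + 3) + 1) * (2 * (2 * J + 3) + 1)) :
    False := by
  obtain ⟨s1, s2⟩ := ap_sums (μ := 3) (by norm_num) J
  have hJ' : (1 : ℤ) ≤ J := by exact_mod_cast hJ
  generalize (J : ℤ) = j at *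
  have hw2 : w0 ≤ j + 3 := by linarith
  have key : 3 * (j + 4) * w0 ^ 2 + 27 * (j + 1) * (j ^ 2 + 2 * j + 2) =
      4 * (8 * j ^ 3 + 42 * j ^ 2 + 73 * j + 42) := by
    have he : w0 = 2 * e - (j + 1) * 3 := by linarith
    subst he
    linear_combination 2 * hE - 3 * s2 + 12 * e * s1
  have h3 : w0 ^ 2 ≤ (j + 3) ^ 2 := pow_le_pow_left₀ hw.le hw2 2
  have h4 : 3 * (j + 4) * w0 ^ 2 ≤ 3 * (j + 4) * (j + 3) ^ 2 := by
    apply mul_le_mul_of_nonneg_left h3
    linarith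
  nlinarith

section
variable {g : ℕ} {d c r : ℤ} {A B U V : Finset ℤ} {Q : Finset (ℤ × ℤ)}

/-- shape 2 with step 1: queens argument -/
theorem kill3 (h : Dat g d c r A B U V Q) {P : Finset ℤ} (hAB : ∀ a, a ∈ A ↔ a ∈ B)
    (H : Sym d A P P) (hU : ∀ u, u ∈ U ↔ |u - 0| ∈ P) (hV : ∀ v, v ∈ V ↔ |v - d| ∈ P)
    {e : ℤ} (he : d = 2 * e) (hc : c = e - g) (hr : r = e - g) {J : ℕ}
    (hg : (g : ℤ) = 2 * J + 3)
    (hM : d - (J + 1) * 1 ∉ AP 1 (J + 1))
    (hP : P = insert (d - (J + 1) * 1) (AP 1 (J + 1))) : False := by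
  set M : ℤ := d - (J + 1) with hMdef
  have hmP : ∀ x, x ∈ P ↔ x = M ∨ (0 ≤ x ∧ x ≤ J) := by
    intro x
    rw [hP, mem_insert, mem_AP, mul_one]
    constructor
    · rintro (h1 | ⟨j, hj, h1⟩)
      · exact Or.inl h1
      · right
        rw [mul_one] at h1
        omega
    · rintro (h1 | ⟨h1, h2⟩)
      · exact Or.inl h1
      · right
        refine ⟨x.toNat, by omega, ?_⟩
        rw [Int.toNat_of_nonneg h1]
        ring
  have MP : M ∈ P := (hmP M).2 (Or.inl rfl)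
  have hMpos : 0 ≤ M := (H.hA M (H.PA M MP)).1
  have hMJ : (J : ℤ) < M := by
    by_contra hle
    apply hM
    rw [mem_AP]
    refine ⟨M.toNat, by omega, ?_⟩
    rw [Int.toNat_of_nonneg hMpos]
    linarith
  have hdle := h.d_le
  have hMg : M ≤ 3 * J + 5 := by linarith
  -- queens
  have hq : ∀ q ∈ Q, |q.2 - q.1| ∈ P ∧ |q.1 + q.2 - d| ∈ P := by
    intro q hq
    constructor
    · have h1 : q.2 - q.1 ∈ U := by
        rw [h.hU]
        exact mem_image.2 ⟨q, hq, rfl⟩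
      have := (hU _).1 h1
      rwa [sub_zero] at this
    · have h1 : q.1 + q.2 ∈ V := by
        rw [h.hV]
        exact mem_image.2 ⟨q, hq, rfl⟩
      exact (hV _).1 h1
  have row : ∀ y : ℤ, r ≤ y → y ≤ r + 2 * g → y ∉ A → ∃ q ∈ Q, q.2 = y := by
    intro y h1 h2 h3
    by_contra hcon
    push Not at hcon
    apply h3
    rw [hAB, h.memB]
    exact ⟨⟨h1, h2⟩, hcon⟩
  by_cases hlt : d < 2 * g
  · have hd4 : d ≤ 4 * J + 4 := by omega
    obtain ⟨q, hq1, hq2⟩ := row (e + g) (by omega) (by omega) (by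
      intro h1
      have := (H.hA _ h1).2
      omega)
    obtain ⟨q', hq1', hq2'⟩ := row (e - g) (by omega) (by omega) (by
      intro h1
      have := (H.hA _ h1).1
      omega)
    have k1 := hq q hq1
    have k2 := hq q' hq1'
    rw [hmP, hmP] at k1
    rw [hmP, hmP] at k2
    have : q = q' := by
      apply h.injX q hq1 q' hq1'
      obtain ⟨k1a, k1b⟩ := k1
      obtain ⟨k2a, k2b⟩ := k2
      have a1 := abs_cases (q.2 - q.1)
      have a2 := abs_cases (q.1 + q.2 - d)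
      have a3 := abs_cases (q'.2 - q'.1)
      have a4 := abs_cases (q'.1 + q'.2 - d)
      omega
    rw [this] at hq2
    omega
  · have hd6 : d = 4 * J + 6 := by omega
    obtain ⟨q, hq1, hq2⟩ := row (J + 2) (by omega) (by omega) (by
      intro h1
      rcases (H.A1 _).1 h1 with h2 | h2
      · rw [hmP] at h2
        omega
      · rw [hmP] at h2
        omega)
    have k1 := hq q hq1
    rw [hmP, hmP] at k1
    obtain ⟨k1a, k1b⟩ := k1
    have a1 := abs_cases (q.2 - q.1)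
    have a2 := abs_cases (q.1 + q.2 - d)
    omega

end

end Pool.Agent.U411.Queens
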