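import Pool.Agent.U411.Queens.Setup

set_option autoImplicit false

namespace Pool.Agent.U411.Queens

open Finset

/-- indicator of even integers -/
def ind (a : ℤ) : ℤ := if Even a then 1 else 0

theorem ind_neg (a : ℤ) : ind (-a) = ind a := by
  unfold ind
  simp

theorem ind_even_sub {d : ℤ} (hd : Even d) (a : ℤ) : ind (d - a) = ind a := by
  unfold ind
  have : Even (d - a) ↔ Even a := by
    rw [Int.even_sub]
    simp [hd]
  simp [this]

theorem ind_sub_even {d : ℤ} (hd : Even d) (a : ℤ) : ind (a - d) = ind a := by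
  unfold ind
  have : Even (a - d) ↔ Even a := by
    rw [Int.even_sub]
    simp [hd]
  simp [this]

theorem ind_add_even {d : ℤ} (hd : Even d) (a : ℤ) : ind (d + a) = ind a := by
  unfold ind
  have : Even (d + a) ↔ Even a := by
    rw [Int.even_add]
    simp [hd]
  simp [this]

theorem ind_odd_sub {d : ℤ} (hd : ¬ Even d) (a : ℤ) : ind (d - a) = 1 - ind a := by
  unfold ind
  have : Even (d - a) ↔ ¬ Even a := by
    rw [Int.even_sub]
    simp [hd]
  by_cases h : Even a <;> simp [this, h]

theorem ind_sub_odd {d : ℤ} (hd : ¬ Even d) (a : ℤ) : ind (a - d) = 1 - ind a := by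
  unfold ind
  have : Even (a - d) ↔ ¬ Even a := by
    rw [Int.even_sub]
    simp [hd]
  by_cases h : Even a <;> simp [this, h]

theorem sum_ind (S : Finset ℤ) : ∑ a ∈ S, ind a = ((S.filter (fun x => Even x)).card : ℤ) := by
  unfold ind
  rw [card_filter]
  push_cast
  rfl

/-- splitting a sum at a point of the set -/
theorem sum_le_ge {S : Finset ℤ} {z : ℤ} (hz : z ∈ S) (w : ℤ → ℤ) :
    ∑ x ∈ S.filter (· ≤ z), w x + ∑ x ∈ S.filter (z ≤ ·), w x = ∑ x ∈ S, w x + w z := by
  have h := sum_union_inter (s₁ := S.filter (· ≤ z)) (s₂ := S.filter (z ≤ ·)) (f := w)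
  have h1 : S.filter (· ≤ z) ∪ S.filter (z ≤ ·) = S := by
    ext x
    simp only [mem_union, mem_filter]
    constructor
    · rintro (h | h)
      · exact h.1
      · exact h.1
    · intro hx
      rcases le_total x z with h | h
      · exact Or.inl ⟨hx, h⟩
      · exact Or.inr ⟨hx, h⟩
  have h2 : S.filter (· ≤ z) ∩ S.filter (z ≤ ·) = {z} := by
    ext x
    simp only [mem_inter, mem_filter, mem_singleton]
    constructor
    · rintro ⟨⟨-, h3⟩, -, h4⟩
      omega
    · rintro rfl
      exact ⟨⟨hz, le_refl _⟩, hz, le_refl _⟩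
  rw [h1, h2, sum_singleton] at h
  linarith

theorem sum_one (S : Finset ℤ) : ∑ _a ∈ S, (1 : ℤ) = (S.card : ℤ) := by simp

section
variable {g : ℕ} {d c r : ℤ} {A B U V : Finset ℤ} {Q : Finset (ℤ × ℤ)}

/-- the four side identities in the standard position -/
theorem Dat.sb (h : Dat g d c r A B U V Q) (w : ℤ → ℤ) :
    ∑ a ∈ A, w a = ∑ u ∈ U.filter (· ≤ 0), w (-u) + ∑ v ∈ V.filter (· ≤ d), w v := by
  have := h.ring.sb w
  simpa using this

theorem Dat.st (h : Dat g d c r A B U V Q) (w : ℤ → ℤ) :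
    ∑ a ∈ A, w a = ∑ u ∈ U.filter (0 ≤ ·), w (d - u) + ∑ v ∈ V.filter (d ≤ ·), w (v - d) := by
  have := h.ring.st w
  simpa using this

theorem Dat.sl (h : Dat g d c r A B U V Q) (w : ℤ → ℤ) :
    ∑ a ∈ B, w a = ∑ u ∈ U.filter (0 ≤ ·), w u + ∑ v ∈ V.filter (· ≤ d), w v := by
  have := h.ring.sl w
  simpa using this

theorem Dat.sr (h : Dat g d c r A B U V Q) (w : ℤ → ℤ) :
    ∑ a ∈ B, w a = ∑ u ∈ U.filter (· ≤ 0), w (d + u) + ∑ v ∈ V.filter (d ≤ ·), w (v - d) := by
  have := h.ring.sr w
  simpa using this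

theorem Dat.U0 (h : Dat g d c r A B U V Q) : (0 : ℤ) ∈ U := by simpa using h.ring.hU0
theorem Dat.Vd (h : Dat g d c r A B U V Q) : d ∈ V := by simpa using h.ring.hV0

theorem Dat.cards (h : Dat g d c r A B U V Q) :
    (U.filter (· ≤ 0)).card = (U.filter (0 ≤ ·)).card ∧
    (V.filter (· ≤ d)).card = (V.filter (d ≤ ·)).card ∧
    g + 1 = 2 * (U.filter (0 ≤ ·)).card ∧ g + 1 = 2 * (V.filter (d ≤ ·)).card := by
  have h1 := h.sb (fun _ => 1)
  have h2 := h.st (fun _ => 1)
  have h3 := h.sl (fun _ => 1)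
  have h4 := h.sr (fun _ => 1)
  have h5 := sum_le_ge h.U0 (fun _ => 1)
  have h6 := sum_le_ge h.Vd (fun _ => 1)
  simp only [sum_one] at h1 h2 h3 h4 h5 h6
  have e1 := h.cardA
  have e2 := h.cardB
  have e3 := h.cardU
  have e4 := h.cardV
  omega

theorem Dat.indUV (h : Dat g d c r A B U V Q) : ∑ u ∈ U, ind u = ∑ v ∈ V, ind v := by
  rw [h.sumU, h.sumV]
  apply sum_congr rfl
  intro q _
  unfold ind
  have : Even (q.2 - q.1) ↔ Even (q.1 + q.2) := by
    rw [Int.even_sub, Int.even_add]
    tauto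
  simp [this]

theorem Dat.even_d (h : Dat g d c r A B U V Q) : Even d := by
  by_contra hd
  have h1 := h.sb ind
  have h2 := h.st ind
  have h5 := sum_le_ge h.U0 ind
  have h6 := sum_le_ge h.Vd ind
  simp only [ind_neg, ind_odd_sub hd, ind_sub_odd hd, sum_sub_distrib, sum_one] at h1 h2
  have e0 : ind 0 = 1 := by simp [ind]
  have e1 : ind d = 0 := by simp [ind, hd]
  have h7 := h.indUV
  obtain ⟨c1, c2, c3, c4⟩ := h.cards
  rw [e0] at h5
  rw [e1] at h6
  omega

theorem Dat.ind_counts (h : Dat g d c r A B U V Q) :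
    ∑ u ∈ U.filter (· ≤ 0), ind u = ∑ u ∈ U.filter (0 ≤ ·), ind u ∧
    ∑ v ∈ V.filter (· ≤ d), ind v = ∑ v ∈ V.filter (d ≤ ·), ind v ∧
    ∑ a ∈ A, ind a = ∑ u ∈ U, ind u + 1 ∧ ∑ a ∈ B, ind a = ∑ u ∈ U, ind u + 1 := by
  have hd := h.even_d
  have h1 := h.sb ind
  have h2 := h.st ind
  have h3 := h.sl ind
  have h4 := h.sr ind
  have h5 := sum_le_ge h.U0 ind
  have h6 := sum_le_ge h.Vd ind
  simp only [ind_neg, ind_even_sub hd, ind_sub_even hd, ind_add_even hd] at h1 h2 h3 h4
  have e0 : ind 0 = 1 := by simp [ind]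
  have e1 : ind d = 1 := by simp [ind, hd]
  have h7 := h.indUV
  rw [e0] at h5
  rw [e1] at h6
  omega

end

theorem card_even_add_odd (S : Finset ℤ) :
    (S.filter (fun x => Even x)).card + (S.filter (fun x => Odd x)).card = S.card := by
  have h := card_filter_add_card_filter_not (s := S) (fun x : ℤ => Even x)
  simp only [Int.not_even_iff_odd] at h
  exact h

section
variable {g : ℕ} {d c r : ℤ} {A B U V : Finset ℤ} {Q : Finset (ℤ × ℤ)}

/-- All the counting information about the parity classes. -/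
theorem Dat.classes (h : Dat g d c r A B U V Q) :
    (A.filter (fun x => Even x)).card = (U.filter (fun x => Even x)).card + 1 ∧
    (B.filter (fun x => Even x)).card = (U.filter (fun x => Even x)).card + 1 ∧
    (V.filter (fun x => Even x)).card = (U.filter (fun x => Even x)).card ∧
    (A.filter (fun x => Odd x)).card = (U.filter (fun x => Odd x)).card ∧
    (B.filter (fun x => Odd x)).card = (U.filter (fun x => Odd x)).card ∧
    (V.filter (fun x => Odd x)).card = (U.filter (fun x => Odd x)).card ∧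
    ((U.filter (fun x => Even x)).filter (· ≤ 0)).card =
      ((U.filter (fun x => Even x)).filter (0 ≤ ·)).card ∧
    ((V.filter (fun x => Even x)).filter (· ≤ d)).card =
      ((V.filter (fun x => Even x)).filter (d ≤ ·)).card ∧
    (U.filter (fun x => Even x)).card + 1 =
      2 * ((U.filter (fun x => Even x)).filter (0 ≤ ·)).card := by
  obtain ⟨h1, h2, h3, h4⟩ := h.ind_counts
  have h5 := h.indUV
  have e1 := card_even_add_odd A
  have e2 := card_even_add_odd B
  have e3 := card_even_add_odd U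
  have e4 := card_even_add_odd V
  have f1 := h.cardA
  have f2 := h.cardB
  have f3 := h.cardU
  have f4 := h.cardV
  have h6 := sum_le_ge h.U0 ind
  have e0 : ind 0 = 1 := by simp [ind]
  rw [e0] at h6
  simp only [sum_ind] at h1 h2 h3 h4 h5 h6
  have k1 : ((U.filter (fun x => Even x)).filter (· ≤ 0)) =
      (U.filter (· ≤ 0)).filter (fun x => Even x) := by
    rw [filter_comm]
  have k2 : ((U.filter (fun x => Even x)).filter (0 ≤ ·)) =
      (U.filter (0 ≤ ·)).filter (fun x => Even x) := by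
    rw [filter_comm]
  have k3 : ((V.filter (fun x => Even x)).filter (· ≤ d)) =
      (V.filter (· ≤ d)).filter (fun x => Even x) := by
    rw [filter_comm]
  have k4 : ((V.filter (fun x => Even x)).filter (d ≤ ·)) =
      (V.filter (d ≤ ·)).filter (fun x => Even x) := by
    rw [filter_comm]
  rw [k1, k2, k3, k4]
  omega

end

end Pool.Agent.U411.Queens
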