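import Mathlib

set_option autoImplicit false

namespace Pool.Agent.U411.Queens

open Finset

/-- A cover by two sets whose sizes add up to at most that of the covered set is exact. -/
theorem eq_union_of_card {A X Y : Finset ℤ} (h : A ⊆ X ∪ Y) (hc : X.card + Y.card ≤ A.card) :
    A = X ∪ Y ∧ Disjoint X Y := by
  have h1 : (X ∪ Y).card ≤ X.card + Y.card := card_union_le X Y
  have h2 : A.card ≤ (X ∪ Y).card := card_le_card h
  have h3 : A = X ∪ Y := eq_of_subset_of_card_le h (by omega)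
  refine ⟨h3, ?_⟩
  rw [← card_union_eq_card_add_card]
  omega

/-- Consequences of equality in the ring inequality. -/
structure RingEq (A B U V : Finset ℤ) (a0 a1 b0 b1 : ℤ) : Prop where
  hU0 : b0 - a0 ∈ U
  hU1 : b1 - a1 ∈ U
  hV0 : a1 + b0 ∈ V
  hV1 : a0 + b1 ∈ V
  bot : ∀ a, a ∈ A ↔ (a0 ≤ a ∧ b0 - a ∈ U) ∨ (a ≤ a1 ∧ a + b0 ∈ V)
  bot' : ∀ a, a0 ≤ a → b0 - a ∈ U → a ≤ a1 → a + b0 ∈ V → False
  top : ∀ a, a ∈ A ↔ (a ≤ a1 ∧ b1 - a ∈ U) ∨ (a0 ≤ a ∧ a + b1 ∈ V)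
  top' : ∀ a, a ≤ a1 → b1 - a ∈ U → a0 ≤ a → a + b1 ∈ V → False
  left : ∀ b, b ∈ B ↔ (b0 ≤ b ∧ b - a0 ∈ U) ∨ (b ≤ b1 ∧ a0 + b ∈ V)
  left' : ∀ b, b0 ≤ b → b - a0 ∈ U → b ≤ b1 → a0 + b ∈ V → False
  right : ∀ b, b ∈ B ↔ (b ≤ b1 ∧ b - a1 ∈ U) ∨ (b0 ≤ b ∧ a1 + b ∈ V)
  right' : ∀ b, b ≤ b1 → b - a1 ∈ U → b0 ≤ b → a1 + b ∈ V → False
  sb : ∀ w : ℤ → ℤ, ∑ a ∈ A, w a =
    ∑ u ∈ U.filter (· ≤ b0 - a0), w (b0 - u) + ∑ v ∈ V.filter (· ≤ a1 + b0), w (v - b0)
  st : ∀ w : ℤ → ℤ, ∑ a ∈ A, w a =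
    ∑ u ∈ U.filter (b1 - a1 ≤ ·), w (b1 - u) + ∑ v ∈ V.filter (a0 + b1 ≤ ·), w (v - b1)
  sl : ∀ w : ℤ → ℤ, ∑ b ∈ B, w b =
    ∑ u ∈ U.filter (b0 - a0 ≤ ·), w (a0 + u) + ∑ v ∈ V.filter (· ≤ a0 + b1), w (v - a0)
  sr : ∀ w : ℤ → ℤ, ∑ b ∈ B, w b =
    ∑ u ∈ U.filter (· ≤ b1 - a1), w (a1 + u) + ∑ v ∈ V.filter (a1 + b0 ≤ ·), w (v - a1)

theorem card_side {A X Y : Finset ℤ} {f g : ℤ → ℤ}
    (h : A ⊆ X.image f ∪ Y.image g) : A.card ≤ X.card + Y.card :=
  (card_le_card h).trans ((card_union_le _ _).trans (Nat.add_le_add card_image_le card_image_le))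

theorem side_eq {A X Y : Finset ℤ} {f g : ℤ → ℤ} (hf : Function.Injective f)
    (hg : Function.Injective g) (h : A ⊆ X.image f ∪ Y.image g)
    (hc : X.card + Y.card ≤ A.card) :
    A = X.image f ∪ Y.image g ∧ Disjoint (X.image f) (Y.image g) ∧
      ∀ w : ℤ → ℤ, ∑ a ∈ A, w a = ∑ x ∈ X, w (f x) + ∑ y ∈ Y, w (g y) := by
  have h1 : (X.image f).card = X.card := card_image_of_injective _ hf
  have h2 : (Y.image g).card = Y.card := card_image_of_injective _ hg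
  obtain ⟨h3, h4⟩ := eq_union_of_card h (by omega)
  refine ⟨h3, h4, fun w => ?_⟩
  rw [h3, sum_union h4, sum_image (fun a _ b _ hab => hf hab),
    sum_image (fun a _ b _ hab => hg hab)]

theorem card_le_ge (S : Finset ℤ) (z : ℤ) :
    (S.filter (· ≤ z)).card + (S.filter (z ≤ ·)).card ≤ S.card + 1 ∧
      (z ∉ S → (S.filter (· ≤ z)).card + (S.filter (z ≤ ·)).card ≤ S.card) := by
  have h := card_union_add_card_inter (S.filter (· ≤ z)) (S.filter (z ≤ ·))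
  have h1 : (S.filter (· ≤ z) ∪ S.filter (z ≤ ·)).card ≤ S.card :=
    card_le_card (union_subset (filter_subset _ _) (filter_subset _ _))
  have h2 : S.filter (· ≤ z) ∩ S.filter (z ≤ ·) ⊆ {z} := by
    intro x hx
    simp only [mem_inter, mem_filter] at hx
    simp only [mem_singleton]
    omega
  have h3 : (S.filter (· ≤ z) ∩ S.filter (z ≤ ·)).card ≤ 1 := by
    simpa using card_le_card h2
  refine ⟨by omega, fun hz => ?_⟩
  have h4 : S.filter (· ≤ z) ∩ S.filter (z ≤ ·) = ∅ := by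
    ext x
    simp only [mem_inter, mem_filter, notMem_empty, iff_false]
    rintro ⟨⟨hx, h5⟩, -, h6⟩
    have : x = z := le_antisymm h5 h6
    exact hz (this ▸ hx)
  rw [h4, card_empty] at h
  omega

theorem card_le_ge_disj (S : Finset ℤ) {y z : ℤ} (hyz : y < z) :
    (S.filter (· ≤ y)).card + (S.filter (z ≤ ·)).card ≤ S.card := by
  have h := card_union_add_card_inter (S.filter (· ≤ y)) (S.filter (z ≤ ·))
  have h1 : (S.filter (· ≤ y) ∪ S.filter (z ≤ ·)).card ≤ S.card :=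
    card_le_card (union_subset (filter_subset _ _) (filter_subset _ _))
  have h4 : S.filter (· ≤ y) ∩ S.filter (z ≤ ·) = ∅ := by
    ext x
    simp only [mem_inter, mem_filter, notMem_empty, iff_false]
    rintro ⟨⟨hx, h5⟩, -, h6⟩
    omega
  rw [h4, card_empty] at h
  omega

/-- The ring lemma: four sides of the bounding box of `A × B`. -/
theorem ring_sides {A B U V : Finset ℤ} {a0 a1 b0 b1 : ℤ}
    (hA : ∀ a ∈ A, a0 ≤ a ∧ a ≤ a1) (ha0 : a0 ∈ A) (ha1 : a1 ∈ A)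
    (hB : ∀ b ∈ B, b0 ≤ b ∧ b ≤ b1) (hb0 : b0 ∈ B) (hb1 : b1 ∈ B)
    (cov : ∀ a ∈ A, ∀ b ∈ B, b - a ∈ U ∨ a + b ∈ V) :
    (A ⊆ (U.filter (· ≤ b0 - a0)).image (fun u => b0 - u) ∪
        (V.filter (· ≤ a1 + b0)).image (fun v => v - b0)) ∧
    (A ⊆ (U.filter (b1 - a1 ≤ ·)).image (fun u => b1 - u) ∪
        (V.filter (a0 + b1 ≤ ·)).image (fun v => v - b1)) ∧
    (B ⊆ (U.filter (b0 - a0 ≤ ·)).image (fun u => a0 + u) ∪
        (V.filter (· ≤ a0 + b1)).image (fun v => v - a0)) ∧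
    (B ⊆ (U.filter (· ≤ b1 - a1)).image (fun u => a1 + u) ∪
        (V.filter (a1 + b0 ≤ ·)).image (fun v => v - a1)) := by
  refine ⟨?_, ?_, ?_, ?_⟩
  · intro a ha
    have h1 := hA a ha
    rcases cov a ha b0 hb0 with h | h
    · refine mem_union_left _ (mem_image.2 ⟨b0 - a, mem_filter.2 ⟨h, ?_⟩, ?_⟩)
      · omega
      · ring
    · refine mem_union_right _ (mem_image.2 ⟨a + b0, mem_filter.2 ⟨h, ?_⟩, ?_⟩)
      · omega
      · ring
  · intro a ha
    have h1 := hA a ha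
    rcases cov a ha b1 hb1 with h | h
    · refine mem_union_left _ (mem_image.2 ⟨b1 - a, mem_filter.2 ⟨h, ?_⟩, ?_⟩)
      · omega
      · ring
    · refine mem_union_right _ (mem_image.2 ⟨a + b1, mem_filter.2 ⟨h, ?_⟩, ?_⟩)
      · omega
      · ring
  · intro b hb
    have h1 := hB b hb
    rcases cov a0 ha0 b hb with h | h
    · refine mem_union_left _ (mem_image.2 ⟨b - a0, mem_filter.2 ⟨h, ?_⟩, ?_⟩)
      · omega
      · ring
    · refine mem_union_right _ (mem_image.2 ⟨a0 + b, mem_filter.2 ⟨h, ?_⟩, ?_⟩)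
      · omega
      · ring
  · intro b hb
    have h1 := hB b hb
    rcases cov a1 ha1 b hb with h | h
    · refine mem_union_left _ (mem_image.2 ⟨b - a1, mem_filter.2 ⟨h, ?_⟩, ?_⟩)
      · omega
      · ring
    · refine mem_union_right _ (mem_image.2 ⟨a1 + b, mem_filter.2 ⟨h, ?_⟩, ?_⟩)
      · omega
      · ring

theorem ring_ineq {A B U V : Finset ℤ} {a0 a1 b0 b1 : ℤ}
    (hA : ∀ a ∈ A, a0 ≤ a ∧ a ≤ a1) (ha0 : a0 ∈ A) (ha1 : a1 ∈ A)
    (hB : ∀ b ∈ B, b0 ≤ b ∧ b ≤ b1) (hb0 : b0 ∈ B) (hb1 : b1 ∈ B)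
    (cov : ∀ a ∈ A, ∀ b ∈ B, b - a ∈ U ∨ a + b ∈ V) :
    A.card + B.card ≤ U.card + V.card + 2 := by
  obtain ⟨h1, h2, h3, h4⟩ := ring_sides hA ha0 ha1 hB hb0 hb1 cov
  have c1 := card_side h1
  have c2 := card_side h2
  have c3 := card_side h3
  have c4 := card_side h4
  have d1 := (card_le_ge U (b0 - a0)).1
  have d2 := (card_le_ge U (b1 - a1)).1
  have d3 := (card_le_ge V (a1 + b0)).1
  have d4 := (card_le_ge V (a0 + b1)).1
  omega

theorem ring_square {A B U V : Finset ℤ} {a0 a1 b0 b1 : ℤ}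
    (hA : ∀ a ∈ A, a0 ≤ a ∧ a ≤ a1) (ha0 : a0 ∈ A) (ha1 : a1 ∈ A)
    (hB : ∀ b ∈ B, b0 ≤ b ∧ b ≤ b1) (hb0 : b0 ∈ B) (hb1 : b1 ∈ B)
    (cov : ∀ a ∈ A, ∀ b ∈ B, b - a ∈ U ∨ a + b ∈ V)
    (hcA : U.card + V.card < 2 * A.card) (hcB : U.card + V.card < 2 * B.card) :
    a1 - a0 = b1 - b0 := by
  obtain ⟨h1, h2, h3, h4⟩ := ring_sides hA ha0 ha1 hB hb0 hb1 cov
  have c1 := card_side h1
  have c2 := card_side h2
  have c3 := card_side h3
  have c4 := card_side h4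
  rcases lt_trichotomy (a1 - a0) (b1 - b0) with h | h | h
  · exfalso
    have e1 := card_le_ge_disj U (y := b0 - a0) (z := b1 - a1) (by omega)
    have e2 := card_le_ge_disj V (y := a1 + b0) (z := a0 + b1) (by omega)
    omega
  · exact h
  · exfalso
    have e1 := card_le_ge_disj U (y := b1 - a1) (z := b0 - a0) (by omega)
    have e2 := card_le_ge_disj V (y := a0 + b1) (z := a1 + b0) (by omega)
    omega

theorem ring_eq {A B U V : Finset ℤ} {a0 a1 b0 b1 : ℤ}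
    (hA : ∀ a ∈ A, a0 ≤ a ∧ a ≤ a1) (ha0 : a0 ∈ A) (ha1 : a1 ∈ A)
    (hB : ∀ b ∈ B, b0 ≤ b ∧ b ≤ b1) (hb0 : b0 ∈ B) (hb1 : b1 ∈ B)
    (cov : ∀ a ∈ A, ∀ b ∈ B, b - a ∈ U ∨ a + b ∈ V)
    (hc : U.card + V.card + 2 ≤ A.card + B.card) :
    RingEq A B U V a0 a1 b0 b1 := by
  obtain ⟨h1, h2, h3, h4⟩ := ring_sides hA ha0 ha1 hB hb0 hb1 cov
  have c1 := card_side h1
  have c2 := card_side h2
  have c3 := card_side h3
  have c4 := card_side h4
  have d1 := card_le_ge U (b0 - a0)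
  have d2 := card_le_ge U (b1 - a1)
  have d3 := card_le_ge V (a1 + b0)
  have d4 := card_le_ge V (a0 + b1)
  have inj1 : ∀ c : ℤ, Function.Injective (fun u : ℤ => c - u) := fun c x y hxy => by
    simpa using hxy
  have inj2 : ∀ c : ℤ, Function.Injective (fun u : ℤ => u - c) := fun c x y hxy => by
    simpa using hxy
  have inj3 : ∀ c : ℤ, Function.Injective (fun u : ℤ => c + u) := fun c x y hxy => by
    simpa using hxy
  obtain ⟨E1, D1, S1⟩ := side_eq (inj1 b0) (inj2 b0) h1 (by omega)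
  obtain ⟨E2, D2, S2⟩ := side_eq (inj1 b1) (inj2 b1) h2 (by omega)
  obtain ⟨E3, D3, S3⟩ := side_eq (inj3 a0) (inj2 a0) h3 (by omega)
  obtain ⟨E4, D4, S4⟩ := side_eq (inj3 a1) (inj2 a1) h4 (by omega)
  have hU0 : b0 - a0 ∈ U := by
    by_contra hne
    have := d1.2 hne
    omega
  have hU1 : b1 - a1 ∈ U := by
    by_contra hne
    have := d2.2 hne
    omega
  have hV0 : a1 + b0 ∈ V := by
    by_contra hne
    have := d3.2 hne
    omega
  have hV1 : a0 + b1 ∈ V := by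
    by_contra hne
    have := d4.2 hne
    omega
  refine ⟨hU0, hU1, hV0, hV1, ?_, ?_, ?_, ?_, ?_, ?_, ?_, ?_, S1, S2, S3, S4⟩
  · intro a
    constructor
    · intro ha
      have h5 := hA a ha
      rcases cov a ha b0 hb0 with h | h
      · exact Or.inl ⟨h5.1, h⟩
      · exact Or.inr ⟨h5.2, h⟩
    · rintro (⟨h5, h6⟩ | ⟨h5, h6⟩)
      · rw [E1]
        exact mem_union_left _ (mem_image.2 ⟨b0 - a, mem_filter.2 ⟨h6, by omega⟩, by ring⟩)
      · rw [E1]
        exact mem_union_right _ (mem_image.2 ⟨a + b0, mem_filter.2 ⟨h6, by omega⟩, by ring⟩)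
  · intro a h5 h6 h7 h8
    exact disjoint_left.1 D1 (mem_image.2 ⟨b0 - a, mem_filter.2 ⟨h6, by omega⟩, by ring⟩)
      (mem_image.2 ⟨a + b0, mem_filter.2 ⟨h8, by omega⟩, by ring⟩ : a ∈ _)
  · intro a
    constructor
    · intro ha
      have h5 := hA a ha
      rcases cov a ha b1 hb1 with h | h
      · exact Or.inl ⟨h5.2, h⟩
      · exact Or.inr ⟨h5.1, h⟩
    · rintro (⟨h5, h6⟩ | ⟨h5, h6⟩)
      · rw [E2]
        exact mem_union_left _ (mem_image.2 ⟨b1 - a, mem_filter.2 ⟨h6, by omega⟩, by ring⟩)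
      · rw [E2]
        exact mem_union_right _ (mem_image.2 ⟨a + b1, mem_filter.2 ⟨h6, by omega⟩, by ring⟩)
  · intro a h5 h6 h7 h8
    exact disjoint_left.1 D2 (mem_image.2 ⟨b1 - a, mem_filter.2 ⟨h6, by omega⟩, by ring⟩)
      (mem_image.2 ⟨a + b1, mem_filter.2 ⟨h8, by omega⟩, by ring⟩ : a ∈ _)
  · intro b
    constructor
    · intro hb
      have h5 := hB b hb
      rcases cov a0 ha0 b hb with h | h
      · exact Or.inl ⟨h5.1, h⟩
      · exact Or.inr ⟨h5.2, h⟩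
    · rintro (⟨h5, h6⟩ | ⟨h5, h6⟩)
      · rw [E3]
        exact mem_union_left _ (mem_image.2 ⟨b - a0, mem_filter.2 ⟨h6, by omega⟩, by ring⟩)
      · rw [E3]
        exact mem_union_right _ (mem_image.2 ⟨a0 + b, mem_filter.2 ⟨h6, by omega⟩, by ring⟩)
  · intro b h5 h6 h7 h8
    exact disjoint_left.1 D3 (mem_image.2 ⟨b - a0, mem_filter.2 ⟨h6, by omega⟩, by ring⟩)
      (mem_image.2 ⟨a0 + b, mem_filter.2 ⟨h8, by omega⟩, by ring⟩ : b ∈ _)
  · intro b
    constructor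
    · intro hb
      have h5 := hB b hb
      rcases cov a1 ha1 b hb with h | h
      · exact Or.inl ⟨h5.2, h⟩
      · exact Or.inr ⟨h5.1, h⟩
    · rintro (⟨h5, h6⟩ | ⟨h5, h6⟩)
      · rw [E4]
        exact mem_union_left _ (mem_image.2 ⟨b - a1, mem_filter.2 ⟨h6, by omega⟩, by ring⟩)
      · rw [E4]
        exact mem_union_right _ (mem_image.2 ⟨a1 + b, mem_filter.2 ⟨h6, by omega⟩, by ring⟩)
  · intro b h5 h6 h7 h8
    exact disjoint_left.1 D4 (mem_image.2 ⟨b - a1, mem_filter.2 ⟨h6, by omega⟩, by ring⟩)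
      (mem_image.2 ⟨a1 + b, mem_filter.2 ⟨h8, by omega⟩, by ring⟩ : b ∈ _)

/-- The median of a finite set of integers is unique. -/
theorem median_unique {S : Finset ℤ} {x y : ℤ} (hx : x ∈ S) (hy : y ∈ S)
    (h1 : (S.filter (· ≤ x)).card = (S.filter (x ≤ ·)).card)
    (h2 : (S.filter (· ≤ y)).card = (S.filter (y ≤ ·)).card) : x = y := by
  have key : ∀ {x y : ℤ}, x ∈ S → y ∈ S → x < y →
      (S.filter (· ≤ x)).card = (S.filter (x ≤ ·)).card →
      (S.filter (· ≤ y)).card = (S.filter (y ≤ ·)).card → False := by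
    intro x y hx hy hxy h1 h2
    have e1 : (S.filter (· ≤ x)).card < (S.filter (· ≤ y)).card := by
      apply card_lt_card
      rw [ssubset_iff_of_subset]
      · exact ⟨y, mem_filter.2 ⟨hy, le_refl _⟩, fun h => by
          have := (mem_filter.1 h).2
          omega⟩
      · intro z hz
        have h3 := mem_filter.1 hz
        exact mem_filter.2 ⟨h3.1, by omega⟩
    have e2 : (S.filter (y ≤ ·)).card < (S.filter (x ≤ ·)).card := by
      apply card_lt_card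
      rw [ssubset_iff_of_subset]
      · exact ⟨x, mem_filter.2 ⟨hx, le_refl _⟩, fun h => by
          have := (mem_filter.1 h).2
          omega⟩
      · intro z hz
        have h3 := mem_filter.1 hz
        exact mem_filter.2 ⟨h3.1, by omega⟩
    omega
  rcases lt_trichotomy x y with h | h | h
  · exact (key hx hy h h1 h2).elim
  · exact h
  · exact (key hy hx h h2 h1).elim

/-- The shift lemma. -/
theorem shift_lemma {X Y X' Y' : ℤ → Prop} {t D : ℤ} (ht : 0 < t) (hD : ∀ x, X x → x ≤ D)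
    (h2 : ∀ x, X x → ¬ X' x → Y' (x + 2 * t))
    (h3 : ∀ x, Y' x → X x ∨ Y x)
    (h4 : ∀ x, X x → ¬ Y (x + 2 * t))
    (h5 : ∀ x, X' x → ¬ Y' x) : ∀ x, X x → X' x := by
  have key : ∀ n : ℕ, ∀ x, D - x < n → X x → X' x := by
    intro n
    induction n with
    | zero =>
      intro x hx hX
      have := hD x hX
      simp at hx
      omega
    | succ n ih =>
      intro x hx hX
      by_contra hne
      have e1 := h2 x hX hne
      have e2 : X (x + 2 * t) := by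
        rcases h3 _ e1 with h | h
        · exact h
        · exact (h4 x hX h).elim
      have e3 := ih (x + 2 * t) (by push_cast at hx; omega) e2
      exact h5 _ e3 e1
  intro x hX
  exact key (D - x + 1).toNat x (by
    have := hD x hX
    have h6 : ((D - x + 1).toNat : ℤ) = D - x + 1 := Int.toNat_of_nonneg (by omega)
    omega) hX

end Pool.Agent.U411.Queens
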