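import Mathlib

set_option autoImplicit false

namespace Pool.Agent.U411.Queens

open Finset

/-- the symmetric progression `−(k−1), −(k−3), …, k−1` -/
def SP (k : ℕ) : Finset ℤ := (range k).image (fun j : ℕ => 2 * (j : ℤ) - ((k : ℤ) - 1))

theorem sum_SP (k : ℕ) (F : ℤ → ℤ) :
    ∑ x ∈ SP k, F x = ∑ j ∈ range k, F (2 * (j : ℤ) - ((k : ℤ) - 1)) := by
  unfold SP
  rw [sum_image]
  intro a _ b _ h
  simp only at h
  omega

theorem mem_SP {k : ℕ} {x : ℤ} : x ∈ SP k ↔ |x| ≤ (k : ℤ) - 1 ∧ Even (x - ((k : ℤ) - 1)) := by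
  unfold SP
  rw [mem_image]
  constructor
  · rintro ⟨j, hj, rfl⟩
    rw [mem_range] at hj
    refine ⟨abs_le.2 ⟨by omega, by omega⟩, ⟨(j : ℤ) - ((k : ℤ) - 1), by ring⟩⟩
  · rintro ⟨h1, ⟨y, hy⟩⟩
    rw [abs_le] at h1
    refine ⟨(y + (k - 1)).toNat, ?_, ?_⟩
    · rw [mem_range]
      omega
    · rw [Int.toNat_of_nonneg (by omega)]
      linarith

theorem sum_SP_step (k : ℕ) (F : ℤ → ℤ) :
    ∑ x ∈ SP (k + 2), F x = ∑ x ∈ SP k, F x + F ((k : ℤ) + 1) + F (-((k : ℤ) + 1)) := by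
  rw [sum_SP, sum_SP, sum_range_succ, sum_range_succ']
  have e : ∀ j ∈ range k, F (2 * ((j + 1 : ℕ) : ℤ) - (((k + 2 : ℕ) : ℤ) - 1)) =
      F (2 * (j : ℤ) - ((k : ℤ) - 1)) := by
    intro j _
    congr 1
    push_cast
    ring
  rw [sum_congr rfl e]
  have e1 : 2 * ((0 : ℕ) : ℤ) - (((k + 2 : ℕ) : ℤ) - 1) = -((k : ℤ) + 1) := by push_cast; ring
  have e2 : 2 * ((k + 1 : ℕ) : ℤ) - (((k + 2 : ℕ) : ℤ) - 1) = (k : ℤ) + 1 := by push_cast; ring
  rw [e1, e2]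
  ring

theorem card_SP (k : ℕ) : (SP k).card = k := by
  unfold SP
  rw [card_image_of_injOn, card_range]
  intro a _ b _ h
  simp only at h
  omega

theorem SP_sq (k : ℕ) : 3 * ∑ x ∈ SP k, x ^ 2 = (k : ℤ) * ((k : ℤ) ^ 2 - 1) := by
  induction k using Nat.twoStepInduction with
  | zero => simp [SP]
  | one => simp [SP]
  | more k ih _ =>
    rw [sum_SP_step]
    push_cast
    linear_combination ih

theorem SP_abs_even (m : ℕ) : ∑ x ∈ SP (2 * m), |x| = 2 * (m : ℤ) ^ 2 := by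
  induction m with
  | zero => simp [SP]
  | succ m ih =>
    have e : 2 * (m + 1) = 2 * m + 2 := by ring
    rw [e, sum_SP_step, ih, abs_neg, abs_of_nonneg (by positivity)]
    push_cast
    ring

theorem SP_abs_odd (m : ℕ) : ∑ x ∈ SP (2 * m + 1), |x| = 2 * (m : ℤ) ^ 2 + 2 * m := by
  induction m with
  | zero => simp [SP]
  | succ m ih =>
    have e : 2 * (m + 1) + 1 = (2 * m + 1) + 2 := by ring
    rw [e, sum_SP_step, ih, abs_neg, abs_of_nonneg (by positivity)]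
    push_cast
    ring

theorem SP_fold_even (m : ℕ) (G : ℤ → ℤ) :
    ∑ x ∈ SP (2 * m), G |x| = 2 * ∑ i ∈ range m, G (2 * (i : ℤ) + 1) := by
  induction m with
  | zero => simp [SP]
  | succ m ih =>
    have e : 2 * (m + 1) = 2 * m + 2 := by ring
    rw [e, sum_SP_step, ih, abs_neg, abs_of_nonneg (by positivity), sum_range_succ]
    push_cast
    ring

theorem SP_fold_odd (m : ℕ) (G : ℤ → ℤ) :
    ∑ x ∈ SP (2 * m + 1), G |x| = G 0 + 2 * ∑ i ∈ range m, G (2 * (i : ℤ) + 2) := by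
  induction m with
  | zero => simp [SP]
  | succ m ih =>
    have e : 2 * (m + 1) + 1 = (2 * m + 1) + 2 := by ring
    rw [e, sum_SP_step, ih, abs_neg, abs_of_nonneg (by positivity), sum_range_succ]
    have e2 : ((2 * m + 1 : ℕ) : ℤ) + 1 = 2 * (m : ℤ) + 2 := by push_cast; ring
    rw [e2]
    ring

/-- deviation from the median, even length `2m` -/
theorem SP_dev_even (m : ℕ) :
    ∑ x ∈ SP (2 * m), |(|x| - (m : ℤ))| = 2 * ∑ x ∈ SP m, |x| := by
  rw [SP_fold_even m (fun y => |y - (m : ℤ)|), sum_SP]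
  congr 1
  apply sum_congr rfl
  intro i _
  congr 1
  ring

/-- deviation from the median, odd length `2r+1`, `r` even -/
theorem SP_dev_odd1 (s : ℕ) :
    ∑ x ∈ SP (2 * (2 * s) + 1), |(|x| - (2 * (s : ℤ)))| = 4 * (s : ℤ) ^ 2 + 2 * s := by
  rw [SP_fold_odd (2 * s) (fun y => |y - (2 * (s : ℤ))|)]
  have h := SP_abs_odd s
  rw [sum_SP, sum_range_succ'] at h
  have e : ∀ i ∈ range (2 * s), |2 * ((i + 1 : ℕ) : ℤ) - (((2 * s + 1 : ℕ) : ℤ) - 1)| =
      |2 * (i : ℤ) + 2 - 2 * (s : ℤ)| := by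
    intro i _
    congr 1
    push_cast
    ring
  rw [sum_congr rfl e] at h
  have e1 : |2 * ((0 : ℕ) : ℤ) - (((2 * s + 1 : ℕ) : ℤ) - 1)| = 2 * s := by
    have : 2 * ((0 : ℕ) : ℤ) - (((2 * s + 1 : ℕ) : ℤ) - 1) = -(2 * (s : ℤ)) := by push_cast; ring
    rw [this, abs_neg, abs_of_nonneg (by positivity)]
  rw [e1] at h
  have e2 : |(0 : ℤ) - 2 * (s : ℤ)| = 2 * s := by
    rw [zero_sub, abs_neg, abs_of_nonneg (by positivity)]
  rw [e2]
  linarith

/-- deviation from the median, odd length `2r+1`, `r = 2s+1` odd -/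
theorem SP_dev_odd2 (s : ℕ) :
    ∑ x ∈ SP (2 * (2 * s + 1) + 1), |(|x| - (2 * (s : ℤ) + 2))| =
      4 * (s : ℤ) ^ 2 + 6 * s + 2 := by
  rw [SP_fold_odd (2 * s + 1) (fun y => |y - (2 * (s : ℤ) + 2)|)]
  have h := SP_abs_odd s
  rw [sum_SP] at h
  have e : ∀ i ∈ range (2 * s + 1), |2 * (i : ℤ) + 2 - (2 * (s : ℤ) + 2)| =
      |2 * (i : ℤ) - (((2 * s + 1 : ℕ) : ℤ) - 1)| := by
    intro i _
    congr 1
    push_cast
    ring
  rw [sum_congr rfl e, h]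
  have e2 : |(0 : ℤ) - (2 * (s : ℤ) + 2)| = 2 * s + 2 := by
    rw [zero_sub, abs_neg, abs_of_nonneg (by positivity)]
  rw [e2]
  ring

end Pool.Agent.U411.Queens
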