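import Pool.Agent.U411.Queens.Ring

set_option autoImplicit false

namespace Pool.Agent.U411.Queens

open Finset

/-- `Q` is a set of `g` queens dominating the board `[0,2g]²`. -/
structure Dom (g : ℕ) (Q : Finset (ℤ × ℤ)) : Prop where
  card : Q.card = g
  bd : ∀ q ∈ Q, (0 ≤ q.1 ∧ q.1 ≤ 2 * g) ∧ (0 ≤ q.2 ∧ q.2 ≤ 2 * g)
  dom : ∀ x y : ℤ, 0 ≤ x → x ≤ 2 * g → 0 ≤ y → y ≤ 2 * g →
    ∃ q ∈ Q, q.1 = x ∨ q.2 = y ∨ q.2 - q.1 = y - x ∨ q.1 + q.2 = x + y

/-- The situation after translating the lower left corner of the box to the origin. -/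
structure Dat (g : ℕ) (d c r : ℤ) (A B U V : Finset ℤ) (Q : Finset (ℤ × ℤ)) : Prop where
  cardQ : Q.card = g
  hU : U = Q.image (fun q => q.2 - q.1)
  hV : V = Q.image (fun q => q.1 + q.2)
  cardU : U.card = g
  cardV : V.card = g
  cardA : A.card = g + 1
  cardB : B.card = g + 1
  memA : ∀ x, x ∈ A ↔ (c ≤ x ∧ x ≤ c + 2 * g) ∧ ∀ q ∈ Q, q.1 ≠ x
  memB : ∀ y, y ∈ B ↔ (r ≤ y ∧ y ≤ r + 2 * g) ∧ ∀ q ∈ Q, q.2 ≠ y
  bdx : ∀ q ∈ Q, c ≤ q.1 ∧ q.1 ≤ c + 2 * g
  bdy : ∀ q ∈ Q, r ≤ q.2 ∧ q.2 ≤ r + 2 * g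
  hA : ∀ a ∈ A, 0 ≤ a ∧ a ≤ d
  hB : ∀ a ∈ B, 0 ≤ a ∧ a ≤ d
  A0 : (0 : ℤ) ∈ A
  Ad : d ∈ A
  B0 : (0 : ℤ) ∈ B
  Bd : d ∈ B
  cov : ∀ a ∈ A, ∀ b ∈ B, b - a ∈ U ∨ a + b ∈ V
  ring : RingEq A B U V 0 d 0 d

theorem exists_dat {g : ℕ} {Q : Finset (ℤ × ℤ)} (h : Dom g Q) :
    ∃ d c r A B U V Q', Dat g d c r A B U V Q' := by
  classical
  -- empty columns and rows
  set A := (Icc (0 : ℤ) (2 * g)).filter (fun x => ∀ q ∈ Q, q.1 ≠ x) with hAdef
  set B := (Icc (0 : ℤ) (2 * g)).filter (fun y => ∀ q ∈ Q, q.2 ≠ y) with hBdef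
  have hcA : g + 1 ≤ A.card := by
    have h1 : A = Icc (0 : ℤ) (2 * g) \ Q.image Prod.fst := by
      ext x
      simp only [hAdef, mem_filter, mem_sdiff, mem_image, not_exists, not_and]
    have h2 : (Icc (0 : ℤ) (2 * g)).card - (Q.image Prod.fst).card ≤ A.card := by
      rw [h1]
      exact le_card_sdiff _ _
    have h3 : (Q.image Prod.fst).card ≤ g := card_image_le.trans h.card.le
    have h4 : (Icc (0 : ℤ) (2 * g)).card = 2 * g + 1 := by
      rw [Int.card_Icc]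
      omega
    omega
  have hcB : g + 1 ≤ B.card := by
    have h1 : B = Icc (0 : ℤ) (2 * g) \ Q.image Prod.snd := by
      ext x
      simp only [hBdef, mem_filter, mem_sdiff, mem_image, not_exists, not_and]
    have h2 : (Icc (0 : ℤ) (2 * g)).card - (Q.image Prod.snd).card ≤ B.card := by
      rw [h1]
      exact le_card_sdiff _ _
    have h3 : (Q.image Prod.snd).card ≤ g := card_image_le.trans h.card.le
    have h4 : (Icc (0 : ℤ) (2 * g)).card = 2 * g + 1 := by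
      rw [Int.card_Icc]
      omega
    omega
  have hAne : A.Nonempty := card_pos.1 (by omega)
  have hBne : B.Nonempty := card_pos.1 (by omega)
  set a0 := A.min' hAne with ha0
  set a1 := A.max' hAne with ha1
  set b0 := B.min' hBne with hb0
  set b1 := B.max' hBne with hb1
  set U := Q.image (fun q => q.2 - q.1) with hU
  set V := Q.image (fun q => q.1 + q.2) with hV
  have hcU : U.card ≤ g := card_image_le.trans h.card.le
  have hcV : V.card ≤ g := card_image_le.trans h.card.le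
  have bA : ∀ a ∈ A, a0 ≤ a ∧ a ≤ a1 := fun a ha => ⟨min'_le _ _ ha, le_max' _ _ ha⟩
  have bB : ∀ a ∈ B, b0 ≤ a ∧ a ≤ b1 := fun a ha => ⟨min'_le _ _ ha, le_max' _ _ ha⟩
  have cov : ∀ a ∈ A, ∀ b ∈ B, b - a ∈ U ∨ a + b ∈ V := by
    intro a ha b hb
    rw [hAdef, mem_filter, mem_Icc] at ha
    rw [hBdef, mem_filter, mem_Icc] at hb
    obtain ⟨q, hq, h1 | h1 | h1 | h1⟩ := h.dom a b ha.1.1 ha.1.2 hb.1.1 hb.1.2
    · exact (ha.2 q hq h1).elim
    · exact (hb.2 q hq h1).elim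
    · exact Or.inl (mem_image.2 ⟨q, hq, h1⟩)
    · exact Or.inr (mem_image.2 ⟨q, hq, h1⟩)
  have m1 : a0 ∈ A := min'_mem _ _
  have m2 : a1 ∈ A := max'_mem _ _
  have m3 : b0 ∈ B := min'_mem _ _
  have m4 : b1 ∈ B := max'_mem _ _
  have ineq := ring_ineq bA m1 m2 bB m3 m4 cov
  have sq := ring_square bA m1 m2 bB m3 m4 cov (by omega) (by omega)
  have eA : A.card = g + 1 := by omega
  have eB : B.card = g + 1 := by omega
  have eU : U.card = g := by omega
  have eV : V.card = g := by omega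
  -- translate
  have injA : Function.Injective (fun x : ℤ => x - a0) := fun x y hxy => by simpa using hxy
  have injB : Function.Injective (fun x : ℤ => x - b0) := fun x y hxy => by simpa using hxy
  have injQ : Function.Injective (fun q : ℤ × ℤ => (q.1 - a0, q.2 - b0)) := by
    intro x y hxy
    simp only [Prod.mk.injEq, sub_left_inj] at hxy
    exact Prod.ext hxy.1 hxy.2
  have injU : Function.Injective (fun x : ℤ => x - (b0 - a0)) := fun x y hxy => by simpa using hxy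
  have injV : Function.Injective (fun x : ℤ => x - (a0 + b0)) := fun x y hxy => by simpa using hxy
  have mA : ∀ x, x ∈ A.image (fun x : ℤ => x - a0) ↔ x + a0 ∈ A := by
    intro x
    rw [mem_image]
    constructor
    · rintro ⟨y, hy, rfl⟩
      simpa using hy
    · intro hx
      exact ⟨_, hx, by ring⟩
  have mB : ∀ x, x ∈ B.image (fun x : ℤ => x - b0) ↔ x + b0 ∈ B := by
    intro x
    rw [mem_image]
    constructor
    · rintro ⟨y, hy, rfl⟩
      simpa using hy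
    · intro hx
      exact ⟨_, hx, by ring⟩
  have mU : ∀ x, x ∈ U.image (fun x : ℤ => x - (b0 - a0)) ↔ x + (b0 - a0) ∈ U := by
    intro x
    rw [mem_image]
    constructor
    · rintro ⟨y, hy, rfl⟩
      simpa using hy
    · intro hx
      exact ⟨_, hx, by ring⟩
  have mV : ∀ x, x ∈ V.image (fun x : ℤ => x - (a0 + b0)) ↔ x + (a0 + b0) ∈ V := by
    intro x
    rw [mem_image]
    constructor
    · rintro ⟨y, hy, rfl⟩
      simpa using hy
    · intro hx
      exact ⟨_, hx, by ring⟩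
  have cA' : (A.image (fun x : ℤ => x - a0)).card = g + 1 := by
    rw [card_image_of_injective _ injA, eA]
  have cB' : (B.image (fun x : ℤ => x - b0)).card = g + 1 := by
    rw [card_image_of_injective _ injB, eB]
  have cU' : (U.image (fun x : ℤ => x - (b0 - a0))).card = g := by
    rw [card_image_of_injective _ injU, eU]
  have cV' : (V.image (fun x : ℤ => x - (a0 + b0))).card = g := by
    rw [card_image_of_injective _ injV, eV]
  have bA' : ∀ a ∈ A.image (fun x : ℤ => x - a0), 0 ≤ a ∧ a ≤ a1 - a0 := by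
    intro a ha
    have := bA _ ((mA a).1 ha)
    omega
  have bB' : ∀ a ∈ B.image (fun x : ℤ => x - b0), 0 ≤ a ∧ a ≤ a1 - a0 := by
    intro a ha
    have := bB _ ((mB a).1 ha)
    omega
  have A0' : (0 : ℤ) ∈ A.image (fun x : ℤ => x - a0) := (mA 0).2 (by simpa using m1)
  have Ad' : a1 - a0 ∈ A.image (fun x : ℤ => x - a0) := (mA _).2 (by simpa using m2)
  have B0' : (0 : ℤ) ∈ B.image (fun x : ℤ => x - b0) := (mB 0).2 (by simpa using m3)
  have Bd' : a1 - a0 ∈ B.image (fun x : ℤ => x - b0) := (mB _).2 (by rw [sq]; simpa using m4)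
  have cov' : ∀ a ∈ A.image (fun x : ℤ => x - a0), ∀ b ∈ B.image (fun x : ℤ => x - b0),
      b - a ∈ U.image (fun x : ℤ => x - (b0 - a0)) ∨
        a + b ∈ V.image (fun x : ℤ => x - (a0 + b0)) := by
    intro a ha b hb
    rcases cov _ ((mA a).1 ha) _ ((mB b).1 hb) with h1 | h1
    · left
      rw [mU]
      convert h1 using 1
      ring
    · right
      rw [mV]
      convert h1 using 1
      ring
  refine ⟨a1 - a0, -a0, -b0, A.image (fun x : ℤ => x - a0), B.image (fun x : ℤ => x - b0),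
    U.image (fun x : ℤ => x - (b0 - a0)), V.image (fun x : ℤ => x - (a0 + b0)),
    Q.image (fun q : ℤ × ℤ => (q.1 - a0, q.2 - b0)), ?_⟩
  refine ⟨?_, ?_, ?_, cU', cV', cA', cB', ?_, ?_, ?_, ?_, bA', bB', A0', Ad', B0', Bd', cov', ?_⟩
  · rw [card_image_of_injective _ injQ, h.card]
  · rw [hU, image_image, image_image]
    apply image_congr
    intro q _
    simp only [Function.comp_apply]
    ring
  · rw [hV, image_image, image_image]
    apply image_congr
    intro q _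
    simp only [Function.comp_apply]
    ring
  · intro x
    rw [mA, hAdef, mem_filter, mem_Icc]
    constructor
    · rintro ⟨h1, h2⟩
      refine ⟨by omega, ?_⟩
      intro q hq
      obtain ⟨q', hq', rfl⟩ := mem_image.1 hq
      have := h2 q' hq'
      intro h3
      apply this
      simp only at h3
      omega
    · rintro ⟨h1, h2⟩
      refine ⟨by omega, ?_⟩
      intro q hq h3
      apply h2 (q.1 - a0, q.2 - b0) (mem_image.2 ⟨q, hq, rfl⟩)
      simp only
      omega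
  · intro x
    rw [mB, hBdef, mem_filter, mem_Icc]
    constructor
    · rintro ⟨h1, h2⟩
      refine ⟨by omega, ?_⟩
      intro q hq
      obtain ⟨q', hq', rfl⟩ := mem_image.1 hq
      have := h2 q' hq'
      intro h3
      apply this
      simp only at h3
      omega
    · rintro ⟨h1, h2⟩
      refine ⟨by omega, ?_⟩
      intro q hq h3
      apply h2 (q.1 - a0, q.2 - b0) (mem_image.2 ⟨q, hq, rfl⟩)
      simp only
      omega
  · intro q hq
    obtain ⟨q', hq', rfl⟩ := mem_image.1 hq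
    have := h.bd q' hq'
    simp only
    omega
  · intro q hq
    obtain ⟨q', hq', rfl⟩ := mem_image.1 hq
    have := h.bd q' hq'
    simp only
    omega
  · exact ring_eq bA' A0' Ad' bB' B0' Bd' cov' (by omega)

section
variable {g : ℕ} {d c r : ℤ} {A B U V : Finset ℤ} {Q : Finset (ℤ × ℤ)}

theorem Dat.injU (h : Dat g d c r A B U V Q) :
    ∀ q ∈ Q, ∀ q' ∈ Q, q.2 - q.1 = q'.2 - q'.1 → q = q' := by
  have h1 : (Q.image (fun q : ℤ × ℤ => q.2 - q.1)).card = Q.card := by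
    rw [← h.hU, h.cardU, h.cardQ]
  have h2 := card_image_iff.1 h1
  intro q hq q' hq' e
  exact h2 hq hq' e

theorem Dat.injV (h : Dat g d c r A B U V Q) :
    ∀ q ∈ Q, ∀ q' ∈ Q, q.1 + q.2 = q'.1 + q'.2 → q = q' := by
  have h1 : (Q.image (fun q : ℤ × ℤ => q.1 + q.2)).card = Q.card := by
    rw [← h.hV, h.cardV, h.cardQ]
  have h2 := card_image_iff.1 h1
  intro q hq q' hq' e
  exact h2 hq hq' e

theorem Dat.colcard (h : Dat g d c r A B U V Q) :
    Q.image Prod.fst = Icc c (c + 2 * g) \ A ∧ (Q.image Prod.fst).card = Q.card := by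
  have h1 : Q.image Prod.fst = Icc c (c + 2 * g) \ A := by
    ext x
    simp only [mem_image, mem_sdiff, mem_Icc]
    rw [h.memA]
    constructor
    · rintro ⟨q, hq, rfl⟩
      exact ⟨h.bdx q hq, fun h2 => h2.2 q hq rfl⟩
    · rintro ⟨h2, h3⟩
      by_contra h4
      exact h3 ⟨h2, fun q hq e => h4 ⟨q, hq, e⟩⟩
  refine ⟨h1, ?_⟩
  have h2 : A ⊆ Icc c (c + 2 * g) := fun x hx => mem_Icc.2 ((h.memA x).1 hx).1
  rw [h1, card_sdiff_of_subset h2, h.cardA, h.cardQ, Int.card_Icc]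
  omega

theorem Dat.rowcard (h : Dat g d c r A B U V Q) :
    Q.image Prod.snd = Icc r (r + 2 * g) \ B ∧ (Q.image Prod.snd).card = Q.card := by
  have h1 : Q.image Prod.snd = Icc r (r + 2 * g) \ B := by
    ext x
    simp only [mem_image, mem_sdiff, mem_Icc]
    rw [h.memB]
    constructor
    · rintro ⟨q, hq, rfl⟩
      exact ⟨h.bdy q hq, fun h2 => h2.2 q hq rfl⟩
    · rintro ⟨h2, h3⟩
      by_contra h4
      exact h3 ⟨h2, fun q hq e => h4 ⟨q, hq, e⟩⟩
  refine ⟨h1, ?_⟩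
  have h2 : B ⊆ Icc r (r + 2 * g) := fun x hx => mem_Icc.2 ((h.memB x).1 hx).1
  rw [h1, card_sdiff_of_subset h2, h.cardB, h.cardQ, Int.card_Icc]
  omega

theorem Dat.injX (h : Dat g d c r A B U V Q) :
    ∀ q ∈ Q, ∀ q' ∈ Q, q.1 = q'.1 → q = q' := by
  have h2 := card_image_iff.1 h.colcard.2
  intro q hq q' hq' e
  exact h2 hq hq' e

theorem Dat.injY (h : Dat g d c r A B U V Q) :
    ∀ q ∈ Q, ∀ q' ∈ Q, q.2 = q'.2 → q = q' := by
  have h2 := card_image_iff.1 h.rowcard.2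
  intro q hq q' hq' e
  exact h2 hq hq' e

theorem Dat.sumU (h : Dat g d c r A B U V Q) (w : ℤ → ℤ) :
    ∑ u ∈ U, w u = ∑ q ∈ Q, w (q.2 - q.1) := by
  rw [h.hU, sum_image (fun a ha b hb e => h.injU a ha b hb e)]

theorem Dat.sumV (h : Dat g d c r A B U V Q) (w : ℤ → ℤ) :
    ∑ u ∈ V, w u = ∑ q ∈ Q, w (q.1 + q.2) := by
  rw [h.hV, sum_image (fun a ha b hb e => h.injV a ha b hb e)]

theorem Dat.sumX (h : Dat g d c r A B U V Q) (w : ℤ → ℤ) :
    ∑ q ∈ Q, w q.1 + ∑ a ∈ A, w a = ∑ x ∈ Icc c (c + 2 * g), w x := by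
  have h1 : ∑ q ∈ Q, w q.1 = ∑ x ∈ Q.image Prod.fst, w x := by
    rw [sum_image (fun a ha b hb e => h.injX a ha b hb e)]
  have h2 : A ⊆ Icc c (c + 2 * g) := fun x hx => mem_Icc.2 ((h.memA x).1 hx).1
  rw [h1, h.colcard.1, sum_sdiff h2]

theorem Dat.sumY (h : Dat g d c r A B U V Q) (w : ℤ → ℤ) :
    ∑ q ∈ Q, w q.2 + ∑ a ∈ B, w a = ∑ x ∈ Icc r (r + 2 * g), w x := by
  have h1 : ∑ q ∈ Q, w q.2 = ∑ x ∈ Q.image Prod.snd, w x := by
    rw [sum_image (fun a ha b hb e => h.injY a ha b hb e)]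
  have h2 : B ⊆ Icc r (r + 2 * g) := fun x hx => mem_Icc.2 ((h.memB x).1 hx).1
  rw [h1, h.rowcard.1, sum_sdiff h2]

end

end Pool.Agent.U411.Queens
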