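import Pool.Agent.U411.Queens.CaseST

set_option autoImplicit false

namespace Pool.Agent.U411.Queens

open Finset

/-- The symmetric structure. -/
structure Sym (d : ℤ) (A P R : Finset ℤ) : Prop where
  hd : Even d
  hA : ∀ a ∈ A, 0 ≤ a ∧ a ≤ d
  P0 : (0 : ℤ) ∈ P
  R0 : (0 : ℤ) ∈ R
  A1 : ∀ a, a ∈ A ↔ a ∈ P ∨ d - a ∈ R
  A1' : ∀ a, a ∈ P → d - a ∉ R
  A2 : ∀ a, a ∈ A ↔ a ∈ R ∨ d - a ∈ P
  A2' : ∀ a, a ∈ R → d - a ∉ P
  cov : ∀ a ∈ A, ∀ b ∈ A, |b - a| ∈ P ∨ |a + b - d| ∈ R
  card : P.card = R.card

/-- the extra information in the two cases -/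
def CaseS (d t : ℤ) (A P R : Finset ℤ) : Prop :=
  (∀ x, Even x → (x ∈ P ↔ x ∈ R)) ∧
  (∀ a, Odd a → (a ∈ A ↔ a - t ∈ P ∨ d - t - a ∈ P)) ∧
  (∀ a, Odd a → a - t ∈ P → d - t - a ∉ P)

def CaseT (d t : ℤ) (A P R : Finset ℤ) : Prop :=
  t ∈ P ∧ (∀ x, Odd x → (x ∈ P ↔ x ∈ R)) ∧
  (∀ a, Even a → a ≠ 0 → a ≠ d → (a ∈ A ↔ a - t ∈ P ∨ d - t - a ∈ P)) ∧
  (∀ a, Even a → a - t ∈ P → d - t - a ∉ P)

section filt
variable {U V : Finset ℤ} {d : ℤ} {K : ℤ → Prop} [DecidablePred K]

theorem up_filter (x : ℤ) : up (U.filter K) x ↔ up U x ∧ K x := by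
  unfold up
  rw [mem_filter]
  tauto

theorem um_filter (hn : ∀ x, K (-x) ↔ K x) (x : ℤ) : um (U.filter K) x ↔ um U x ∧ K x := by
  unfold um
  rw [mem_filter, hn]
  tauto

theorem vp_filter (hn : ∀ x, K (d + x) ↔ K x) (x : ℤ) :
    vp (V.filter K) d x ↔ vp V d x ∧ K x := by
  unfold vp
  rw [mem_filter, hn]
  tauto

theorem vm_filter (hn : ∀ x, K (d - x) ↔ K x) (x : ℤ) :
    vm (V.filter K) d x ↔ vm V d x ∧ K x := by
  unfold vm
  rw [mem_filter, hn]
  tauto

end filt

theorem even_facts {d : ℤ} (hd : Even d) :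
    (∀ x : ℤ, Even (-x) ↔ Even x) ∧ (∀ x : ℤ, Even (d - x) ↔ Even x) ∧
    (∀ x : ℤ, Even (d + x) ↔ Even x) :=
  ⟨fun x => even_neg, fun x => by rw [Int.even_sub]; simp [hd],
    fun x => by rw [Int.even_add]; simp [hd]⟩

theorem odd_facts {d : ℤ} (hd : Even d) :
    (∀ x : ℤ, Odd (-x) ↔ Odd x) ∧ (∀ x : ℤ, Odd (d - x) ↔ Odd x) ∧
    (∀ x : ℤ, Odd (d + x) ↔ Odd x) :=
  ⟨fun x => odd_neg,
    fun x => by rw [← Int.not_even_iff_odd, ← Int.not_even_iff_odd, Int.even_sub]; simp [hd],
    fun x => by rw [← Int.not_even_iff_odd, ← Int.not_even_iff_odd, Int.even_add]; simp [hd]⟩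

section
variable {g : ℕ} {d c r : ℤ} {A B U V : Finset ℤ} {Q : Finset (ℤ × ℤ)}

theorem Dat.M (h : Dat g d c r A B U V Q) :
    (∀ a, a ∈ A ↔ um U a ∨ vm V d (d - a)) ∧ (∀ a, um U a → ¬ vm V d (d - a)) ∧
    (∀ a, a ∈ A ↔ up U (d - a) ∨ vp V d a) ∧ (∀ a, vp V d a → ¬ up U (d - a)) ∧
    (∀ a, a ∈ B ↔ up U a ∨ vm V d (d - a)) ∧ (∀ a, up U a → ¬ vm V d (d - a)) ∧
    (∀ a, a ∈ B ↔ um U (d - a) ∨ vp V d a) ∧ (∀ a, vp V d a → ¬ um U (d - a)) := by
  have M := h.rel
  refine ⟨fun a => ?_, fun a => ?_, fun a => ?_, fun a => ?_, fun a => ?_, fun a => ?_,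
    fun a => ?_, fun a => ?_⟩
  · simpa using M.bot a
  · simpa using M.bot' a
  · simpa using M.top a
  · simpa using M.top' a
  · simpa using M.left a
  · simpa using M.left' a
  · simpa using M.right a
  · simpa using M.right' a

/-- from `A = B = d − A` to the symmetric structure -/
theorem Dat.toSym (h : Dat g d c r A B U V Q) (hAB : ∀ a, a ∈ A ↔ a ∈ B)
    (hs : ∀ a, a ∈ A → d - a ∈ A) :
    (∀ x, um U x ↔ up U x) ∧ (∀ x, vm V d x ↔ vp V d x) ∧
    Sym d A (U.filter (0 ≤ ·)) ((V.image (fun v => v - d)).filter (0 ≤ ·)) ∧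
    (∀ x, x ∈ U.filter (0 ≤ ·) ↔ up U x) ∧
    (∀ x, x ∈ (V.image (fun v => v - d)).filter (0 ≤ ·) ↔ vp V d x) := by
  obtain ⟨M1, M1', M2, M2', M3, M3', M4, M4'⟩ := h.M
  have e : ∀ x : ℤ, d - (d - x) = x := fun x => by ring
  have hU : ∀ x, um U x ↔ up U x := by
    intro x
    constructor
    · intro hx
      rcases (M3 x).1 ((hAB x).1 ((M1 x).2 (Or.inl hx))) with h1 | h1
      · exact h1
      · exact (M1' x hx h1).elim
    · intro hx
      rcases (M1 x).1 ((hAB x).2 ((M3 x).2 (Or.inl hx))) with h1 | h1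
      · exact h1
      · exact (M3' x hx h1).elim
  have hV : ∀ x, vm V d x ↔ vp V d x := by
    intro x
    constructor
    · intro hx
      have h1 : d - x ∈ A := (M1 (d - x)).2 (Or.inr (by rw [e]; exact hx))
      have h2 := hs _ h1
      rw [e] at h2
      rcases (M2 x).1 h2 with h3 | h3
      · exact (M1' (d - x) ((hU _).2 h3) (by rw [e]; exact hx)).elim
      · exact h3
    · intro hx
      have h1 : d - x ∈ A := hs _ ((M2 x).2 (Or.inr hx))
      rcases (M1 (d - x)).1 h1 with h3 | h3
      · exact (M2' x hx ((hU _).1 h3)).elim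
      · rw [e] at h3
        exact h3
  have mP : ∀ x, x ∈ U.filter (0 ≤ ·) ↔ up U x := by
    intro x
    rw [mem_filter, up, and_comm]
  have mR : ∀ x, x ∈ (V.image (fun v => v - d)).filter (0 ≤ ·) ↔ vp V d x := by
    intro x
    rw [mem_filter, vp, and_comm, mem_image]
    constructor
    · rintro ⟨h1, v, hv, rfl⟩
      exact ⟨h1, by simpa using hv⟩
    · rintro ⟨h1, h2⟩
      exact ⟨h1, d + x, h2, by ring⟩
  refine ⟨hU, hV, ⟨h.even_d, h.hA, ?_, ?_, ?_, ?_, ?_, ?_, ?_, ?_⟩, mP, mR⟩
  · rw [mP]
    exact ⟨le_refl _, h.U0⟩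
  · rw [mR]
    exact ⟨le_refl _, by simpa using h.Vd⟩
  · intro a
    rw [mP, mR, M1, hU, hV]
  · intro a ha hb
    rw [mP] at ha
    rw [mR] at hb
    exact M1' a ((hU a).2 ha) ((hV _).2 hb)
  · intro a
    rw [mP, mR, M2, or_comm]
  · intro a ha hb
    rw [mP] at hb
    rw [mR] at ha
    exact M2' a ha hb
  · intro a ha b hb
    rw [mP, mR]
    rcases h.cov a ha b ((hAB b).1 hb) with h1 | h1
    · left
      rcases le_total 0 (b - a) with h2 | h2
      · rw [abs_of_nonneg h2]
        exact ⟨h2, h1⟩
      · rw [abs_of_nonpos h2]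
        exact (hU _).1 ⟨by omega, by simpa using h1⟩
    · right
      rcases le_total 0 (a + b - d) with h2 | h2
      · rw [abs_of_nonneg h2]
        exact ⟨h2, by simpa using h1⟩
      · rw [abs_of_nonpos h2]
        exact (hV _).1 ⟨by omega, by simpa using h1⟩
  · have h1 : ((V.image (fun v => v - d)).filter (0 ≤ ·)) =
        (V.filter (d ≤ ·)).image (fun v => v - d) := by
      rw [filter_image]
      simp only [sub_nonneg]
    have inj : Function.Injective (fun v : ℤ => v - d) := fun x y hxy => by simpa using hxy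
    rw [h1, card_image_of_injective _ inj]
    have := h.cards
    omega

/-- symmetric structure in Case S -/
theorem Dat.symS (h : Dat g d c r A B U V Q) {t : ℤ} (todd : Odd t) (tp : 0 < t)
    (R : RingEq (A.filter (fun x => Odd x)) (B.filter (fun x => Odd x))
        (U.filter (fun x => Even x)) (V.filter (fun x => Even x)) t (d - t) t (d - t)) :
    (∀ a, a ∈ A ↔ a ∈ B) ∧ (∀ a, a ∈ A → d - a ∈ A) ∧
    CaseS d t A (U.filter (0 ≤ ·)) ((V.image (fun v => v - d)).filter (0 ≤ ·)) := by
  obtain ⟨M1, M1', M2, M2', M3, M3', M4, M4'⟩ := h.M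
  have hd := h.even_d
  obtain ⟨k1, k2, k3⟩ := even_facts hd
  have L := R.rel
  obtain ⟨S1, S2, S3⟩ := four_sets (p := up (U.filter (fun x => Even x)))
    (p' := um (U.filter (fun x => Even x))) (q := vp (V.filter (fun x => Even x)) d)
    (q' := vm (V.filter (fun x => Even x)) d) (d := d) (D := d) tp
    (by
      intro x hx
      rw [up_filter] at hx
      exact (h.hB x ((M3 x).2 (Or.inl hx.1))).2)
    (by
      intro x hx
      rw [um_filter k1] at hx
      exact (h.hA x ((M1 x).2 (Or.inl hx.1))).2)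
    (by
      intro x hx
      rw [vp_filter k3] at hx
      exact (h.hA x ((M2 x).2 (Or.inr hx.1))).2)
    (by
      intro a
      rw [um_filter k1, vm_filter k2, up_filter, vp_filter k3, k2]
      have := (M1 a).symm.trans (M2 a)
      tauto)
    (by
      intro a
      rw [um_filter k1, vm_filter k2]
      have := M1' a
      tauto)
    (by
      intro a
      rw [vp_filter k3, up_filter]
      have := M2' a
      tauto)
    (by
      intro a
      rw [um_filter k1, vm_filter k2, up_filter, vp_filter k3, k2]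
      have := (M3 a).symm.trans (M4 a)
      tauto)
    (by
      intro a
      rw [up_filter, vm_filter k2]
      have := M3' a
      tauto)
    (by
      intro a
      rw [vp_filter k3, um_filter k1]
      have := M4' a
      tauto)
    (fun a => (L.bot a).symm.trans (L.top a)) L.bot' L.top'
    (fun a => (L.left a).symm.trans (L.right a)) L.left' L.right'
  set s := vp (V.filter (fun x => Even x)) d with hs
  -- descriptions
  have dA : ∀ a, a ∈ A ∧ Even a ↔ s a ∨ s (d - a) := by
    intro a
    rw [← S2 a, ← S3 (d - a), um_filter k1, vm_filter k2, k2, M1]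
    tauto
  have dB : ∀ a, a ∈ B ∧ Even a ↔ s a ∨ s (d - a) := by
    intro a
    rw [← S1 a, ← S3 (d - a), up_filter, vm_filter k2, k2, M3]
    tauto
  have oA : ∀ a, a ∈ A ∧ Odd a ↔ s (a - t) ∨ s (d - t - a) := by
    intro a
    rw [← S2 (a - t), ← S3 (d - t - a), ← L.bot a, mem_filter]
  have oB : ∀ a, a ∈ B ∧ Odd a ↔ s (a - t) ∨ s (d - t - a) := by
    intro a
    rw [← S1 (a - t), ← S3 (d - t - a), ← L.left a, mem_filter]
  have hAB : ∀ a, a ∈ A ↔ a ∈ B := by
    intro a
    have h1 := (dA a).trans (dB a).symm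
    have h2 := (oA a).trans (oB a).symm
    rcases Int.even_or_odd a with h3 | h3
    · tauto
    · tauto
  have hsym : ∀ a, a ∈ A → d - a ∈ A := by
    intro a ha
    rcases Int.even_or_odd a with h3 | h3
    · have h1 := (dA a).1 ⟨ha, h3⟩
      apply ((dA (d - a)).2 _).1
      rw [sub_sub_cancel]
      exact h1.symm
    · have h1 := (oA a).1 ⟨ha, h3⟩
      apply ((oA (d - a)).2 _).1
      have e1 : d - a - t = d - t - a := by ring
      have e2 : d - t - (d - a) = a - t := by ring
      rw [e1, e2]
      exact h1.symm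
  obtain ⟨hU, hV, -, mP, mR⟩ := h.toSym hAB hsym
  have key : ∀ x, Even x → (x ∈ U.filter (0 ≤ ·) ↔ s x) := by
    intro x hx
    rw [mP, ← S1 x, up_filter]
    tauto
  refine ⟨hAB, hsym, ?_, ?_, ?_⟩
  · intro x hx
    rw [key x hx, mR, hs, vp_filter k3]
    tauto
  · intro a ha
    have e1 : Even (a - t) := ha.sub_odd todd
    have e2 : Even (d - t - a) := (hd.sub_odd todd).sub_odd ha
    rw [key _ e1, key _ e2, ← oA a]
    tauto
  · intro a ha h1 h2
    have e1 : Even (a - t) := ha.sub_odd todd
    have e2 : Even (d - t - a) := (hd.sub_odd todd).sub_odd ha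
    rw [key _ e1] at h1
    rw [key _ e2] at h2
    exact L.bot' a ((S2 _).2 h1) ((S3 _).2 h2)

/-- symmetric structure in Case T -/
theorem Dat.symT (h : Dat g d c r A B U V Q) {t : ℤ} (todd : Odd t) (tp : 0 < t)
    (oAt : ∀ a ∈ A, Odd a → t ≤ a ∧ a ≤ d - t)
    (oBt : ∀ a ∈ B, Odd a → t ≤ a ∧ a ≤ d - t)
    (R1 : RingEq (A.filter (fun x => Even x)) (B.filter (fun x => Odd x))
        (U.filter (fun x => Odd x)) (V.filter (fun x => Odd x)) 0 d t (d - t))
    (R2 : RingEq (A.filter (fun x => Odd x)) (B.filter (fun x => Even x))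
        (U.filter (fun x => Odd x)) (V.filter (fun x => Odd x)) t (d - t) 0 d) :
    (∀ a, a ∈ A ↔ a ∈ B) ∧ (∀ a, a ∈ A → d - a ∈ A) ∧
    CaseT d t A (U.filter (0 ≤ ·)) ((V.image (fun v => v - d)).filter (0 ≤ ·)) := by
  obtain ⟨M1, M1', M2, M2', M3, M3', M4, M4'⟩ := h.M
  have hd := h.even_d
  obtain ⟨k1, k2, k3⟩ := odd_facts hd
  set U1 := U.filter (fun x => Odd x) with hU1
  set V1 := V.filter (fun x => Odd x) with hV1
  -- `t` lies in all four sets
  have tup : up U1 t := ⟨tp.le, by simpa using R1.hU0⟩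
  have tum : um U1 t := ⟨tp.le, by simpa using R2.hU0⟩
  have tvp : vp V1 d t := ⟨tp.le, by simpa using R1.hV0⟩
  have tvm : vm V1 d t := ⟨tp.le, by simpa using R1.hV1⟩
  have tup' : up U t := (up_filter t).1 tup |>.1
  have tum' : um U t := (um_filter k1 t).1 tum |>.1
  have tvp' : vp V d t := (vp_filter k3 t).1 tvp |>.1
  have tvm' : vm V d t := (vm_filter k2 t).1 tvm |>.1
  have n1 : ¬ um U (d - t) := M4' t tvp'
  have n2 : ¬ up U (d - t) := M2' t tvp'
  have n3 : ¬ vm V d (d - t) := M1' t tum'
  have n4 : ¬ vp V d (d - t) := fun hx => M2' (d - t) hx (by rw [sub_sub_cancel]; exact tup')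
  -- elementary consequences of the odd elements lying in `[t, d − t]`
  have b1 : ∀ x, up U x → Odd x → t ≤ x ∧ x ≤ d - t :=
    fun x hx ho => oBt x ((M3 x).2 (Or.inl hx)) ho
  have b2 : ∀ x, um U x → Odd x → t ≤ x ∧ x ≤ d - t :=
    fun x hx ho => oAt x ((M1 x).2 (Or.inl hx)) ho
  have b3 : ∀ x, vp V d x → Odd x → t ≤ x ∧ x ≤ d - t :=
    fun x hx ho => oAt x ((M2 x).2 (Or.inr hx)) ho
  have b4 : ∀ x, vm V d x → Odd x → t ≤ x ∧ x ≤ d - t := by
    intro x hx ho
    have h1 : d - x ∈ A := (M1 (d - x)).2 (Or.inr (by rw [sub_sub_cancel]; exact hx))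
    have h2 := oAt _ h1 ((k2 x).2 ho)
    omega
  -- the shifted relations
  have C1 : ∀ a, um U1 (a - t) ∨ vm V1 d (d - t - a) ↔ a ∈ A ∧ Even a ∧ a ≠ 0 ∧ a ≠ d := by
    intro a
    have hb := R1.bot a
    rw [mem_filter] at hb
    constructor
    · rintro (h1 | h1)
      · have h1' := (um_filter k1 _).1 h1
        have h2 : a ∈ A ∧ Even a := hb.2 (Or.inl ⟨by have := h1.1; omega, by
          have := h1.2
          rw [neg_sub] at this
          exact this⟩)
        refine ⟨h2.1, h2.2, ?_, ?_⟩
        · rintro rfl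
          have := h1.1
          omega
        · rintro rfl
          exact n1 h1'.1
      · have h1' := (vm_filter k2 _).1 h1
        have h2 : a ∈ A ∧ Even a := hb.2 (Or.inr ⟨by have := h1.1; omega, by
          have h3 := h1.2
          have e : d - (d - t - a) = a + t := by ring
          rw [e] at h3
          exact h3⟩)
        refine ⟨h2.1, h2.2, ?_, ?_⟩
        · rintro rfl
          rw [sub_zero] at h1'
          exact n3 h1'.1
        · rintro rfl
          have := h1.1
          omega
    · rintro ⟨h1, h2, h3, h4⟩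
      have h5 := h.hA a h1
      rcases hb.1 ⟨h1, h2⟩ with ⟨h6, h7⟩ | ⟨h6, h7⟩
      · rcases le_or_gt t a with h8 | h8
        · left
          exact ⟨by omega, by rw [neg_sub]; exact h7⟩
        · exfalso
          have h9 := b1 (t - a) ⟨by omega, (mem_filter.1 h7).1⟩ (todd.sub_even h2)
          omega
      · rcases le_or_gt (a + t) d with h8 | h8
        · right
          refine ⟨by omega, ?_⟩
          have e : d - (d - t - a) = a + t := by ring
          rw [e]
          exact h7
        · exfalso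
          have h9 := b3 (a + t - d) ⟨by omega, by
            have e : d + (a + t - d) = a + t := by ring
            rw [e]
            exact (mem_filter.1 h7).1⟩ ((h2.add_odd todd).sub_even hd)
          omega
  have C2 : ∀ a, up U1 (d - t - a) ∨ vp V1 d (a - t) ↔ a ∈ A ∧ Even a ∧ a ≠ 0 ∧ a ≠ d := by
    intro a
    have hb := R1.top a
    rw [mem_filter] at hb
    constructor
    · rintro (h1 | h1)
      · have h1' := (up_filter _).1 h1
        have h2 : a ∈ A ∧ Even a := hb.2 (Or.inl ⟨by have := h1.1; omega, h1.2⟩)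
        refine ⟨h2.1, h2.2, ?_, ?_⟩
        · rintro rfl
          rw [sub_zero] at h1'
          exact n2 h1'.1
        · rintro rfl
          have := h1.1
          omega
      · have h1' := (vp_filter k3 _).1 h1
        have h2 : a ∈ A ∧ Even a := hb.2 (Or.inr ⟨by have := h1.1; omega, by
          have h3 := h1.2
          have e : d + (a - t) = a + (d - t) := by ring
          rw [e] at h3
          exact h3⟩)
        refine ⟨h2.1, h2.2, ?_, ?_⟩
        · rintro rfl
          have := h1.1
          omega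
        · rintro rfl
          exact n4 h1'.1
    · rintro ⟨h1, h2, h3, h4⟩
      have h5 := h.hA a h1
      rcases hb.1 ⟨h1, h2⟩ with ⟨h6, h7⟩ | ⟨h6, h7⟩
      · rcases le_or_gt a (d - t) with h8 | h8
        · left
          exact ⟨by omega, h7⟩
        · exfalso
          have h9 := b2 (a - (d - t)) ⟨by omega, by rw [neg_sub]; exact (mem_filter.1 h7).1⟩
            (h2.sub_odd (hd.sub_odd todd))
          omega
      · rcases le_or_gt t a with h8 | h8
        · right
          refine ⟨by omega, ?_⟩
          have e : d + (a - t) = a + (d - t) := by ring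
          rw [e]
          exact h7
        · exfalso
          have h9 := b4 (t - a) ⟨by omega, by
            have e : d - (t - a) = a + (d - t) := by ring
            rw [e]
            exact (mem_filter.1 h7).1⟩ (todd.sub_even h2)
          omega
  have C3 : ∀ a, up U1 (a - t) ∨ vm V1 d (d - t - a) ↔ a ∈ B ∧ Even a ∧ a ≠ 0 ∧ a ≠ d := by
    intro a
    have hb := R2.left a
    rw [mem_filter] at hb
    constructor
    · rintro (h1 | h1)
      · have h1' := (up_filter _).1 h1
        have h2 : a ∈ B ∧ Even a := hb.2 (Or.inl ⟨by have := h1.1; omega, h1.2⟩)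
        refine ⟨h2.1, h2.2, ?_, ?_⟩
        · rintro rfl
          have := h1.1
          omega
        · rintro rfl
          exact n2 h1'.1
      · have h1' := (vm_filter k2 _).1 h1
        have h2 : a ∈ B ∧ Even a := hb.2 (Or.inr ⟨by have := h1.1; omega, by
          have h3 := h1.2
          have e : d - (d - t - a) = t + a := by ring
          rw [e] at h3
          exact h3⟩)
        refine ⟨h2.1, h2.2, ?_, ?_⟩
        · rintro rfl
          rw [sub_zero] at h1'
          exact n3 h1'.1
        · rintro rfl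
          have := h1.1
          omega
    · rintro ⟨h1, h2, h3, h4⟩
      have h5 := h.hB a h1
      rcases hb.1 ⟨h1, h2⟩ with ⟨h6, h7⟩ | ⟨h6, h7⟩
      · rcases le_or_gt t a with h8 | h8
        · left
          exact ⟨by omega, h7⟩
        · exfalso
          have h9 := b2 (t - a) ⟨by omega, by rw [neg_sub]; exact (mem_filter.1 h7).1⟩
            (todd.sub_even h2)
          omega
      · rcases le_or_gt (a + t) d with h8 | h8
        · right
          refine ⟨by omega, ?_⟩
          have e : d - (d - t - a) = t + a := by ring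
          rw [e]
          exact h7
        · exfalso
          have h9 := b3 (a + t - d) ⟨by omega, by
            have e : d + (a + t - d) = t + a := by ring
            rw [e]
            exact (mem_filter.1 h7).1⟩ ((h2.add_odd todd).sub_even hd)
          omega
  have C4 : ∀ a, um U1 (d - t - a) ∨ vp V1 d (a - t) ↔ a ∈ B ∧ Even a ∧ a ≠ 0 ∧ a ≠ d := by
    intro a
    have hb := R2.right a
    rw [mem_filter] at hb
    constructor
    · rintro (h1 | h1)
      · have h1' := (um_filter k1 _).1 h1
        have h2 : a ∈ B ∧ Even a := hb.2 (Or.inl ⟨by have := h1.1; omega, by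
          have := h1.2
          rw [neg_sub] at this
          exact this⟩)
        refine ⟨h2.1, h2.2, ?_, ?_⟩
        · rintro rfl
          rw [sub_zero] at h1'
          exact n1 h1'.1
        · rintro rfl
          have := h1.1
          omega
      · have h1' := (vp_filter k3 _).1 h1
        have h2 : a ∈ B ∧ Even a := hb.2 (Or.inr ⟨by have := h1.1; omega, by
          have h3 := h1.2
          have e : d + (a - t) = d - t + a := by ring
          rw [e] at h3
          exact h3⟩)
        refine ⟨h2.1, h2.2, ?_, ?_⟩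
        · rintro rfl
          have := h1.1
          omega
        · rintro rfl
          exact n4 h1'.1
    · rintro ⟨h1, h2, h3, h4⟩
      have h5 := h.hB a h1
      rcases hb.1 ⟨h1, h2⟩ with ⟨h6, h7⟩ | ⟨h6, h7⟩
      · rcases le_or_gt a (d - t) with h8 | h8
        · left
          exact ⟨by omega, by rw [neg_sub]; exact h7⟩
        · exfalso
          have h9 := b1 (a - (d - t)) ⟨by omega, (mem_filter.1 h7).1⟩
            (h2.sub_odd (hd.sub_odd todd))
          omega
      · rcases le_or_gt t a with h8 | h8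
        · right
          refine ⟨by omega, ?_⟩
          have e : d + (a - t) = d - t + a := by ring
          rw [e]
          exact h7
        · exfalso
          have h9 := b4 (t - a) ⟨by omega, by
            have e : d - (t - a) = d - t + a := by ring
            rw [e]
            exact (mem_filter.1 h7).1⟩ (todd.sub_even h2)
          omega
  have X1 : ∀ a, um U1 (a - t) → ¬ vm V1 d (d - t - a) := by
    intro a h1 h2
    have e : d - (d - t - a) = a + t := by ring
    refine R1.bot' a ?_ ?_ ?_ ?_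
    · have := h1.1
      omega
    · have := h1.2
      rw [neg_sub] at this
      exact this
    · have := h2.1
      omega
    · have := h2.2
      rw [e] at this
      exact this
  have X2 : ∀ a, vp V1 d (a - t) → ¬ up U1 (d - t - a) := by
    intro a h2 h1
    have e : d + (a - t) = a + (d - t) := by ring
    refine R1.top' a ?_ ?_ ?_ ?_
    · have := h1.1
      omega
    · exact h1.2
    · have := h2.1
      omega
    · have := h2.2
      rw [e] at this
      exact this
  have X3 : ∀ a, up U1 (a - t) → ¬ vm V1 d (d - t - a) := by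
    intro a h1 h2
    have e : d - (d - t - a) = t + a := by ring
    refine R2.left' a ?_ ?_ ?_ ?_
    · have := h1.1
      omega
    · exact h1.2
    · have := h2.1
      omega
    · have := h2.2
      rw [e] at this
      exact this
  have X4 : ∀ a, vp V1 d (a - t) → ¬ um U1 (d - t - a) := by
    intro a h2 h1
    have e : d + (a - t) = d - t + a := by ring
    refine R2.right' a ?_ ?_ ?_ ?_
    · have := h1.1
      omega
    · have := h1.2
      rw [neg_sub] at this
      exact this
    · have := h2.1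
      omega
    · have := h2.2
      rw [e] at this
      exact this
  obtain ⟨S1, S2, S3⟩ := four_sets (p := up U1)
    (p' := um U1) (q := vp V1 d)
    (q' := vm V1 d) (d := d) (D := d) tp
    (by
      intro x hx
      rw [up_filter] at hx
      exact (h.hB x ((M3 x).2 (Or.inl hx.1))).2)
    (by
      intro x hx
      rw [um_filter k1] at hx
      exact (h.hA x ((M1 x).2 (Or.inl hx.1))).2)
    (by
      intro x hx
      rw [vp_filter k3] at hx
      exact (h.hA x ((M2 x).2 (Or.inr hx.1))).2)
    (by
      intro a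
      rw [um_filter k1, vm_filter k2, up_filter, vp_filter k3, k2]
      have := (M1 a).symm.trans (M2 a)
      tauto)
    (by
      intro a
      rw [um_filter k1, vm_filter k2]
      have := M1' a
      tauto)
    (by
      intro a
      rw [vp_filter k3, up_filter]
      have := M2' a
      tauto)
    (by
      intro a
      rw [um_filter k1, vm_filter k2, up_filter, vp_filter k3, k2]
      have := (M3 a).symm.trans (M4 a)
      tauto)
    (by
      intro a
      rw [up_filter, vm_filter k2]
      have := M3' a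
      tauto)
    (by
      intro a
      rw [vp_filter k3, um_filter k1]
      have := M4' a
      tauto)
    (fun a => (C1 a).trans (C2 a).symm) X1 X2
    (fun a => (C3 a).trans (C4 a).symm) X3 X4
  set s := vp V1 d with hs
  -- descriptions
  have dA : ∀ a, a ∈ A ∧ Odd a ↔ s a ∨ s (d - a) := by
    intro a
    rw [← S2 a, ← S3 (d - a), um_filter k1, vm_filter k2, k2, M1]
    tauto
  have dB : ∀ a, a ∈ B ∧ Odd a ↔ s a ∨ s (d - a) := by
    intro a
    rw [← S1 a, ← S3 (d - a), up_filter, vm_filter k2, k2, M3]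
    tauto
  have oA : ∀ a, a ∈ A ∧ Even a ∧ a ≠ 0 ∧ a ≠ d ↔ s (a - t) ∨ s (d - t - a) := by
    intro a
    rw [← S2 (a - t), ← S3 (d - t - a), ← C1 a]
  have oB : ∀ a, a ∈ B ∧ Even a ∧ a ≠ 0 ∧ a ≠ d ↔ s (a - t) ∨ s (d - t - a) := by
    intro a
    rw [← S1 (a - t), ← S3 (d - t - a), ← C3 a]
  have hAB : ∀ a, a ∈ A ↔ a ∈ B := by
    intro a
    have h1 := (dA a).trans (dB a).symm
    have h2 := (oA a).trans (oB a).symm
    rcases Int.even_or_odd a with h3 | h3
    · by_cases h4 : a = 0
      · subst h4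
        exact ⟨fun _ => h.B0, fun _ => h.A0⟩
      · by_cases h5 : a = d
        · subst h5
          exact ⟨fun _ => h.Bd, fun _ => h.Ad⟩
        · tauto
    · tauto
  have hsym : ∀ a, a ∈ A → d - a ∈ A := by
    intro a ha
    rcases Int.even_or_odd a with h3 | h3
    · by_cases h4 : a = 0
      · subst h4
        rw [sub_zero]
        exact h.Ad
      · by_cases h5 : a = d
        · subst h5
          rw [sub_self]
          exact h.A0
        · have h1 := (oA a).1 ⟨ha, h3, h4, h5⟩
          apply ((oA (d - a)).2 _).1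
          have e1 : d - a - t = d - t - a := by ring
          have e2 : d - t - (d - a) = a - t := by ring
          rw [e1, e2]
          exact h1.symm
    · have h1 := (dA a).1 ⟨ha, h3⟩
      apply ((dA (d - a)).2 _).1
      rw [sub_sub_cancel]
      exact h1.symm
  obtain ⟨hU, hV, -, mP, mR⟩ := h.toSym hAB hsym
  have key : ∀ x, Odd x → (x ∈ U.filter (0 ≤ ·) ↔ s x) := by
    intro x hx
    rw [mP, ← S1 x, up_filter]
    tauto
  refine ⟨hAB, hsym, ?_, ?_, ?_, ?_⟩
  · rw [mP]
    exact tup'
  · intro x hx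
    rw [key x hx, mR, hs, vp_filter k3]
    tauto
  · intro a ha h0 h1
    have e1 : Odd (a - t) := ha.sub_odd todd
    have e2 : Odd (d - t - a) := (hd.sub_odd todd).sub_even ha
    rw [key _ e1, key _ e2, ← oA a]
    tauto
  · intro a ha h1 h2
    have e1 : Odd (a - t) := ha.sub_odd todd
    have e2 : Odd (d - t - a) := (hd.sub_odd todd).sub_even ha
    rw [key _ e1] at h1
    rw [key _ e2] at h2
    exact X1 a ((S2 _).2 h1) ((S3 _).2 h2)

end

end Pool.Agent.U411.Queens
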