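import Pool.Agent.U411.Queens.Core

set_option autoImplicit false

namespace Pool.Agent.U411.Queens

open Finset

theorem count_lemma {S : Finset ℤ} {f s : ℕ} (hf : 1 ≤ f) (hfs : f ≤ s + 1)
    (h1 : ∀ x : ℤ, |x| < f → x ∈ S) (h2 : ∀ x : ℤ, |x| ≤ s → Even (x - s) → x ∈ S) :
    2 * f - 1 + 2 * ((s + 2 - f) / 2) ≤ S.card ∧
    (S.card = 2 * f - 1 + 2 * ((s + 2 - f) / 2) →
      ∀ x ∈ S, |x| < f ∨ (|x| ≤ s ∧ Even (x - s))) := by
  classical
  set k := (s + 2 - f) / 2 with hk
  set T1 := Icc (-((f : ℤ) - 1)) ((f : ℤ) - 1) with hT1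
  set T2 := (range k).image (fun j : ℕ => (s : ℤ) - 2 * j) with hT2
  set T3 := (range k).image (fun j : ℕ => -((s : ℤ) - 2 * j)) with hT3
  have c1 : T1.card = 2 * f - 1 := by
    rw [hT1, Int.card_Icc]
    omega
  have c2 : T2.card = k := by
    rw [hT2, card_image_of_injOn, card_range]
    intro a _ b _ h
    simp only at h
    omega
  have c3 : T3.card = k := by
    rw [hT3, card_image_of_injOn, card_range]
    intro a _ b _ h
    simp only at h
    omega
  have m1 : ∀ x ∈ T1, |x| < f := by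
    intro x hx
    rw [hT1, mem_Icc] at hx
    rw [abs_lt]
    omega
  have m2 : ∀ x ∈ T2, (f : ℤ) ≤ x ∧ x ≤ s ∧ Even (x - s) := by
    intro x hx
    obtain ⟨j, hj, rfl⟩ := mem_image.1 hx
    rw [mem_range] at hj
    refine ⟨by omega, by omega, ⟨-(j : ℤ), by ring⟩⟩
  have m3 : ∀ x ∈ T3, x ≤ -(f : ℤ) ∧ -(s : ℤ) ≤ x ∧ Even (x - s) := by
    intro x hx
    obtain ⟨j, hj, rfl⟩ := mem_image.1 hx
    rw [mem_range] at hj
    refine ⟨by omega, by omega, ⟨(j : ℤ) - s, by ring⟩⟩
  have d12 : Disjoint T1 T2 := by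
    rw [disjoint_left]
    intro x hx hy
    have h3 := abs_lt.1 (m1 x hx)
    have h4 := m2 x hy
    omega
  have d3 : Disjoint (T1 ∪ T2) T3 := by
    rw [disjoint_left]
    intro x hx hy
    have h4 := m3 x hy
    rcases mem_union.1 hx with h | h
    · have h3 := abs_lt.1 (m1 x h)
      omega
    · have h3 := m2 x h
      omega
  have cT : (T1 ∪ T2 ∪ T3).card = 2 * f - 1 + 2 * k := by
    rw [card_union_of_disjoint d3, card_union_of_disjoint d12, c1, c2, c3]
    ring
  have hsub : T1 ∪ T2 ∪ T3 ⊆ S := by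
    intro x hx
    rcases mem_union.1 hx with h | h
    · rcases mem_union.1 h with h | h
      · exact h1 x (m1 x h)
      · have h3 := m2 x h
        exact h2 x (abs_le.2 ⟨by omega, by omega⟩) h3.2.2
    · have h3 := m3 x h
      exact h2 x (abs_le.2 ⟨by omega, by omega⟩) h3.2.2
  refine ⟨?_, ?_⟩
  · rw [← cT]
    exact card_le_card hsub
  · intro hc x hx
    have hST : T1 ∪ T2 ∪ T3 = S := eq_of_subset_of_card_le hsub (by omega)
    rw [← hST] at hx
    rcases mem_union.1 hx with h | h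
    · rcases mem_union.1 h with h | h
      · exact Or.inl (m1 x h)
      · have h3 := m2 x h
        exact Or.inr ⟨abs_le.2 ⟨by omega, by omega⟩, h3.2.2⟩
    · have h3 := m3 x h
      exact Or.inr ⟨abs_le.2 ⟨by omega, by omega⟩, h3.2.2⟩

theorem exists_first {S : Finset ℤ} (h0 : (0 : ℤ) ∈ S) :
    ∃ e : ℕ, 1 ≤ e ∧ (∀ x : ℤ, |x| < e → x ∈ S) ∧ ((e : ℤ) ∉ S ∨ -(e : ℤ) ∉ S) ∧
      2 * e - 1 ≤ S.card := by
  classical
  have hex : ∃ n : ℕ, ¬ ((n : ℤ) ∈ S ∧ -(n : ℤ) ∈ S) := by
    by_contra hcon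
    push Not at hcon
    have h1 : (range (S.card + 1)).image (fun n : ℕ => (n : ℤ)) ⊆ S := by
      intro x hx
      obtain ⟨n, -, rfl⟩ := mem_image.1 hx
      exact (hcon n).1
    have h2 := card_le_card h1
    rw [card_image_of_injective _ (fun a b h => by exact_mod_cast h), card_range] at h2
    omega
  refine ⟨Nat.find hex, ?_, ?_, ?_, ?_⟩
  · rw [Nat.one_le_iff_ne_zero]
    intro h
    have := Nat.find_spec hex
    rw [h] at this
    simp [h0] at this
  · intro x hx
    have h1 : x.natAbs < Nat.find hex := by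
      rw [Int.abs_eq_natAbs] at hx
      exact_mod_cast hx
    have h2 := Nat.find_min hex h1
    push Not at h2
    rcases le_total 0 x with h3 | h3
    · have e : ((x.natAbs : ℕ) : ℤ) = x := by omega
      rw [e] at h2
      exact h2.1
    · have e : -((x.natAbs : ℕ) : ℤ) = x := by omega
      rw [e] at h2
      exact h2.2
  · have := Nat.find_spec hex
    tauto
  · set e := Nat.find hex with he
    have h1 : Icc (-((e : ℤ) - 1)) ((e : ℤ) - 1) ⊆ S := by
      intro x hx
      rw [mem_Icc] at hx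
      have h1 : x.natAbs < Nat.find hex := by omega
      have h2 := Nat.find_min hex h1
      push Not at h2
      rcases le_total 0 x with h3 | h3
      · have e : ((x.natAbs : ℕ) : ℤ) = x := by omega
        rw [e] at h2
        exact h2.1
      · have e : -((x.natAbs : ℕ) : ℤ) = x := by omega
        rw [e] at h2
        exact h2.2
    have h2 := card_le_card h1
    rw [Int.card_Icc] at h2
    omega

/-- The structure of the occupied diagonals in the even case. -/
theorem te_structure {g : ℕ} {S T : Finset ℤ} (hS0 : (0 : ℤ) ∈ S) (hT0 : (0 : ℤ) ∈ T)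
    (cS : S.card = g) (cT : T.card = g)
    (cov : ∀ a b : ℤ, 0 ≤ a → a ≤ g → 0 ≤ b → b ≤ g → b - a ∈ S ∨ a + b - g ∈ T) :
    ∃ e : ℕ, 1 ≤ e ∧ 2 * e ≤ g + 1 ∧ g % 2 = 1 ∧
      (∀ x, x ∈ S ↔ |x| < e ∨ (|x| ≤ (g : ℤ) - e ∧ Even (x - ((g : ℤ) - e)))) ∧
      (∀ x, x ∈ T ↔ |x| < e ∨ (|x| ≤ (g : ℤ) - e ∧ Even (x - ((g : ℤ) - e)))) := by
  obtain ⟨e, e1, e2, e3, e4⟩ := exists_first hS0
  obtain ⟨f, f1, f2, f3, f4⟩ := exists_first hT0
  rw [cS] at e4
  rw [cT] at f4
  have hT : ∀ v : ℤ, |v| ≤ ((g - e : ℕ) : ℤ) → Even (v - ((g - e : ℕ) : ℤ)) → v ∈ T := by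
    intro v hv hev
    obtain ⟨k, hk⟩ := hev
    have hc : ((g - e : ℕ) : ℤ) = (g : ℤ) - e := by omega
    rw [hc] at hv hk
    rw [abs_le] at hv
    rcases e3 with h | h
    · rcases cov (g - e + k) (g + k) (by omega) (by omega) (by omega) (by omega) with h1 | h1
      · exfalso
        apply h
        have : (g : ℤ) + k - (g - e + k) = e := by ring
        rwa [this] at h1
      · have : (g : ℤ) - e + k + (g + k) - g = v := by linarith
        rwa [this] at h1
    · rcases cov (g + k) (g - e + k) (by omega) (by omega) (by omega) (by omega) with h1 | h1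
      · exfalso
        apply h
        have : (g : ℤ) - e + k - (g + k) = -e := by ring
        rwa [this] at h1
      · have : (g : ℤ) + k + (g - e + k) - g = v := by linarith
        rwa [this] at h1
  have hS : ∀ u : ℤ, |u| ≤ ((g - f : ℕ) : ℤ) → Even (u - ((g - f : ℕ) : ℤ)) → u ∈ S := by
    intro u hu heu
    obtain ⟨k, hk⟩ := heu
    have hc : ((g - f : ℕ) : ℤ) = (g : ℤ) - f := by omega
    rw [hc] at hu hk
    rw [abs_le] at hu
    rcases f3 with h | h
    · rcases cov (f - k) (g + k) (by omega) (by omega) (by omega) (by omega) with h1 | h1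
      · have : (g : ℤ) + k - (f - k) = u := by linarith
        rwa [this] at h1
      · exfalso
        apply h
        have : (f : ℤ) - k + (g + k) - g = f := by ring
        rwa [this] at h1
    · rcases cov (-k) (g - f + k) (by omega) (by omega) (by omega) (by omega) with h1 | h1
      · have : (g : ℤ) - f + k - -k = u := by linarith
        rwa [this] at h1
      · exfalso
        apply h
        have : -k + ((g : ℤ) - f + k) - g = -f := by ring
        rwa [this] at h1
  obtain ⟨q1, q2⟩ := count_lemma (S := T) (f := f) (s := g - e) f1 (by omega) f2 hT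
  obtain ⟨q3, q4⟩ := count_lemma (S := S) (f := e) (s := g - f) e1 (by omega) e2 hS
  rw [cT] at q1 q2
  rw [cS] at q3 q4
  have hef : e = f := by omega
  subst hef
  have hg : g % 2 = 1 := by omega
  have q2' := q2 (by omega)
  have q4' := q4 (by omega)
  have hc : ((g - e : ℕ) : ℤ) = (g : ℤ) - e := by omega
  rw [hc] at hT hS
  simp only [hc] at q2' q4'
  refine ⟨e, e1, by omega, hg, ?_, ?_⟩
  · intro x
    constructor
    · exact q4' x
    · rintro (h | ⟨h, h'⟩)
      · exact e2 x h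
      · exact hS x h h'
  · intro x
    constructor
    · exact q2' x
    · rintro (h | ⟨h, h'⟩)
      · exact f2 x h
      · exact hT x h h'

/-- sums over the structured set -/
theorem te_sum {g e : ℕ} {S : Finset ℤ} (he : 1 ≤ e) (he2 : 2 * e ≤ g + 1) (hg : g % 2 = 1)
    (hS : ∀ x, x ∈ S ↔ |x| < e ∨ (|x| ≤ (g : ℤ) - e ∧ Even (x - ((g : ℤ) - e))))
    (F : ℤ → ℤ) : ∑ x ∈ S, F x = ∑ x ∈ SP (e - 1), F x + ∑ x ∈ SP (g - e + 1), F x := by
  classical
  have c1 : ((e - 1 : ℕ) : ℤ) = (e : ℤ) - 1 := by omega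
  have c2 : ((g - e + 1 : ℕ) : ℤ) = (g : ℤ) - e + 1 := by omega
  have hdis : Disjoint (SP (e - 1)) (SP (g - e + 1)) := by
    rw [disjoint_left]
    intro x hx hy
    obtain ⟨-, k1, hk1⟩ := mem_SP.1 hx
    obtain ⟨-, k2, hk2⟩ := mem_SP.1 hy
    rw [c1] at hk1
    rw [c2] at hk2
    omega
  rw [← sum_union hdis]
  apply sum_congr _ (fun _ _ => rfl)
  ext x
  rw [hS, mem_union, mem_SP, mem_SP, c1, c2]
  constructor
  · rintro (h | ⟨h, h'⟩)
    · rcases Int.even_or_odd (x - ((e : ℤ) - 1 - 1)) with h2 | h2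
      · left
        refine ⟨?_, h2⟩
        obtain ⟨k, hk⟩ := h2
        rw [abs_lt] at h
        rw [abs_le]
        omega
      · right
        obtain ⟨k, hk⟩ := h2
        rw [abs_lt] at h
        refine ⟨?_, ?_⟩
        · rw [abs_le]
          omega
        · obtain ⟨j, hj⟩ : ∃ j : ℤ, (g : ℤ) = 2 * j + 1 := ⟨((g / 2 : ℕ) : ℤ), by omega⟩
          exact ⟨k + e - 1 - j, by omega⟩
    · right
      have e1 : (g : ℤ) - e + 1 - 1 = (g : ℤ) - e := by ring
      rw [e1]
      exact ⟨h, h'⟩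
  · rintro (⟨h, -⟩ | ⟨h, h'⟩)
    · left
      rw [abs_le] at h
      rw [abs_lt]
      omega
    · right
      have e1 : (g : ℤ) - e + 1 - 1 = (g : ℤ) - e := by ring
      rw [e1] at h h'
      exact ⟨h, h'⟩

end Pool.Agent.U411.Queens
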