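import Pool.Agent.U411.Queens.Symm

set_option autoImplicit false

namespace Pool.Agent.U411.Queens

open Finset

/-- multiples `0, μ, …, (n−1)μ` -/
def AP (μ : ℤ) (n : ℕ) : Finset ℤ := (range n).image (fun j : ℕ => (j : ℤ) * μ)

theorem mem_AP {μ : ℤ} {n : ℕ} {x : ℤ} : x ∈ AP μ n ↔ ∃ j : ℕ, j < n ∧ x = j * μ := by
  unfold AP
  simp only [mem_image, mem_range]
  constructor
  · rintro ⟨j, h1, h2⟩
    exact ⟨j, h1, h2.symm⟩
  · rintro ⟨j, h1, h2⟩
    exact ⟨j, h1, h2.symm⟩

/-- the possible shapes -/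
def Shape (d : ℤ) (P : Finset ℤ) : Prop :=
  (∃ (μ : ℤ) (J : ℕ), 0 < μ ∧ 1 ≤ J ∧ P = AP μ (J + 1)) ∨
  (∃ (μ : ℤ) (J : ℕ), 0 < μ ∧ 1 ≤ J ∧ d - (J + 1) * μ ∉ AP μ (J + 1) ∧
    P = insert (d - (J + 1) * μ) (AP μ (J + 1))) ∨
  (P.card = 4 ∧ ∑ x ∈ P, x = d)

theorem ap_of_closed {S : Finset ℤ} {b μ : ℤ} (hμ : 0 < μ) (hb : b ∈ S)
    (hnn : ∀ x ∈ S, b ≤ x) (hcl : ∀ x ∈ S, x ≠ b → x - μ ∈ S) :
    ∃ n : ℕ, 1 ≤ n ∧ ∀ x, x ∈ S ↔ ∃ j : ℕ, j < n ∧ x = b + j * μ := by
  have hne : S.Nonempty := ⟨b, hb⟩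
  -- every element is in the progression
  have key : ∀ k : ℕ, ∀ x ∈ S, x - b ≤ k → ∃ j : ℕ, x = b + j * μ := by
    intro k
    induction k with
    | zero =>
      intro x hx h
      refine ⟨0, ?_⟩
      have := hnn x hx
      push_cast at h ⊢
      linarith
    | succ k ih =>
      intro x hx h
      by_cases hxb : x = b
      · exact ⟨0, by rw [hxb]; push_cast; ring⟩
      · obtain ⟨j, hj⟩ := ih (x - μ) (hcl x hx hxb) (by push_cast at h; linarith)
        exact ⟨j + 1, by push_cast; linarith⟩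
  have key2 : ∀ x ∈ S, ∃ j : ℕ, x = b + j * μ := by
    intro x hx
    apply key (x - b).toNat x hx
    rw [Int.toNat_of_nonneg (by have := hnn x hx; linarith)]
  -- descending
  have key3 : ∀ k : ℕ, b + k * μ ∈ S → ∀ j : ℕ, j ≤ k → b + j * μ ∈ S := by
    intro k
    induction k with
    | zero =>
      intro h j hj
      have : j = 0 := by omega
      subst this
      exact h
    | succ k ih =>
      intro h j hj
      rcases Nat.lt_or_ge j (k + 1) with h1 | h1
      · apply ih _ j (by omega)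
        have h2 := hcl _ h (by
          intro h3
          have : (0 : ℤ) < ((k + 1 : ℕ) : ℤ) * μ := by positivity
          linarith)
        have e : b + ((k + 1 : ℕ) : ℤ) * μ - μ = b + k * μ := by push_cast; ring
        rwa [e] at h2
      · have : j = k + 1 := by omega
        subst this
        exact h
  obtain ⟨k, hk⟩ := key2 _ (S.max'_mem hne)
  refine ⟨k + 1, by omega, fun x => ⟨fun hx => ?_, ?_⟩⟩
  · obtain ⟨j, hj⟩ := key2 x hx
    refine ⟨j, ?_, hj⟩
    have h1 := S.le_max' x hx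
    rw [hk, hj] at h1
    by_contra h2
    have h3 : (k : ℤ) + 1 ≤ j := by omega
    nlinarith
  · rintro ⟨j, hj, rfl⟩
    apply key3 k _ j (by omega)
    rw [← hk]
    exact S.max'_mem hne

section
variable {d t : ℤ} {A P R : Finset ℤ}

theorem Sym.symmA (H : Sym d A P R) : ∀ a, a ∈ A → d - a ∈ A := by
  intro a ha
  rcases (H.A1 a).1 ha with h | h
  · exact (H.A2 _).2 (Or.inr (by rw [sub_sub_cancel]; exact h))
  · exact (H.A2 _).2 (Or.inl h)

theorem Sym.PA (H : Sym d A P R) : ∀ a ∈ P, a ∈ A := fun a ha => (H.A1 a).2 (Or.inl ha)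
theorem Sym.RA (H : Sym d A P R) : ∀ a ∈ R, a ∈ A := fun a ha => (H.A2 a).2 (Or.inl ha)

theorem Sym.swap (H : Sym d A P R) : Sym d A R P := by
  refine ⟨H.hd, H.hA, H.R0, H.P0, H.A2, H.A2', H.A1, H.A1', ?_, H.card.symm⟩
  intro a ha b hb
  have h1 := H.cov (d - a) (H.symmA a ha) b hb
  have e1 : b - (d - a) = a + b - d := by ring
  have e2 : d - a + b - d = b - a := by ring
  rw [e1, e2] at h1
  exact h1.symm

theorem Sym.mem_P_iff (H : Sym d A P R) {a : ℤ} (ha : a ∈ A) : d - a ∈ P ↔ a ∉ R := by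
  constructor
  · intro h1 h2
    exact H.A2' a h2 h1
  · intro h1
    exact ((H.A2 a).1 ha).resolve_left h1

theorem twoAP_step (H : Sym d A P R) (tp : 0 < t) {N : ℕ}
    (hA : ∀ a, a ∈ A ↔ ∃ j : ℕ, j ≤ N ∧ (a = j * t ∨ a = d - j * t))
    (j : ℕ) (hj1 : j + 2 ≤ N) (h : ((j + 2 : ℕ) : ℤ) * t ∈ P) :
    (j : ℤ) * t ∈ P := by
  have tA : t ∈ A := (hA t).2 ⟨1, by omega, Or.inl (by push_cast; ring)⟩
  have jA : ((j + 1 : ℕ) : ℤ) * t ∈ A := (hA _).2 ⟨j + 1, by omega, Or.inl rfl⟩
  have jA2 : ((j + 2 : ℕ) : ℤ) * t ∈ A := (hA _).2 ⟨j + 2, by omega, Or.inl rfl⟩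
  have hle := (H.hA _ jA2).2
  rcases H.cov t tA _ jA with h1 | h1
  · have e : ((j + 1 : ℕ) : ℤ) * t - t = j * t := by push_cast; ring
    rw [e, abs_of_nonneg (by positivity)] at h1
    exact h1
  · have e : t + ((j + 1 : ℕ) : ℤ) * t - d = ((j + 2 : ℕ) : ℤ) * t - d := by push_cast; ring
    rw [e, abs_of_nonpos (by linarith), neg_sub] at h1
    exact (H.A1' _ h h1).elim

theorem twoAP_desc (H : Sym d A P R) (tp : 0 < t) {N : ℕ}
    (hA : ∀ a, a ∈ A ↔ ∃ j : ℕ, j ≤ N ∧ (a = j * t ∨ a = d - j * t))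
    (i : ℕ) : ∀ k : ℕ, i + 2 * k ≤ N → ((i + 2 * k : ℕ) : ℤ) * t ∈ P → (i : ℤ) * t ∈ P := by
  intro k
  induction k with
  | zero =>
    intro _ h
    simpa using h
  | succ k ih =>
    intro h1 h2
    apply ih (by omega)
    apply twoAP_step H tp hA (i + 2 * k) (by omega)
    have e : i + 2 * k + 2 = i + 2 * (k + 1) := by ring
    rw [e]
    exact h2

theorem twoAP_cmp (H : Sym d A P R) (tp : 0 < t) {N : ℕ}
    (hA : ∀ a, a ∈ A ↔ ∃ j : ℕ, j ≤ N ∧ (a = j * t ∨ a = d - j * t))
    (full : ∀ j : ℕ, j ≤ N → (j + N) % 2 = 1 → (j : ℤ) * t ∈ P ∧ (j : ℤ) * t ∈ R)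
    (i k : ℕ) (hi : i ≤ N) (hk : k ≤ N) (h1 : (i : ℤ) * t ∉ P)
    (h2 : (k : ℤ) * t ∉ R) (h3 : (k : ℤ) * t ∈ P) : k ≤ i := by
  by_contra hlt
  have p1 : (i + N) % 2 = 0 := by
    by_contra h
    exact h1 (full i hi (by omega)).1
  have p2 : (k + N) % 2 = 0 := by
    by_contra h
    exact h2 (full k hk (by omega)).2
  obtain ⟨m, hm⟩ : ∃ m, k = i + 2 * m := ⟨(k - i) / 2, by omega⟩
  apply h1
  apply twoAP_desc H tp hA i m (by omega)
  rw [← hm]
  exact h3

theorem twoAP_eq (H : Sym d A P R) (tp : 0 < t) {N : ℕ}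
    (hA : ∀ a, a ∈ A ↔ ∃ j : ℕ, j ≤ N ∧ (a = j * t ∨ a = d - j * t))
    (disj : ∀ i j : ℕ, i ≤ N → j ≤ N → (i : ℤ) * t ≠ d - j * t)
    (full : ∀ j : ℕ, j ≤ N → (j + N) % 2 = 1 → (j : ℤ) * t ∈ P ∧ (j : ℤ) * t ∈ R) :
    P = R := by
  classical
  set JP := (range (N + 1)).filter (fun j : ℕ => (j : ℤ) * t ∈ P) with hJP
  set JR := (range (N + 1)).filter (fun j : ℕ => (j : ℤ) * t ∈ R) with hJR
  have inj1 : Function.Injective (fun j : ℕ => (j : ℤ) * t) := by
    intro x y hxy
    have := mul_right_cancel₀ tp.ne' hxy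
    exact_mod_cast this
  have inj2 : Function.Injective (fun j : ℕ => d - (j : ℤ) * t) := by
    intro x y hxy
    apply inj1
    simp only at hxy ⊢
    linarith
  have cardgen : ∀ {P R : Finset ℤ}, Sym d A P R →
      P.card + ((range (N + 1)).filter (fun j : ℕ => (j : ℤ) * t ∈ R)).card =
      ((range (N + 1)).filter (fun j : ℕ => (j : ℤ) * t ∈ P)).card + (N + 1) := by
    intro P R H
    have e : P = ((range (N + 1)).filter (fun j : ℕ => (j : ℤ) * t ∈ P)).image
          (fun j : ℕ => (j : ℤ) * t) ∪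
        ((range (N + 1)).filter (fun j : ℕ => ¬ ((j : ℤ) * t ∈ R))).image
          (fun j : ℕ => d - (j : ℤ) * t) := by
      ext x
      simp only [mem_union, mem_image, mem_filter, mem_range]
      constructor
      · intro hx
        obtain ⟨j, hj, rfl | rfl⟩ := (hA x).1 (H.PA x hx)
        · exact Or.inl ⟨j, ⟨by omega, hx⟩, rfl⟩
        · right
          refine ⟨j, ⟨by omega, ?_⟩, rfl⟩
          exact fun h => H.A2' _ h hx
      · rintro (⟨j, ⟨h1, h2⟩, rfl⟩ | ⟨j, ⟨h1, h2⟩, rfl⟩)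
        · exact h2
        · have jA : (j : ℤ) * t ∈ A := (hA _).2 ⟨j, by omega, Or.inl rfl⟩
          exact (H.mem_P_iff jA).2 h2
    have hdis : Disjoint (((range (N + 1)).filter (fun j : ℕ => (j : ℤ) * t ∈ P)).image
          (fun j : ℕ => (j : ℤ) * t))
        (((range (N + 1)).filter (fun j : ℕ => ¬ ((j : ℤ) * t ∈ R))).image
          (fun j : ℕ => d - (j : ℤ) * t)) := by
      rw [disjoint_left]
      simp only [mem_image, mem_filter, mem_range]
      rintro x ⟨i, ⟨hi, -⟩, rfl⟩ ⟨j, ⟨hj, -⟩, h⟩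
      exact disj i j (by omega) (by omega) h.symm
    have e2 := congrArg Finset.card e
    rw [card_union_of_disjoint hdis, card_image_of_injective _ inj1,
      card_image_of_injective _ inj2] at e2
    have e3 := card_filter_add_card_filter_not (s := range (N + 1))
      (fun j : ℕ => (j : ℤ) * t ∈ R)
    rw [card_range] at e3
    omega
  have c1 := cardgen H
  have c2 := cardgen H.swap
  have c3 := H.card
  rw [← hJP, ← hJR] at c1 c2
  have hcard : JP.card = JR.card := by omega
  have hsub : JP ⊆ JR ∨ JR ⊆ JP := by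
    by_contra hcon
    push Not at hcon
    obtain ⟨h1, h2⟩ := hcon
    obtain ⟨k, hk1, hk2⟩ := not_subset.1 h1
    obtain ⟨i, hi1, hi2⟩ := not_subset.1 h2
    rw [hJP, mem_filter, mem_range] at hk1
    rw [hJR, mem_filter, mem_range] at hk2
    rw [hJR, mem_filter, mem_range] at hi1
    rw [hJP, mem_filter, mem_range] at hi2
    have a1 : (k : ℤ) * t ∉ R := fun h => hk2 ⟨hk1.1, h⟩
    have a2 : (i : ℤ) * t ∉ P := fun h => hi2 ⟨hi1.1, h⟩
    have r1 := twoAP_cmp H tp hA full i k (by omega) (by omega) a2 a1 hk1.2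
    have r2 := twoAP_cmp H.swap tp hA (fun j hj hjp => (full j hj hjp).symm) k i
      (by omega) (by omega) a1 a2 hi1.2
    have : i = k := by omega
    subst this
    exact a2 hk1.2
  have hJ : JP = JR := by
    rcases hsub with h | h
    · exact eq_of_subset_of_card_le h (by omega)
    · exact (eq_of_subset_of_card_le h (by omega)).symm
  have hmem : ∀ j : ℕ, j ≤ N → ((j : ℤ) * t ∈ P ↔ (j : ℤ) * t ∈ R) := by
    intro j hj
    have : j ∈ JP ↔ j ∈ JR := by rw [hJ]
    rw [hJP, hJR, mem_filter, mem_filter, mem_range] at this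
    constructor
    · intro h
      exact (this.1 ⟨by omega, h⟩).2
    · intro h
      exact (this.2 ⟨by omega, h⟩).2
  ext x
  constructor
  · intro hx
    obtain ⟨j, hj, rfl | rfl⟩ := (hA x).1 (H.PA x hx)
    · exact (hmem j hj).1 hx
    · have jA : (j : ℤ) * t ∈ A := (hA _).2 ⟨j, by omega, Or.inl rfl⟩
      have h1 := (H.mem_P_iff jA).1 hx
      rw [← hmem j hj] at h1
      exact (H.swap.mem_P_iff jA).2 h1
  · intro hx
    obtain ⟨j, hj, rfl | rfl⟩ := (hA x).1 (H.RA x hx)
    · exact (hmem j hj).2 hx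
    · have jA : (j : ℤ) * t ∈ A := (hA _).2 ⟨j, by omega, Or.inl rfl⟩
      have h1 := (H.swap.mem_P_iff jA).1 hx
      rw [hmem j hj] at h1
      exact (H.mem_P_iff jA).2 h1

theorem twoAP (H : Sym d A P R) (todd : Odd t) (tp : 0 < t) {N : ℕ} (hN : 1 ≤ N)
    (hA : ∀ a, a ∈ A ↔ ∃ j : ℕ, j ≤ N ∧ (a = j * t ∨ a = d - j * t))
    (disj : ∀ i j : ℕ, i ≤ N → j ≤ N → (i : ℤ) * t ≠ d - j * t)
    (tP : t ∈ P)
    (full : ∀ j : ℕ, j ≤ N → (j + N) % 2 = 1 → (j : ℤ) * t ∈ P ∧ (j : ℤ) * t ∈ R) :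
    P = R ∧ Shape d P := by
  have hPR := twoAP_eq H tp hA disj full
  subst hPR
  refine ⟨rfl, ?_⟩
  have NA : (N : ℤ) * t ∈ A := (hA _).2 ⟨N, le_refl _, Or.inl rfl⟩
  by_cases hNP : (N : ℤ) * t ∈ P
  · -- full progression
    left
    refine ⟨t, N, tp, hN, ?_⟩
    have hall : ∀ j : ℕ, j ≤ N → (j : ℤ) * t ∈ P := by
      intro j hj
      by_cases hp : (j + N) % 2 = 1
      · exact (full j hj hp).1
      · obtain ⟨m, hm⟩ : ∃ m, N = j + 2 * m := ⟨(N - j) / 2, by omega⟩
        apply twoAP_desc H tp hA j m (by omega)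
        rw [← hm]
        exact hNP
    ext x
    rw [mem_AP]
    constructor
    · intro hx
      obtain ⟨j, hj, rfl | rfl⟩ := (hA x).1 (H.PA x hx)
      · exact ⟨j, by omega, rfl⟩
      · exact (H.A1' _ (hall j hj) hx).elim
    · rintro ⟨j, hj, rfl⟩
      exact hall j (by omega)
  · have dN : d - N * t ∈ P := (H.mem_P_iff NA).2 hNP
    have N2 : 2 ≤ N := by
      by_contra h
      have : N = 1 := by omega
      subst this
      apply hNP
      simpa using tP
    -- (N − 2) t ∈ P
    have hN2 : ((N - 2 : ℕ) : ℤ) * t ∈ P := by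
      by_contra hcon
      have N3 : 3 ≤ N := by
        by_contra h
        have : N = 2 := by omega
        subst this
        apply hcon
        simpa using H.P0
      have cN2 : ((N - 2 : ℕ) : ℤ) = N - 2 := by
        rw [Nat.cast_sub N2]
        rfl
      have A2 : 2 * t ∈ A := (hA _).2 ⟨2, by omega, Or.inl (by norm_num)⟩
      have hx : |((N : ℤ) + 2) * t - d| ∈ P := by
        rcases H.cov (2 * t) A2 _ NA with h | h
        · exfalso
          apply hcon
          have e : (N : ℤ) * t - 2 * t = ((N - 2 : ℕ) : ℤ) * t := by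
            rw [cN2]; ring
          rw [e, abs_of_nonneg (by positivity)] at h
          exact h
        · have e : 2 * t + N * t - d = ((N : ℤ) + 2) * t - d := by ring
          rw [e] at h
          exact h
      -- `t` divides `d`
      have hdiv : ∃ D : ℤ, d = D * t := by
        obtain ⟨j, hj, h1 | h1⟩ := (hA _).1 (H.PA _ hx)
        · rcases abs_eq (by positivity : (0 : ℤ) ≤ (j : ℤ) * t) |>.1 h1 with h2 | h2
          · exact ⟨(N : ℤ) + 2 - j, by linarith⟩
          · exact ⟨(N : ℤ) + 2 + j, by linarith⟩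
        · have jA : (j : ℤ) * t ∈ A := (hA _).2 ⟨j, by omega, Or.inl rfl⟩
          have hle := (H.hA _ jA).2
          rcases abs_eq (by linarith : (0 : ℤ) ≤ d - (j : ℤ) * t) |>.1 h1 with h2 | h2
          · -- 2 d = (N + 2 + j) t
            have h3 : Even (((N : ℤ) + 2 + j) * t) := ⟨d, by linarith⟩
            rcases Int.even_mul.1 h3 with h4 | h4
            · obtain ⟨k, hk⟩ := h4
              refine ⟨k, ?_⟩
              have h5 : ((N : ℤ) + 2 + j) * t = 2 * d := by linarith
              rw [hk] at h5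
              linarith
            · exact ((Int.not_even_iff_odd.2 todd) h4).elim
          · exfalso
            have h3 : ((N : ℤ) + 2) * t = j * t := by linarith
            have h4 := mul_right_cancel₀ tp.ne' h3
            omega
      obtain ⟨D, hD⟩ := hdiv
      have Deven : Even D := by
        have h3 := H.hd
        rw [hD] at h3
        rcases Int.even_mul.1 h3 with h4 | h4
        · exact h4
        · exact ((Int.not_even_iff_odd.2 todd) h4).elim
      have hDN : (N : ℤ) ≤ D := by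
        have h3 := (H.hA _ NA).2
        rw [hD] at h3
        exact le_of_mul_le_mul_right h3 tp
      have hD2 : 2 * (N : ℤ) < D := by
        by_contra hle
        have h3 : (((D - N).toNat : ℕ) : ℤ) = D - N := Int.toNat_of_nonneg (by linarith)
        apply disj N (D - N).toNat le_rfl (by omega)
        rw [h3, hD]
        ring
      have hD3 : 2 * (N : ℤ) + 2 ≤ D := by
        obtain ⟨k, hk⟩ := Deven
        omega
      have e1 : |((N : ℤ) + 2) * t - d| = (D - N - 2) * t := by
        rw [hD]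
        have e : ((N : ℤ) + 2) * t - D * t = -((D - N - 2) * t) := by ring
        rw [e, abs_neg, abs_of_nonneg]
        apply mul_nonneg _ tp.le
        linarith
      rw [e1] at hx
      obtain ⟨j, hj, h1 | h1⟩ := (hA _).1 (H.PA _ hx)
      · have h2 := mul_right_cancel₀ tp.ne' h1
        have h3 : (D : ℤ) - N - 2 = N := by omega
        rw [h3] at hx
        exact hNP hx
      · rw [hD] at h1
        have h2 : (D - N - 2) * t = (D - j) * t := by rw [h1]; ring
        have h3 := mul_right_cancel₀ tp.ne' h2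
        omega
    have hall : ∀ j : ℕ, j < N → (j : ℤ) * t ∈ P := by
      intro j hj
      by_cases hp : (j + N) % 2 = 1
      · exact (full j (by omega) hp).1
      · obtain ⟨m, hm⟩ : ∃ m, N - 2 = j + 2 * m := ⟨(N - 2 - j) / 2, by omega⟩
        apply twoAP_desc H tp hA j m (by omega)
        rw [← hm]
        exact hN2
    right; left
    refine ⟨t, N - 1, tp, by omega, ?_, ?_⟩
    · have e : ((N - 1 : ℕ) : ℤ) + 1 = N := by
        rw [Nat.cast_sub (by omega)]
        push_cast
        ring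
      rw [e, mem_AP]
      rintro ⟨j, hj, h⟩
      exact disj j N (by omega) le_rfl h.symm
    · have e : ((N - 1 : ℕ) : ℤ) + 1 = N := by
        rw [Nat.cast_sub (by omega)]
        push_cast
        ring
      have e' : N - 1 + 1 = N := by omega
      rw [e, e']
      ext x
      rw [mem_insert, mem_AP]
      constructor
      · intro hx
        obtain ⟨j, hj, rfl | rfl⟩ := (hA x).1 (H.PA x hx)
        · right
          refine ⟨j, ?_, rfl⟩
          rcases Nat.lt_or_ge j N with h | h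
          · exact h
          · have : j = N := by omega
            subst this
            exact (hNP hx).elim
        · left
          rcases Nat.lt_or_ge j N with h | h
          · exact (H.A1' _ (hall j h) hx).elim
          · have : j = N := by omega
            rw [this]
      · rintro (rfl | ⟨j, hj, rfl⟩)
        · exact dN
        · exact hall j hj

end

end Pool.Agent.U411.Queens
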